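import Mathlib
import Pool.Agent.H35.Wh.Spec

set_option autoImplicit false

open Finset

namespace Pool.Agent.H35.Wh.FrB

variable {V : Type*} [Fintype V] [DecidableEq V] (G : SimpleGraph V) [DecidableRel G.Adj]

/-- adjacency indicator -/
noncomputable def ad (v w : V) : ℝ := if G.Adj v w then 1 else 0

omit [Fintype V] [DecidableEq V] in
lemma ad_symm (v w : V) : ad G v w = ad G w v := by
  unfold ad
  by_cases h : G.Adj v w
  · rw [if_pos h, if_pos h.symm]
  · rw [if_neg h, if_neg (fun h' => h h'.symm)]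

omit [Fintype V] [DecidableEq V] in
lemma ad_nonneg (v w : V) : 0 ≤ ad G v w := by
  unfold ad; split_ifs <;> norm_num

omit [Fintype V] [DecidableEq V] in
lemma ad_le_one (v w : V) : ad G v w ≤ 1 := by
  unfold ad; split_ifs <;> norm_num

omit [Fintype V] [DecidableEq V] in
lemma ad_self (v : V) : ad G v v = 0 := by
  unfold ad; simp

omit [Fintype V] [DecidableEq V] in
lemma ad_of (v w : V) (h : G.Adj v w) : ad G v w = 1 := by
  unfold ad; rw [if_pos h]

omit [Fintype V] [DecidableEq V] in
lemma ad_not (v w : V) (h : ¬ G.Adj v w) : ad G v w = 0 := by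
  unfold ad; rw [if_neg h]

/-- The situation: a Perron vector with maximal entry one at `u`. -/
structure Sit (lam : ℝ) (x : V → ℝ) (u : V) : Prop where
  x0 : ∀ v, 0 ≤ x v
  x1 : ∀ v, x v ≤ 1
  xu : x u = 1
  ev : ∀ v, ∑ w, ad G v w * x w = lam * x v

lemma exists_sit [Nonempty V] : ∃ (x : V → ℝ) (u : V), Sit G (Spec.specRad G) x u := by
  obtain ⟨y, hy1, hy0, hev⟩ := Spec.exists_perron G
  obtain ⟨u, -, hu⟩ := Finset.exists_max_image univ y Finset.univ_nonempty
  have hpos : 0 < y u := by
    rcases (hy0 u).lt_or_eq with h | h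
    · exact h
    · exfalso
      have : y = 0 := by
        funext v
        exact le_antisymm ((hu v (mem_univ _)).trans h.symm.le) (hy0 v)
      rw [this] at hy1
      simp at hy1
  refine ⟨fun v => y v / y u, u, ⟨fun v => div_nonneg (hy0 v) hpos.le, ?_, div_self hpos.ne', ?_⟩⟩
  · intro v
    rw [div_le_one hpos]
    exact hu v (mem_univ _)
  · intro v
    have h1 : ∑ w, ad G v w * (y w / y u) = (∑ w ∈ G.neighborFinset v, y w) / y u := by
      rw [Finset.sum_div]
      have h2 : ∑ w ∈ G.neighborFinset v, y w / y u =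
          ∑ w, (if G.Adj v w then y w / y u else 0) := by
        rw [← Finset.sum_filter]
        apply Finset.sum_congr _ (fun _ _ => rfl)
        ext u; simp
      rw [h2]
      apply Finset.sum_congr rfl
      intro w _
      unfold ad
      split_ifs <;> simp
    rw [h1, hev v, mul_div_assoc]

variable {G} {lam : ℝ} {x : V → ℝ} {u : V}

/-- the vertices that are neither `u` nor adjacent to `u` -/
def far (G : SimpleGraph V) [DecidableRel G.Adj] (u : V) : Finset V :=
  univ.filter (fun w => w ≠ u ∧ ¬ G.Adj u w)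

/-- the neighbours of `u` outside `S` -/
def rst (G : SimpleGraph V) [DecidableRel G.Adj] (u : V) (S : Finset V) : Finset V :=
  univ.filter (fun w => G.Adj u w ∧ w ∉ S)

lemma mem_far (w : V) : w ∈ far G u ↔ w ≠ u ∧ ¬ G.Adj u w := by simp [far]

omit [DecidableEq V] in
lemma mem_rst [DecidableEq V] (S : Finset V) (w : V) : w ∈ rst G u S ↔ G.Adj u w ∧ w ∉ S := by
  simp [rst]

lemma split (S : Finset V) (hS : ∀ s ∈ S, G.Adj u s) (f : V → ℝ) :
    ∑ v, f v = f u + ∑ v ∈ S, f v + ∑ v ∈ rst G u S, f v + ∑ v ∈ far G u, f v := by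
  have h1 : (univ : Finset V) = ({u} ∪ (S ∪ rst G u S)) ∪ far G u := by
    ext v
    simp only [mem_univ, mem_union, mem_singleton, mem_rst, mem_far, true_iff]
    by_cases h : v = u
    · left; left; exact h
    · by_cases h2 : G.Adj u v
      · by_cases h3 : v ∈ S
        · left; right; left; exact h3
        · left; right; right; exact ⟨h2, h3⟩
      · right; exact ⟨h, h2⟩
  have d1 : Disjoint S (rst G u S) := by
    rw [Finset.disjoint_left]
    intro a ha hb
    exact ((mem_rst _ _).1 hb).2 ha
  have d2 : Disjoint ({u} : Finset V) (S ∪ rst G u S) := by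
    rw [Finset.disjoint_left]
    intro a ha hb
    rw [mem_singleton] at ha
    subst ha
    rw [mem_union, mem_rst] at hb
    rcases hb with hb | hb
    · exact (hS _ hb).ne rfl
    · exact hb.1.ne rfl
  have d3 : Disjoint ({u} ∪ (S ∪ rst G u S)) (far G u) := by
    rw [Finset.disjoint_left]
    intro a ha hb
    rw [mem_far] at hb
    rw [mem_union, mem_union, mem_singleton, mem_rst] at ha
    rcases ha with ha | ha | ha
    · exact hb.1 ha
    · exact hb.2 (hS _ ha)
    · exact hb.2 ha.1
  rw [h1, Finset.sum_union d3, Finset.sum_union d2, Finset.sum_union d1, Finset.sum_singleton]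
  ring

lemma sum_U (h : Sit G lam x u) (S : Finset V) (hS : ∀ s ∈ S, G.Adj u s) :
    ∑ v ∈ S, x v + ∑ v ∈ rst G u S, x v = lam := by
  have h1 := h.ev u
  rw [h.xu, mul_one, split S hS (fun w => ad G u w * x w)] at h1
  have h2 : ∑ v ∈ S, ad G u v * x v = ∑ v ∈ S, x v :=
    Finset.sum_congr rfl (fun v hv => by rw [ad_of G _ _ (hS v hv), one_mul])
  have h3 : ∑ v ∈ rst G u S, ad G u v * x v = ∑ v ∈ rst G u S, x v :=
    Finset.sum_congr rfl (fun v hv => by rw [ad_of G _ _ ((mem_rst _ _).1 hv).1, one_mul])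
  have h4 : ∑ v ∈ far G u, ad G u v * x v = 0 :=
    Finset.sum_eq_zero (fun v hv => by rw [ad_not G _ _ ((mem_far _).1 hv).2, zero_mul])
  rw [h2, h3, h4, ad_self] at h1
  linarith

/-- edges between two sets (ordered count) -/
noncomputable def EE (G : SimpleGraph V) [DecidableRel G.Adj] (A B : Finset V) : ℝ :=
  ∑ v ∈ A, ∑ w ∈ B, ad G v w

/-- weighted edges between two sets -/
noncomputable def XX (G : SimpleGraph V) [DecidableRel G.Adj] (x : V → ℝ) (A B : Finset V) : ℝ :=
  ∑ v ∈ A, ∑ w ∈ B, ad G v w * x w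

lemma EE_comm (A B : Finset V) : EE G A B = EE G B A := by
  unfold EE
  rw [Finset.sum_comm]
  exact Finset.sum_congr rfl (fun v _ => Finset.sum_congr rfl (fun w _ => ad_symm G _ _))

lemma EE_split_right (S : Finset V) (hS : ∀ s ∈ S, G.Adj u s) (A : Finset V) :
    EE G A univ = EE G A {u} + EE G A S + EE G A (rst G u S) + EE G A (far G u) := by
  unfold EE
  rw [← Finset.sum_add_distrib, ← Finset.sum_add_distrib, ← Finset.sum_add_distrib]
  apply Finset.sum_congr rfl
  intro v _
  rw [split S hS (fun w => ad G v w), Finset.sum_singleton]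

lemma XX_split_right (S : Finset V) (hS : ∀ s ∈ S, G.Adj u s) (A : Finset V) :
    XX G x A univ = XX G x A {u} + XX G x A S + XX G x A (rst G u S) + XX G x A (far G u) := by
  unfold XX
  rw [← Finset.sum_add_distrib, ← Finset.sum_add_distrib, ← Finset.sum_add_distrib]
  apply Finset.sum_congr rfl
  intro v _
  rw [split S hS (fun w => ad G v w * x w), Finset.sum_singleton]

lemma EE_univ (S : Finset V) (hS : ∀ s ∈ S, G.Adj u s) :
    EE G univ univ = EE G {u} univ + EE G S univ + EE G (rst G u S) univ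
      + EE G (far G u) univ := by
  unfold EE
  rw [split S hS (fun v => ∑ w, ad G v w), Finset.sum_singleton]

lemma EE_u (A : Finset V) (hA : ∀ a ∈ A, G.Adj u a) : EE G A {u} = A.card := by
  unfold EE
  simp only [Finset.sum_singleton]
  rw [Finset.sum_congr rfl (fun v hv => ad_of G v u (hA v hv).symm)]
  simp

lemma EE_u' : EE G (far G u) {u} = 0 := by
  unfold EE
  simp only [Finset.sum_singleton]
  exact Finset.sum_eq_zero (fun v hv => ad_not G _ _ (fun h => ((mem_far _).1 hv).2 h.symm))

lemma XX_u (h : Sit G lam x u) (A : Finset V) (hA : ∀ a ∈ A, G.Adj u a) :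
    XX G x A {u} = A.card := by
  unfold XX
  simp only [Finset.sum_singleton, h.xu, mul_one]
  rw [Finset.sum_congr rfl (fun v hv => ad_of G v u (hA v hv).symm)]
  simp

lemma XX_univ (h : Sit G lam x u) (A : Finset V) : XX G x A univ = lam * ∑ v ∈ A, x v := by
  unfold XX
  rw [Finset.mul_sum]
  exact Finset.sum_congr rfl (fun v _ => h.ev v)

lemma rst_adj (S : Finset V) : ∀ a ∈ rst G u S, G.Adj u a := fun _ ha => ((mem_rst _ _).1 ha).1

/-- nonadjacent pairs of `S × T`, weighted by the entry of the second vertex -/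
noncomputable def q1 (G : SimpleGraph V) [DecidableRel G.Adj] (x : V → ℝ) (A B : Finset V) : ℝ :=
  ∑ s ∈ A, ∑ t ∈ B, (1 - ad G s t) * x t

/-- edges of `A × B`, weighted by one minus the entry of the first vertex -/
noncomputable def q2 (G : SimpleGraph V) [DecidableRel G.Adj] (x : V → ℝ) (A B : Finset V) : ℝ :=
  ∑ s ∈ A, ∑ t ∈ B, ad G s t * (1 - x s)

lemma q1_eq (A B : Finset V) : q1 G x A B = A.card * ∑ t ∈ B, x t - XX G x A B := by
  unfold q1 XX
  rw [← nsmul_eq_mul, ← Finset.sum_const, ← Finset.sum_sub_distrib]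
  apply Finset.sum_congr rfl
  intro v _
  rw [← Finset.sum_sub_distrib]
  apply Finset.sum_congr rfl
  intro w _
  ring

lemma q2_eq (A B : Finset V) : q2 G x A B = EE G A B - XX G x B A := by
  unfold q2 EE XX
  rw [Finset.sum_comm (s := B) (t := A), ← Finset.sum_sub_distrib]
  apply Finset.sum_congr rfl
  intro v _
  rw [← Finset.sum_sub_distrib]
  apply Finset.sum_congr rfl
  intro w _
  rw [ad_symm G w v]
  ring

/-- the basic identity -/
lemma star (h : Sit G lam x u) (S : Finset V) (hS : ∀ s ∈ S, G.Adj u s) :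
    lam ^ 2 - EE G univ univ / 2 =
      (XX G x S S - EE G S S / 2) + S.card * (lam - ∑ s ∈ S, x s)
      - q1 G x S (rst G u S) - q2 G x S (rst G u S)
      + (XX G x (rst G u S) (rst G u S) - EE G (rst G u S) (rst G u S) / 2)
      - (q2 G x (far G u) S + q2 G x (far G u) (rst G u S)) - EE G (far G u) (far G u) / 2 := by
  have hs := sum_U h S hS
  have h1 := XX_univ h S
  have h2 := XX_univ h (rst G u S)
  have h3 := XX_split_right (x := x) S hS S
  have h4 := XX_split_right (x := x) S hS (rst G u S)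
  have h5 := XX_u h S hS
  have h6 := XX_u h (rst G u S) (rst_adj S)
  have h7 := EE_univ (G := G) S hS
  have h8 := EE_split_right (G := G) S hS {u}
  have h9 := EE_split_right (G := G) S hS S
  have h10 := EE_split_right (G := G) S hS (rst G u S)
  have h11 := EE_split_right (G := G) S hS (far G u)
  have h12 := EE_u S hS
  have h13 := EE_u (rst G u S) (rst_adj S)
  have h14 : EE G (far G u) {u} = 0 := EE_u'
  have h15 := EE_comm (G := G) {u} S
  have h16 := EE_comm (G := G) {u} (rst G u S)
  have h17 := EE_comm (G := G) {u} (far G u)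
  have h18 := EE_comm (G := G) (rst G u S) S
  have h19 := EE_comm (G := G) S (far G u)
  have h20 := EE_comm (G := G) (rst G u S) (far G u)
  have h21 : EE G {u} {u} = 0 := by unfold EE; simp [ad_self]
  have h22 := q1_eq (G := G) (x := x) S (rst G u S)
  have h23 := q2_eq (G := G) (x := x) S (rst G u S)
  have h24 := q2_eq (G := G) (x := x) (far G u) S
  have h25 := q2_eq (G := G) (x := x) (far G u) (rst G u S)
  have h26 : lam ^ 2 = lam * ∑ v ∈ S, x v + lam * ∑ v ∈ rst G u S, x v := by
    rw [← mul_add, hs]; ring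
  have h27 : ∑ v ∈ rst G u S, x v = lam - ∑ v ∈ S, x v := by linarith
  rw [h22, h23, h24, h25, h27]
  linarith

end Pool.Agent.H35.Wh.FrB
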