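import Mathlib
import Pool.Agent.H35.Wh.FrB

set_option autoImplicit false

open Finset

namespace Pool.Agent.H35.Wh.Core

open Pool.Agent.H35.Wh.FrB

variable {V : Type*} [Fintype V] [DecidableEq V] {G : SimpleGraph V} [DecidableRel G.Adj]
variable {lam : ℝ} {x : V → ℝ} {u : V}

/-- number of neighbours in `A` -/
noncomputable def dg (G : SimpleGraph V) [DecidableRel G.Adj] (A : Finset V) (v : V) : ℝ :=
  ∑ w ∈ A, ad G v w

lemma dg_nonneg (A : Finset V) (v : V) : 0 ≤ dg G A v :=
  Finset.sum_nonneg (fun _ _ => ad_nonneg G _ _)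

lemma EE_eq (A B : Finset V) : EE G A B = ∑ v ∈ A, dg G B v := rfl

lemma EE_nonneg (A B : Finset V) : 0 ≤ EE G A B :=
  Finset.sum_nonneg (fun _ _ => dg_nonneg _ _)

lemma dg_le_EE (A B : Finset V) (v : V) (hv : v ∈ A) : dg G B v ≤ EE G A B :=
  Finset.single_le_sum (f := fun v => dg G B v) (fun _ _ => dg_nonneg _ _) hv

lemma XX_self (A : Finset V) : XX G x A A = ∑ v ∈ A, dg G A v * x v := by
  unfold XX dg
  rw [Finset.sum_comm]
  apply Finset.sum_congr rfl
  intro v _
  rw [Finset.sum_mul]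
  exact Finset.sum_congr rfl (fun w _ => by rw [ad_symm])

lemma q2_dg (A B : Finset V) : q2 G x A B = ∑ s ∈ A, dg G B s * (1 - x s) := by
  unfold q2 dg
  apply Finset.sum_congr rfl
  intro v _
  rw [Finset.sum_mul]

lemma dg_self_le (A : Finset V) (v : V) (hv : v ∈ A) : dg G A v ≤ A.card - 1 := by
  unfold dg
  rw [← Finset.add_sum_erase A _ hv, ad_self, zero_add]
  calc ∑ w ∈ A.erase v, ad G v w ≤ ∑ w ∈ A.erase v, (1:ℝ) :=
        Finset.sum_le_sum (fun _ _ => ad_le_one G _ _)
    _ = ((A.erase v).card : ℝ) := by simp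
    _ = A.card - 1 := by
        rw [Finset.card_erase_of_mem hv, Nat.cast_sub]
        · simp
        · exact Finset.card_pos.2 ⟨v, hv⟩

lemma q1_nonneg (h : Sit G lam x u) (A B : Finset V) : 0 ≤ q1 G x A B := by
  unfold q1
  exact Finset.sum_nonneg (fun s _ => Finset.sum_nonneg (fun t _ =>
    mul_nonneg (by have := ad_le_one G s t; linarith) (h.x0 t)))

lemma q2_nonneg (h : Sit G lam x u) (A B : Finset V) : 0 ≤ q2 G x A B := by
  unfold q2
  exact Finset.sum_nonneg (fun s _ => Finset.sum_nonneg (fun t _ =>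
    mul_nonneg (ad_nonneg G _ _) (by have := h.x1 s; linarith)))

/-- the refined inequality -/
lemma refined (h : Sit G lam x u) (S : Finset V) (hS : ∀ s ∈ S, G.Adj u s) (K c0 : ℝ)
    (hcard : (S.card : ℝ) = K - 1)
    (hlow : EE G univ univ / 2 - K * (K - 1) / 2 - c0 ≤ lam ^ 2 - (K - 1) * lam)
    (hdeg : ∀ s ∈ S, 2 * K - 2 ≤ dg G (rst G u S) s + 2 * dg G S s) :
    ((K - 1) * (K - 2) - EE G S S) / 2 + q1 G x S (rst G u S) + q2 G x S (rst G u S) / 2
      + (q2 G x (far G u) S + q2 G x (far G u) (rst G u S)) + EE G (far G u) (far G u) / 2 ≤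
    c0 + (XX G x (rst G u S) (rst G u S) - EE G (rst G u S) (rst G u S) / 2) := by
  have hst := star h S hS
  have h1 : XX G x S S - (K - 1) * ∑ s ∈ S, x s ≤
      EE G S S - (K - 1) ^ 2 + q2 G x S (rst G u S) / 2 := by
    have h2 : (K - 1) ^ 2 = ∑ s ∈ S, (K - 1) := by
      rw [Finset.sum_const, nsmul_eq_mul, hcard]; ring
    rw [XX_self, q2_dg, EE_eq, h2, Finset.mul_sum, ← Finset.sum_sub_distrib,
      ← Finset.sum_sub_distrib, Finset.sum_div, ← Finset.sum_add_distrib]
    apply Finset.sum_le_sum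
    intro s hs
    have h3 := hdeg s hs
    have h4 := h.x1 s
    nlinarith
  rw [hcard] at hst
  nlinarith


lemma sum_split_R (S : Finset V) (hS : ∀ s ∈ S, G.Adj u s) (f : V → ℝ) :
    ∑ v ∈ (insert u S)ᶜ, f v = ∑ v ∈ rst G u S, f v + ∑ v ∈ far G u, f v := by
  have h1 := split S hS f
  have h2 := Finset.sum_add_sum_compl (insert u S) f
  have h3 : u ∉ S := fun hu => (hS u hu).ne rfl
  rw [Finset.sum_insert h3] at h2
  linarith

/-- the analysis when all vertices outside `S ∪ {u}` are light -/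
lemma core_light (h : Sit G lam x u) (S : Finset V) (hS : ∀ s ∈ S, G.Adj u s) (K c0 : ℝ)
    (hK : 2 ≤ K) (hcard : (S.card : ℝ) = K - 1) (hlam : 100 * K ^ 4 ≤ lam)
    (hc0 : 0 ≤ c0) (hc1 : c0 ≤ K / 4)
    (hlow : EE G univ univ / 2 - K * (K - 1) / 2 - c0 ≤ lam ^ 2 - (K - 1) * lam)
    (hR : ((K - 1) * (K - 2) - EE G S S) / 2 + q1 G x S (rst G u S) + q2 G x S (rst G u S) / 2
      + (q2 G x (far G u) S + q2 G x (far G u) (rst G u S)) + EE G (far G u) (far G u) / 2 ≤
      c0 + (XX G x (rst G u S) (rst G u S) - EE G (rst G u S) (rst G u S) / 2))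
    (hlight : ∀ r, r ≠ u → r ∉ S → x r ≤ 1 / 4) :
    (∀ s ∈ S, ∀ s' ∈ S, s ≠ s' → G.Adj s s') ∧
    ∑ r ∈ (insert u S)ᶜ, dg G (insert u S) r * (K - dg G (insert u S) r)
      + K * (EE G (insert u S)ᶜ (insert u S)ᶜ / 2) < c0 * K + 1 := by
  -- numerical facts
  have hl1 : 800 * K ≤ lam := by
    have : K * 8 ≤ K ^ 4 := by nlinarith [sq_nonneg K, mul_nonneg (by linarith : (0:ℝ) ≤ K - 2) (by positivity : (0:ℝ) ≤ K ^ 3), mul_nonneg (by linarith : (0:ℝ) ≤ K - 2) (by positivity : (0:ℝ) ≤ K ^ 2), mul_nonneg (by linarith : (0:ℝ) ≤ K - 2) (by linarith : (0:ℝ) ≤ K)]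
    linarith
  have hl2 : 400 * K ^ 2 ≤ lam := by
    have : K ^ 2 * 4 ≤ K ^ 4 := by nlinarith [mul_nonneg (by linarith : (0:ℝ) ≤ K - 2) (by positivity : (0:ℝ) ≤ K ^ 3), mul_nonneg (by linarith : (0:ℝ) ≤ K - 2) (by positivity : (0:ℝ) ≤ K ^ 2)]
    linarith
  have hl3 : 200 * K ^ 3 ≤ lam := by
    have : K ^ 3 * 2 ≤ K ^ 4 := by nlinarith [mul_nonneg (by linarith : (0:ℝ) ≤ K - 2) (by positivity : (0:ℝ) ≤ K ^ 3)]
    linarith
  have hlampos : 0 < lam := by linarith
  have hK4 : 4 ≤ K ^ 2 := by nlinarith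
  -- names
  set T := rst G u S with hT
  set W := far G u with hW
  have hxT : ∀ t ∈ T, x t ≤ 1 / 4 := by
    intro t ht
    rw [hT, mem_rst] at ht
    exact hlight t ht.1.ne' ht.2
  have hxW : ∀ w ∈ W, x w ≤ 1 / 4 := by
    intro w hw
    rw [hW, mem_far] at hw
    exact hlight w hw.1 (fun hs => hw.2 (hS w hs))
  have hA2 : XX G x T T - EE G T T / 2 ≤ - (1/4) * EE G T T := by
    rw [XX_self, EE_eq, Finset.sum_div, ← Finset.sum_sub_distrib, Finset.mul_sum]
    apply Finset.sum_le_sum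
    intro t ht
    have h1 := mul_le_mul_of_nonneg_left (hxT t ht) (dg_nonneg (G := G) T t)
    linarith
  have hq3 : ∀ B : Finset V, (3/4) * EE G W B ≤ q2 G x W B := by
    intro B
    rw [q2_dg, EE_eq, Finset.mul_sum]
    apply Finset.sum_le_sum
    intro w hw
    have h1 := mul_le_mul_of_nonneg_left (hxW w hw) (dg_nonneg (G := G) B w)
    linarith
  have hd1 : 0 ≤ (K - 1) * (K - 2) - EE G S S := by
    have h1 : EE G S S ≤ ∑ s ∈ S, (K - 2) := by
      rw [EE_eq]
      apply Finset.sum_le_sum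
      intro s hs
      have := dg_self_le (G := G) S s hs
      linarith
    rw [Finset.sum_const, nsmul_eq_mul, hcard] at h1
    linarith
  have hq1 := q1_nonneg h S T
  have hq2 := q2_nonneg h S T
  have h3a := hq3 S
  have h3b := hq3 T
  have hWS := EE_nonneg (G := G) W S
  have hWT := EE_nonneg (G := G) W T
  have hWW := EE_nonneg (G := G) W W
  have hTT := EE_nonneg (G := G) T T
  have hY : EE G W S + EE G W T + EE G W W ≤ K / 2 := by linarith
  have hTT2 : EE G T T ≤ K := by linarith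
  have hq1' : q1 G x S T ≤ K / 4 := by linarith
  have hq2' : q2 G x S T ≤ K / 2 := by linarith
  -- rows
  have hrow : ∀ v, lam * x v = ad G v u + ∑ s ∈ S, ad G v s * x s + ∑ t ∈ T, ad G v t * x t
      + ∑ w ∈ W, ad G v w * x w := by
    intro v
    rw [← h.ev v, split S hS (fun w => ad G v w * x w), h.xu, mul_one]
  have hsum := sum_U h S hS
  rw [← hT] at hsum
  have hle : ∀ (A : Finset V) (v : V), ∑ w ∈ A, ad G v w * x w ≤ dg G A v := by
    intro A v
    apply Finset.sum_le_sum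
    intro w _
    exact mul_le_of_le_one_right (ad_nonneg G v w) (h.x1 w)
  have hge : ∀ (A : Finset V) (v : V), 0 ≤ ∑ w ∈ A, ad G v w * x w := by
    intro A v
    exact Finset.sum_nonneg (fun w _ => mul_nonneg (ad_nonneg G v w) (h.x0 w))
  have hdgcard : ∀ (A : Finset V) (v : V), dg G A v ≤ A.card := by
    intro A v
    unfold dg
    calc ∑ w ∈ A, ad G v w ≤ ∑ w ∈ A, (1:ℝ) := Finset.sum_le_sum (fun _ _ => ad_le_one G _ _)
      _ = A.card := by simp
  -- small entries
  set ρ : ℝ := 3 * K / lam with hρ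
  have hρ0 : 0 < ρ := by rw [hρ]; positivity
  have hρl : lam * ρ = 3 * K := by rw [hρ]; field_simp
  have hxWρ : ∀ w ∈ W, x w ≤ ρ := by
    intro w hw
    have h1 := hrow w
    have h2 : ad G w u = 0 := ad_not G _ _ (fun h' => ((mem_far _).1 hw).2 h'.symm)
    have h3 := hle S w
    have h4 := hle T w
    have h5 := hle W w
    have h6 := dg_le_EE (G := G) W S w hw
    have h7 := dg_le_EE (G := G) W T w hw
    have h8 := dg_le_EE (G := G) W W w hw
    have h9 : lam * x w ≤ lam * ρ := by rw [hρl]; linarith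
    exact le_of_mul_le_mul_left h9 hlampos
  have hxTρ : ∀ t ∈ T, x t ≤ ρ := by
    intro t ht
    have h1 := hrow t
    have h2 : ad G t u ≤ 1 := ad_le_one G _ _
    have h3 := hle S t
    have h4 := hle T t
    have h5 := hle W t
    have h6 := hdgcard S t
    have h7 := dg_le_EE (G := G) T T t ht
    have h8 := dg_le_EE (G := G) T W t ht
    rw [EE_comm T W] at h8
    have h9 : lam * x t ≤ lam * ρ := by rw [hρl]; linarith
    exact le_of_mul_le_mul_left h9 hlampos
  -- entries of `S`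
  have hSx : ∑ s ∈ S, x s ≤ K - 1 := by
    calc ∑ s ∈ S, x s ≤ ∑ s ∈ S, (1:ℝ) := Finset.sum_le_sum (fun s _ => h.x1 s)
      _ = K - 1 := by rw [Finset.sum_const, nsmul_eq_mul, mul_one, hcard]
  have heps : ∀ s ∈ S, lam ^ 2 * (1 - x s) ≤ 3 * K ^ 2 := by
    intro s hs
    have h1 : ∑ t ∈ T, (1 - ad G s t) * x t ≤ q1 G x S T := by
      unfold q1
      exact Finset.single_le_sum (f := fun s => ∑ t ∈ T, (1 - ad G s t) * x t)
        (fun s _ => Finset.sum_nonneg (fun t _ =>
          mul_nonneg (by have := ad_le_one G s t; linarith) (h.x0 t))) hs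
    have h2 : ∑ t ∈ T, (1 - ad G s t) * x t = ∑ t ∈ T, x t - ∑ t ∈ T, ad G s t * x t := by
      rw [← Finset.sum_sub_distrib]
      exact Finset.sum_congr rfl (fun t _ => by ring)
    have h3 : lam / 2 ≤ ∑ t ∈ T, ad G s t * x t := by linarith
    have h4 : ∑ t ∈ T, ad G s t * x t ≤ dg G T s * ρ := by
      unfold dg
      rw [Finset.sum_mul]
      exact Finset.sum_le_sum (fun t ht =>
        mul_le_mul_of_nonneg_left (hxTρ t ht) (ad_nonneg G s t))
    have h5 : lam ^ 2 ≤ dg G T s * (6 * K) := by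
      have : lam * (lam / 2) ≤ lam * (dg G T s * ρ) :=
        mul_le_mul_of_nonneg_left (h3.trans h4) hlampos.le
      have h6 : lam * (dg G T s * ρ) = dg G T s * (3 * K) := by rw [← hρl]; ring
      rw [h6] at this
      linarith
    have h6 : dg G T s * (1 - x s) ≤ q2 G x S T := by
      rw [q2_dg]
      exact Finset.single_le_sum (f := fun s => dg G T s * (1 - x s))
        (fun s _ => mul_nonneg (dg_nonneg _ _) (by have := h.x1 s; linarith)) hs
    have h7 : 0 ≤ 1 - x s := by have := h.x1 s; linarith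
    calc lam ^ 2 * (1 - x s) ≤ dg G T s * (6 * K) * (1 - x s) :=
          mul_le_mul_of_nonneg_right h5 h7
      _ = dg G T s * (1 - x s) * (6 * K) := by ring
      _ ≤ K / 2 * (6 * K) := mul_le_mul_of_nonneg_right (h6.trans hq2') (by linarith)
      _ = 3 * K ^ 2 := by ring
  have heps1 : ∀ s ∈ S, lam * (1 - x s) ≤ 1 / 100 := by
    intro s hs
    have h1 := heps s hs
    have h2 : lam * (lam * (1 - x s)) ≤ lam * (1 / 100) := by linarith
    exact le_of_mul_le_mul_left h2 hlampos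
  have heps2 : ∀ s ∈ S, 99 / 100 ≤ x s := by
    intro s hs
    have h1 := heps1 s hs
    have h2 := h.x1 s
    have h3 : 1 * (1 - x s) ≤ lam * (1 - x s) :=
      mul_le_mul_of_nonneg_right (by linarith) (by linarith)
    linarith
  -- `S` is a clique
  have hclique : ∀ s ∈ S, ∀ s' ∈ S, s ≠ s' → G.Adj s s' := by
    intro s hs s' hs' hne
    by_contra hnadj
    have h1 := hrow s
    rw [ad_of G _ _ (hS s hs).symm] at h1
    have h2 : ∑ t ∈ T, ad G s t * x t ≤ ∑ t ∈ T, x t := by
      apply Finset.sum_le_sum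
      intro t _
      exact mul_le_of_le_one_left (h.x0 t) (ad_le_one G s t)
    have h3 : ∑ w ∈ W, ad G s w * x w ≤ 1 / 100 := by
      have h4 : ∑ w ∈ W, ad G s w * x w ≤ dg G W s * ρ := by
        unfold dg
        rw [Finset.sum_mul]
        exact Finset.sum_le_sum (fun t ht =>
          mul_le_mul_of_nonneg_left (hxWρ t ht) (ad_nonneg G s t))
      have h5 := dg_le_EE (G := G) S W s hs
      rw [EE_comm S W] at h5
      have h6 : dg G W s ≤ K / 2 := by linarith
      have h7 : dg G W s * ρ ≤ K / 2 * ρ := mul_le_mul_of_nonneg_right h6 hρ0.le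
      have h8 : K / 2 * ρ ≤ 1 / 100 := by
        rw [hρ, ← mul_div_assoc, div_le_iff₀ hlampos]
        linarith
      linarith
    have h4 : ∑ s'' ∈ S, ad G s s'' * x s'' ≤ ∑ s'' ∈ S, x s'' - x s - x s' := by
      have h5 : ∑ s'' ∈ S, x s'' - ∑ s'' ∈ S, ad G s s'' * x s'' =
          ∑ s'' ∈ S, (1 - ad G s s'') * x s'' := by
        rw [← Finset.sum_sub_distrib]
        exact Finset.sum_congr rfl (fun t _ => by ring)
      have h6 : x s + x s' ≤ ∑ s'' ∈ S, (1 - ad G s s'') * x s'' := by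
        rw [← Finset.add_sum_erase S _ hs, ad_self]
        have h7 : s' ∈ S.erase s := Finset.mem_erase.2 ⟨hne.symm, hs'⟩
        have h8 : (1 - ad G s s') * x s' ≤ ∑ s'' ∈ S.erase s, (1 - ad G s s'') * x s'' :=
          Finset.single_le_sum (f := fun s'' => (1 - ad G s s'') * x s'')
            (fun t _ => mul_nonneg (by have := ad_le_one G s t; linarith) (h.x0 t)) h7
        rw [ad_not G _ _ hnadj] at h8
        linarith
      linarith
    have h5 := heps1 s hs
    have h6 := heps2 s hs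
    have h7 := heps2 s' hs'
    linarith
  refine ⟨hclique, ?_⟩
  -- the final count
  set L := insert u S with hL
  have huS : u ∉ S := fun hu => (hS u hu).ne rfl
  have hLcard : (L.card : ℝ) = K := by
    rw [hL, Finset.card_insert_of_notMem huS]
    push_cast
    linarith
  have hLcl : ∀ a ∈ L, ∀ b ∈ L, a ≠ b → G.Adj a b := by
    intro a ha b hb hab
    rw [hL, Finset.mem_insert] at ha hb
    rcases ha with rfl | ha <;> rcases hb with rfl | hb
    · exact absurd rfl hab
    · exact hS b hb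
    · exact (hS a ha).symm
    · exact hclique a ha b hb hab
  have hxR : ∀ r ∈ Lᶜ, x r ≤ ρ := by
    intro r hr
    rw [Finset.mem_compl, hL, Finset.mem_insert, not_or] at hr
    by_cases hur : G.Adj u r
    · exact hxTρ r ((mem_rst _ _).2 ⟨hur, hr.2⟩)
    · exact hxWρ r ((mem_far _).2 ⟨hr.1, hur⟩)
  set y := ∑ a ∈ L, x a with hy
  have hyK : y ≤ K := by
    calc y ≤ ∑ a ∈ L, (1:ℝ) := Finset.sum_le_sum (fun s _ => h.x1 s)
      _ = K := by rw [Finset.sum_const, nsmul_eq_mul, mul_one, hLcard]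
  set ε : ℝ := 3 * K ^ 2 / lam ^ 2 with hε
  have hε0 : 0 ≤ ε := by positivity
  have hxL : ∀ a ∈ L, 1 - ε ≤ x a := by
    intro a ha
    rw [hL, Finset.mem_insert] at ha
    rcases ha with rfl | ha
    · rw [h.xu]; linarith
    · have h1 := heps a ha
      have h2 : 1 - x a ≤ ε := by
        rw [hε, le_div_iff₀ (by positivity)]
        linarith
      linarith
  have hyge : K * (1 - ε) ≤ y := by
    calc K * (1 - ε) = ∑ a ∈ L, (1 - ε) := by
          rw [Finset.sum_const, nsmul_eq_mul, hLcard]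
      _ ≤ y := Finset.sum_le_sum hxL
  have hy0 : 0 ≤ y := Finset.sum_nonneg (fun a _ => h.x0 a)
  -- summing the rows of `L`
  have hrowL : ∀ v, lam * x v = ∑ a ∈ L, ad G v a * x a + ∑ r ∈ Lᶜ, ad G v r * x r := by
    intro v
    rw [← h.ev v, Finset.sum_add_sum_compl]
  have hsumL : (lam - (K - 1)) * y = ∑ r ∈ Lᶜ, dg G L r * x r := by
    have h1 : lam * y = ∑ a ∈ L, (y - x a) + ∑ a ∈ L, ∑ r ∈ Lᶜ, ad G a r * x r := by
      rw [hy, Finset.mul_sum, ← Finset.sum_add_distrib]
      apply Finset.sum_congr rfl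
      intro a ha
      rw [hrowL a]
      congr 1
      have e1 := Finset.add_sum_erase L (fun b => ad G a b * x b) ha
      have e2 := Finset.add_sum_erase L x ha
      have e3 : ∑ b ∈ L.erase a, ad G a b * x b = ∑ b ∈ L.erase a, x b := by
        apply Finset.sum_congr rfl
        intro b hb
        rw [Finset.mem_erase] at hb
        rw [ad_of G _ _ (hLcl a ha b hb.2 hb.1.symm), one_mul]
      simp only [ad_self, zero_mul, zero_add] at e1
      rw [← e1, e3]
      linarith
    have h2 : ∑ a ∈ L, (y - x a) = (K - 1) * y := by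
      rw [Finset.sum_sub_distrib, Finset.sum_const, nsmul_eq_mul, hLcard]
      ring
    have h3 : ∑ a ∈ L, ∑ r ∈ Lᶜ, ad G a r * x r = ∑ r ∈ Lᶜ, dg G L r * x r := by
      rw [Finset.sum_comm]
      apply Finset.sum_congr rfl
      intro r _
      unfold dg
      rw [Finset.sum_mul]
      exact Finset.sum_congr rfl (fun a _ => by rw [ad_symm])
    rw [h2, h3] at h1
    linarith
  have hjK : ∀ r, dg G L r ≤ K := fun r => (hdgcard L r).trans hLcard.le
  have hrowR : ∀ r, lam * x r ≤ y - (K - dg G L r) * (1 - ε) + ρ * dg G Lᶜ r := by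
    intro r
    rw [hrowL r]
    have h1 : y - ∑ a ∈ L, ad G r a * x a = ∑ a ∈ L, (1 - ad G r a) * x a := by
      rw [hy, ← Finset.sum_sub_distrib]
      exact Finset.sum_congr rfl (fun t _ => by ring)
    have h2 : (K - dg G L r) * (1 - ε) ≤ ∑ a ∈ L, (1 - ad G r a) * x a := by
      have h3 : K - dg G L r = ∑ a ∈ L, (1 - ad G r a) := by
        rw [Finset.sum_sub_distrib, Finset.sum_const, nsmul_eq_mul, mul_one, hLcard]
        rfl
      rw [h3, Finset.sum_mul]
      exact Finset.sum_le_sum (fun a ha => mul_le_mul_of_nonneg_left (hxL a ha)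
        (by have := ad_le_one G r a; linarith))
    have h3 : ∑ r' ∈ Lᶜ, ad G r r' * x r' ≤ ρ * dg G Lᶜ r := by
      unfold dg
      rw [Finset.mul_sum]
      apply Finset.sum_le_sum
      intro r' hr'
      have h4 := mul_le_mul_of_nonneg_left (hxR r' hr') (ad_nonneg G r r')
      linarith
    linarith
  have hm : EE G univ univ / 2 = K * (K - 1) / 2 + ∑ r ∈ Lᶜ, dg G L r + EE G Lᶜ Lᶜ / 2 := by
    have hsp : ∀ A : Finset V, EE G A univ = EE G A L + EE G A Lᶜ := by
      intro A
      unfold EE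
      rw [← Finset.sum_add_distrib]
      exact Finset.sum_congr rfl (fun v _ => (Finset.sum_add_sum_compl L _).symm)
    have h1 : EE G univ univ = EE G L univ + EE G Lᶜ univ := by
      unfold EE
      rw [Finset.sum_add_sum_compl L]
    have h2 := hsp L
    have h3 := hsp Lᶜ
    have h4 := EE_comm (G := G) L Lᶜ
    have h5 : EE G Lᶜ L = ∑ r ∈ Lᶜ, dg G L r := rfl
    have h6 : EE G L L = K * (K - 1) := by
      rw [EE_eq]
      have : ∀ a ∈ L, dg G L a = K - 1 := by
        intro a ha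
        unfold dg
        rw [← Finset.add_sum_erase L _ ha, ad_self, zero_add,
          Finset.sum_congr rfl (fun b hb => ad_of G a b (hLcl a ha b (Finset.mem_erase.1 hb).2
            (Finset.mem_erase.1 hb).1.symm)), Finset.sum_const, nsmul_eq_mul, mul_one,
          Finset.card_erase_of_mem ha, Nat.cast_sub (Finset.card_pos.2 ⟨a, ha⟩), hLcard]
        simp
      rw [Finset.sum_congr rfl this, Finset.sum_const, nsmul_eq_mul, hLcard]
    linarith
  set J := ∑ r ∈ Lᶜ, dg G L r with hJ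
  set e := EE G Lᶜ Lᶜ / 2 with he
  set Q := ∑ r ∈ Lᶜ, dg G L r * (K - dg G L r) with hQ
  have he0 : 0 ≤ e := by
    have := EE_nonneg (G := G) Lᶜ Lᶜ
    linarith
  have hQ0 : 0 ≤ Q := Finset.sum_nonneg (fun r _ =>
    mul_nonneg (dg_nonneg _ _) (by have := hjK r; linarith))
  have hkey : (lam ^ 2 - (K - 1) * lam) * y ≤ y * J - (1 - ε) * Q + 2 * K * ρ * e := by
    calc (lam ^ 2 - (K - 1) * lam) * y = lam * ((lam - (K - 1)) * y) := by ring
      _ = ∑ r ∈ Lᶜ, dg G L r * (lam * x r) := by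
          rw [hsumL, Finset.mul_sum]
          exact Finset.sum_congr rfl (fun r _ => by ring)
      _ ≤ ∑ r ∈ Lᶜ, (y * dg G L r - (1 - ε) * (dg G L r * (K - dg G L r))
            + K * ρ * dg G Lᶜ r) := by
          apply Finset.sum_le_sum
          intro r _
          have h1 := hrowR r
          have h2 := dg_nonneg (G := G) L r
          have h3 := hjK r
          have h4 := dg_nonneg (G := G) Lᶜ r
          have h5 : dg G L r * (lam * x r) ≤
              dg G L r * (y - (K - dg G L r) * (1 - ε) + ρ * dg G Lᶜ r) :=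
            mul_le_mul_of_nonneg_left h1 h2
          have h6 : dg G L r * (ρ * dg G Lᶜ r) ≤ K * (ρ * dg G Lᶜ r) :=
            mul_le_mul_of_nonneg_right h3 (mul_nonneg hρ0.le h4)
          linarith
      _ = y * J - (1 - ε) * Q + 2 * K * ρ * e := by
          rw [Finset.sum_add_distrib, Finset.sum_sub_distrib, ← Finset.mul_sum,
            ← Finset.mul_sum, ← Finset.mul_sum, he, EE_eq]
          ring
  have hlow2 : (J + e - c0) * y ≤ (lam ^ 2 - (K - 1) * lam) * y := by
    apply mul_le_mul_of_nonneg_right _ hy0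
    linarith
  have h1 : (1 - ε) * Q + e * y ≤ c0 * y + 2 * K * ρ * e := by linarith
  have h2 : e * (K * (1 - ε)) ≤ e * y := mul_le_mul_of_nonneg_left hyge he0
  have h3 : c0 * y ≤ c0 * K := mul_le_mul_of_nonneg_left hyK hc0
  have h4 : (1 - ε - 2 * ρ) * (Q + K * e) ≤ c0 * K := by
    have : 0 ≤ ρ * Q := mul_nonneg hρ0.le hQ0
    linarith
  by_contra hcon
  push Not at hcon
  have hρ1 : ρ * K ^ 2 ≤ 3 / 200 := by
    rw [hρ, div_mul_eq_mul_div, div_le_iff₀ hlampos]
    linarith
  have hρ2 : ρ ≤ 3 / 800 := by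
    rw [hρ, div_le_iff₀ hlampos]
    linarith
  have hε1 : ε * K ^ 2 ≤ 1 / 100 := by
    rw [hε, div_mul_eq_mul_div, div_le_iff₀ (by positivity)]
    have h5 : 3 * K ^ 4 ≤ lam := by
      have : 0 ≤ K ^ 4 := by positivity
      linarith
    have h6 : 100 ≤ lam := by linarith
    have h7 : 100 * lam ≤ lam * lam := mul_le_mul_of_nonneg_right h6 hlampos.le
    linarith
  have hε2 : ε ≤ 1 / 100 := by
    have h7 : ε * 1 ≤ ε * K ^ 2 := mul_le_mul_of_nonneg_left (by linarith) hε0
    linarith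
  have h5 : (1 - ε - 2 * ρ) * (c0 * K + 1) ≤ c0 * K :=
    (mul_le_mul_of_nonneg_left hcon (by linarith)).trans h4
  have h6 : c0 * K + 1 ≤ K ^ 2 / 2 := by
    have h8 := mul_le_mul_of_nonneg_right hc1 (by linarith : (0:ℝ) ≤ K)
    linarith
  have h7 : (ε + 2 * ρ) * (c0 * K + 1) ≤ (ε + 2 * ρ) * (K ^ 2 / 2) :=
    mul_le_mul_of_nonneg_left h6 (by linarith)
  linarith

end Pool.Agent.H35.Wh.Core
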