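import Mathlib
import Pool.Agent.H35.Wh.Spec

set_option autoImplicit false

namespace Pool.Agent.H35.Wh.Defs

/-- The join of two graphs: the disjoint union plus all edges between the two vertex sets. -/
def join {V W : Type*} (G : SimpleGraph V) (H : SimpleGraph W) : SimpleGraph (V ⊕ W) where
  Adj x y := match x, y with
    | Sum.inl a, Sum.inl b => G.Adj a b
    | Sum.inr a, Sum.inr b => H.Adj a b
    | Sum.inl _, Sum.inr _ => True
    | Sum.inr _, Sum.inl _ => True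
  symm := ⟨by
    rintro (a | a) (b | b) h
    · exact G.adj_symm h
    · trivial
    · trivial
    · exact H.adj_symm h⟩
  loopless := ⟨by
    rintro (a | a) h
    · exact h.ne rfl
    · exact h.ne rfl⟩

/-- The wheel `W_t = K_1 ∨ C_{t-1}` on `t` vertices. -/
def wheel (t : ℕ) : SimpleGraph (Fin 1 ⊕ Fin (t - 1)) :=
  join (⊤ : SimpleGraph (Fin 1)) (SimpleGraph.cycleGraph (t - 1))

/-- `K_k ∨ t K_1`. -/
def splitGraph (k t : ℕ) : SimpleGraph (Fin k ⊕ Fin t) :=
  join (⊤ : SimpleGraph (Fin k)) (⊥ : SimpleGraph (Fin t))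

/-- The graph `S^{1,l}_{n,k} = K_l ∨ ((K_{k-l} ∨ (n-k-1) K_1) ∪ K_1)`. -/
def S1 (n k l : ℕ) : SimpleGraph (Fin l ⊕ ((Fin (k - l) ⊕ Fin (n - k - 1)) ⊕ Fin 1)) :=
  join (⊤ : SimpleGraph (Fin l))
    ((join (⊤ : SimpleGraph (Fin (k - l))) (⊥ : SimpleGraph (Fin (n - k - 1)))).sum
      (⊥ : SimpleGraph (Fin 1)))

end Pool.Agent.H35.Wh.Defs
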