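import Mathlib
import Pool.Agent.H35.Wh.Defs

set_option autoImplicit false

open Finset

namespace Pool.Agent.H35.Wh.FrC

open Pool.Agent.H35.Wh.Defs

/-- graphs given by the same type pattern with the same class sizes are isomorphic -/
lemma iso_of_types {V W ι : Type*} [Fintype V] [Fintype W] [DecidableEq ι]
    (G : SimpleGraph V) (H : SimpleGraph W) (τ : V → ι) (σ : W → ι) (P : ι → ι → Prop)
    (hG : ∀ a b, G.Adj a b ↔ a ≠ b ∧ P (τ a) (τ b))
    (hH : ∀ a b, H.Adj a b ↔ a ≠ b ∧ P (σ a) (σ b))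
    (hcard : ∀ i, (univ.filter (fun a => τ a = i)).card = (univ.filter (fun b => σ b = i)).card) :
    Nonempty (G ≃g H) := by
  have e0 : ∀ i, Nonempty ({a // τ a = i} ≃ {b // σ b = i}) := by
    intro i
    apply Fintype.card_eq.1
    rw [Fintype.card_subtype, Fintype.card_subtype]
    exact hcard i
  let e := Equiv.ofFiberEquiv (fun i => Classical.choice (e0 i))
  have he : ∀ a, σ (e a) = τ a := fun a => Equiv.ofFiberEquiv_map _ a
  refine ⟨⟨e, ?_⟩⟩
  intro a b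
  rw [hG, hH, he, he]
  simp

/-- the pattern of `S1` -/
def pat (i j : Fin 4) : Prop := i = 0 ∨ j = 0 ∨ (i = 1 ∧ j ≠ 3) ∨ (j = 1 ∧ i ≠ 3)

def sig (n k l : ℕ) : Fin l ⊕ ((Fin (k - l) ⊕ Fin (n - k - 1)) ⊕ Fin 1) → Fin 4 :=
  Sum.elim (fun _ => 0) (Sum.elim (Sum.elim (fun _ => 1) (fun _ => 2)) (fun _ => 3))

lemma S1_pat (n k l : ℕ) (a b : Fin l ⊕ ((Fin (k - l) ⊕ Fin (n - k - 1)) ⊕ Fin 1)) :
    (S1 n k l).Adj a b ↔ a ≠ b ∧ pat (sig n k l a) (sig n k l b) := by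
  rcases a with a | ((a | a) | a) <;> rcases b with b | ((b | b) | b) <;>
    simp [S1, join, SimpleGraph.sum, pat, sig]

lemma sig_card (n k l : ℕ) (i : Fin 4) :
    (univ.filter (fun b => sig n k l b = i)).card = ![l, k - l, n - k - 1, 1] i := by
  rw [Finset.card_filter]
  simp only [Fintype.sum_sum_type, sig, Sum.elim_inl, Sum.elim_inr]
  fin_cases i <;> simp

/-- recognising `S1` -/
lemma iso_S1 {V : Type*} [Fintype V] [DecidableEq V] (G : SimpleGraph V) [DecidableRel G.Adj]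
    (n k l : ℕ) (L : Finset V) (r0 : V) (hr0 : r0 ∉ L)
    (hL : L.card = k) (hcl : ∀ a ∈ L, ∀ b ∈ L, a ≠ b → G.Adj a b)
    (hR : ∀ a, a ∉ L → ∀ b, b ∉ L → ¬ G.Adj a b)
    (hfull : ∀ r, r ∉ L → r ≠ r0 → ∀ a ∈ L, G.Adj a r)
    (hl : (L.filter (G.Adj r0)).card = l) (hn : Lᶜ.card = n - k - 1 + 1) :
    Nonempty (G ≃g S1 n k l) := by
  classical
  let τ : V → Fin 4 := fun v => if v ∈ L then (if G.Adj r0 v then 0 else 1)
    else (if v = r0 then 3 else 2)
  have t0 : ∀ v, v ∈ L → G.Adj r0 v → τ v = 0 := fun v h1 h2 => by simp only [τ, if_pos h1, if_pos h2]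
  have t1 : ∀ v, v ∈ L → ¬ G.Adj r0 v → τ v = 1 := fun v h1 h2 => by
    simp only [τ, if_pos h1, if_neg h2]
  have t2 : ∀ v, v ∉ L → v ≠ r0 → τ v = 2 := fun v h1 h2 => by simp only [τ, if_neg h1, if_neg h2]
  have t3 : τ r0 = 3 := by simp only [τ, if_neg hr0, if_true]
  have hcases : ∀ v, (v ∈ L ∧ G.Adj r0 v ∧ τ v = 0) ∨ (v ∈ L ∧ ¬ G.Adj r0 v ∧ τ v = 1) ∨
      (v ∉ L ∧ v ≠ r0 ∧ τ v = 2) ∨ (v ∉ L ∧ v = r0 ∧ τ v = 3) := by
    intro v
    by_cases h1 : v ∈ L
    · by_cases h2 : G.Adj r0 v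
      · exact Or.inl ⟨h1, h2, t0 v h1 h2⟩
      · exact Or.inr (Or.inl ⟨h1, h2, t1 v h1 h2⟩)
    · by_cases h2 : v = r0
      · exact Or.inr (Or.inr (Or.inr ⟨h1, h2, by rw [h2]; exact t3⟩))
      · exact Or.inr (Or.inr (Or.inl ⟨h1, h2, t2 v h1 h2⟩))
  have hG : ∀ a b, G.Adj a b ↔ a ≠ b ∧ pat (τ a) (τ b) := by
    intro a b
    rcases hcases a with ⟨a1, a2, a3⟩ | ⟨a1, a2, a3⟩ | ⟨a1, a2, a3⟩ | ⟨a1, a2, a3⟩ <;>
      rcases hcases b with ⟨b1, b2, b3⟩ | ⟨b1, b2, b3⟩ | ⟨b1, b2, b3⟩ | ⟨b1, b2, b3⟩ <;>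
      rw [a3, b3]
    · exact ⟨fun h => ⟨h.ne, by simp [pat]⟩, fun h => hcl a a1 b b1 h.1⟩
    · exact ⟨fun h => ⟨h.ne, by simp [pat]⟩, fun h => hcl a a1 b b1 h.1⟩
    · exact ⟨fun h => ⟨h.ne, by simp [pat]⟩, fun _ => hfull b b1 b2 a a1⟩
    · exact ⟨fun h => ⟨h.ne, by simp [pat]⟩, fun _ => b2 ▸ a2.symm⟩
    · exact ⟨fun h => ⟨h.ne, by simp [pat]⟩, fun h => hcl a a1 b b1 h.1⟩
    · exact ⟨fun h => ⟨h.ne, by simp [pat]⟩, fun h => hcl a a1 b b1 h.1⟩
    · exact ⟨fun h => ⟨h.ne, by simp [pat]⟩, fun _ => hfull b b1 b2 a a1⟩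
    · refine ⟨fun h => absurd (b2 ▸ h.symm) a2, fun h => ?_⟩
      simp [pat] at h
    · exact ⟨fun h => ⟨h.ne, by simp [pat]⟩, fun _ => (hfull a a1 a2 b b1).symm⟩
    · exact ⟨fun h => ⟨h.ne, by simp [pat]⟩, fun _ => (hfull a a1 a2 b b1).symm⟩
    · refine ⟨fun h => absurd h (hR a a1 b b1), fun h => ?_⟩
      simp [pat] at h
    · refine ⟨fun h => absurd h (hR a a1 b b1), fun h => ?_⟩
      simp [pat] at h
    · exact ⟨fun h => ⟨h.ne, by simp [pat]⟩, fun _ => a2 ▸ b2⟩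
    · refine ⟨fun h => absurd (a2 ▸ h) b2, fun h => ?_⟩
      simp [pat] at h
    · refine ⟨fun h => absurd h (hR a a1 b b1), fun h => ?_⟩
      simp [pat] at h
    · refine ⟨fun h => absurd h (hR a a1 b b1), fun h => ?_⟩
      simp [pat] at h
  apply iso_of_types G (S1 n k l) τ (sig n k l) pat hG (S1_pat n k l)
  intro i
  rw [sig_card]
  have hc0 : (univ.filter (fun a => τ a = 0)).card = l := by
    rw [← hl]
    congr 1
    ext v
    simp only [mem_filter, mem_univ, true_and]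
    rcases hcases v with ⟨a1, a2, a3⟩ | ⟨a1, a2, a3⟩ | ⟨a1, a2, a3⟩ | ⟨a1, a2, a3⟩ <;>
      rw [a3] <;> simp_all
  have hc1 : (univ.filter (fun a => τ a = 1)).card = k - l := by
    have h1 : univ.filter (fun a => τ a = 1) = L.filter (fun v => ¬ G.Adj r0 v) := by
      ext v
      simp only [mem_filter, mem_univ, true_and]
      rcases hcases v with ⟨a1, a2, a3⟩ | ⟨a1, a2, a3⟩ | ⟨a1, a2, a3⟩ | ⟨a1, a2, a3⟩ <;>
        rw [a3] <;> simp_all
    have h2 := Finset.card_filter_add_card_filter_not (s := L) (fun v => G.Adj r0 v)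
    have h3 : (L.filter (fun v => G.Adj r0 v)).card = l := by convert hl
    have h4 : (L.filter (fun v => ¬ G.Adj r0 v)).card = k - l := by
      rw [h3, hL] at h2
      omega
    rw [h1, ← h4]
  have hc3 : (univ.filter (fun a => τ a = 3)).card = 1 := by
    rw [Finset.card_eq_one]
    refine ⟨r0, ?_⟩
    ext v
    simp only [mem_filter, mem_univ, true_and, mem_singleton]
    rcases hcases v with ⟨a1, a2, a3⟩ | ⟨a1, a2, a3⟩ | ⟨a1, a2, a3⟩ | ⟨a1, a2, a3⟩
    · rw [a3]; exact ⟨fun h => absurd h (by decide), fun h => absurd (h ▸ a1) hr0⟩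
    · rw [a3]; exact ⟨fun h => absurd h (by decide), fun h => absurd (h ▸ a1) hr0⟩
    · rw [a3]; exact ⟨fun h => absurd h (by decide), fun h => absurd h a2⟩
    · rw [a3]; exact ⟨fun _ => a2, fun _ => rfl⟩
  have hc2 : (univ.filter (fun a => τ a = 2)).card = n - k - 1 := by
    have h1 : univ.filter (fun a => τ a = 2) = Lᶜ.erase r0 := by
      ext v
      simp only [mem_filter, mem_univ, true_and, mem_erase, mem_compl]
      rcases hcases v with ⟨a1, a2, a3⟩ | ⟨a1, a2, a3⟩ | ⟨a1, a2, a3⟩ | ⟨a1, a2, a3⟩ <;>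
        rw [a3] <;> simp_all
    rw [h1, Finset.card_erase_of_mem (by rw [mem_compl]; exact hr0), hn]
    rfl
  fin_cases i
  · exact hc0
  · exact hc1
  · exact hc2
  · exact hc3

/-- the function `n ↦ (n mod k) (k - n mod k)` -/
def gg (k n : ℕ) : ℕ := (n % k) * (k - n % k)

lemma gg_add (k a b : ℕ) (hk : 0 < k) :
    gg k (a + b) ≤ gg k a + gg k b ∧
    (a % k ≠ 0 → b % k ≠ 0 → gg k (a + b) < gg k a + gg k b) := by
  unfold gg
  have ha := Nat.mod_lt a hk
  have hb := Nat.mod_lt b hk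
  rw [Nat.add_mod]
  set p := a % k
  set q := b % k
  obtain ⟨p', hp'⟩ : ∃ p', k = p + p' := ⟨k - p, by omega⟩
  obtain ⟨q', hq'⟩ : ∃ q', k = q + q' := ⟨k - q, by omega⟩
  have e1 : k - p = p' := by omega
  have e2 : k - q = q' := by omega
  rw [e1, e2]
  rcases Nat.lt_or_ge (p + q) k with h | h
  · rw [Nat.mod_eq_of_lt h]
    obtain ⟨r, hr⟩ : ∃ r, k = p + q + r := ⟨k - (p + q), by omega⟩
    have e3 : k - (p + q) = r := by omega
    have e4 : p' = q + r := by omega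
    have e5 : q' = p + r := by omega
    rw [e3, e4, e5]
    have e6 : p * (q + r) + q * (p + r) = (p + q) * r + 2 * (p * q) := by ring
    rw [e6]
    refine ⟨Nat.le_add_right _ _, fun h1 h2 => ?_⟩
    have : 0 < p * q := Nat.mul_pos (by omega) (by omega)
    omega
  · have e3 : (p + q) % k = p + q - k := by
      rw [Nat.mod_eq_sub_mod h, Nat.mod_eq_of_lt (by omega)]
    rw [e3]
    obtain ⟨s, hs⟩ : ∃ s, p + q = k + s := ⟨p + q - k, by omega⟩
    have e4 : p + q - k = s := by omega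
    have e5 : k - s = p' + q' := by omega
    rw [e4, e5]
    have e6 : p = s + q' := by omega
    have e7 : q = s + p' := by omega
    rw [e6, e7]
    have e8 : (s + q') * p' + (s + p') * q' = s * (p' + q') + 2 * (p' * q') := by ring
    rw [e8]
    refine ⟨Nat.le_add_right _ _, fun _ _ => ?_⟩
    have : 0 < p' * q' := Nat.mul_pos (by omega) (by omega)
    omega

lemma gg_sum {ι : Type*} [DecidableEq ι] (k : ℕ) (hk : 0 < k) (A : Finset ι) (j : ι → ℕ) :
    gg k (∑ r ∈ A, j r) ≤ ∑ r ∈ A, gg k (j r) := by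
  induction A using Finset.induction_on with
  | empty => simp [gg]
  | insert a A ha ih =>
    rw [Finset.sum_insert ha, Finset.sum_insert ha]
    exact ((gg_add k _ _ hk).1).trans (Nat.add_le_add_left ih _)

lemma gg_le (k : ℕ) (hk : 0 < k) (e : ℕ) : gg k e ≤ e * (k - 1) := by
  induction e with
  | zero => simp [gg]
  | succ e ih =>
    have h1 := (gg_add k e 1 hk).1
    have h2 : gg k 1 ≤ k - 1 := by
      unfold gg
      rcases Nat.lt_or_ge 1 k with h | h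
      · rw [Nat.mod_eq_of_lt h, one_mul]
      · have : k = 1 := by omega
        subst this
        simp
    calc gg k (e + 1) ≤ gg k e + gg k 1 := h1
      _ ≤ e * (k - 1) + (k - 1) := Nat.add_le_add ih h2
      _ = (e + 1) * (k - 1) := by ring

lemma gg_eq (k j : ℕ) (hj : j ≤ k) : gg k j = j * (k - j) := by
  unfold gg
  rcases Nat.lt_or_ge j k with h | h
  · rw [Nat.mod_eq_of_lt h]
  · have : j = k := by omega
    subst this
    simp

/-- the counting lemma -/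
lemma counting {ι : Type*} [DecidableEq ι] (k l e : ℕ) (hl1 : 1 ≤ l) (hl2 : l < k)
    (A : Finset ι) (j : ι → ℕ) (hj : ∀ r ∈ A, j r ≤ k)
    (hmod : (∑ r ∈ A, j r + e) % k = l)
    (hZ : ∑ r ∈ A, j r * (k - j r) + k * e ≤ l * (k - l)) :
    e = 0 ∧ ∃ r0 ∈ A, j r0 = l ∧ ∀ r ∈ A, r ≠ r0 → j r = 0 ∨ j r = k := by
  have hk : 0 < k := by omega
  have h0 : ∑ r ∈ A, gg k (j r) = ∑ r ∈ A, j r * (k - j r) :=
    Finset.sum_congr rfl (fun r hr => gg_eq k (j r) (hj r hr))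
  have h1 : l * (k - l) = gg k (∑ r ∈ A, j r + e) := by
    unfold gg; rw [hmod]
  have he : e = 0 := by
    have h2 := (gg_add k (∑ r ∈ A, j r) e hk).1
    have h3 := gg_sum k hk A j
    have h4 := gg_le k hk e
    have h5 : k * e = e * (k - 1) + e := by
      obtain ⟨k', rfl⟩ : ∃ k', k = k' + 1 := ⟨k - 1, by omega⟩
      simp
      ring
    omega
  subst he
  rw [add_zero] at hmod h1
  rw [mul_zero, add_zero] at hZ
  refine ⟨rfl, ?_⟩
  have hex : ∃ r0 ∈ A, j r0 ≠ 0 ∧ j r0 ≠ k := by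
    by_contra hcon
    push Not at hcon
    have h2 : k ∣ ∑ r ∈ A, j r := by
      apply Finset.dvd_sum
      intro r hr
      by_cases h3 : j r = 0
      · rw [h3]; exact dvd_zero _
      · rw [hcon r hr h3]
    have h3 := Nat.mod_eq_zero_of_dvd h2
    omega
  obtain ⟨r0, hr0, hj0, hjk⟩ := hex
  have hj0k : j r0 < k := lt_of_le_of_ne (hj r0 hr0) hjk
  have hothers : ∀ r ∈ A, r ≠ r0 → j r = 0 ∨ j r = k := by
    intro r hr hne
    by_contra hcon
    push Not at hcon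
    have hjr : j r < k := lt_of_le_of_ne (hj r hr) hcon.2
    have e1 := Finset.add_sum_erase A j hr0
    have hr' : r ∈ A.erase r0 := Finset.mem_erase.2 ⟨hne, hr⟩
    have e2 := Finset.add_sum_erase (A.erase r0) j hr'
    have e3 := Finset.add_sum_erase A (fun r => gg k (j r)) hr0
    have e4 := Finset.add_sum_erase (A.erase r0) (fun r => gg k (j r)) hr'
    have e5 := gg_sum k hk ((A.erase r0).erase r) j
    have e6 := (gg_add k (j r0) (j r) hk).2 (by rw [Nat.mod_eq_of_lt hj0k]; exact hj0)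
      (by rw [Nat.mod_eq_of_lt hjr]; exact hcon.1)
    have e7 := (gg_add k (j r0 + j r) (∑ r ∈ (A.erase r0).erase r, j r) hk).1
    have e8 : j r0 + j r + ∑ r ∈ (A.erase r0).erase r, j r = ∑ r ∈ A, j r := by
      rw [← e1, ← e2]; ring
    rw [e8] at e7
    omega
  refine ⟨r0, hr0, ?_, hothers⟩
  have e1 := Finset.add_sum_erase A j hr0
  have e2 : k ∣ ∑ r ∈ A.erase r0, j r := by
    apply Finset.dvd_sum
    intro r hr
    rw [Finset.mem_erase] at hr
    rcases hothers r hr.2 hr.1 with h | h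
    · rw [h]; exact dvd_zero _
    · rw [h]
  obtain ⟨c, hc⟩ := e2
  rw [← e1, hc, Nat.add_mul_mod_self_left, Nat.mod_eq_of_lt hj0k] at hmod
  exact hmod

end Pool.Agent.H35.Wh.FrC
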