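import Mathlib
import Pool.Agent.H35.Wh.Core
import Pool.Agent.H35.Wh.FrC

set_option autoImplicit false

open Finset Matrix

namespace Pool.Agent.H35.Wh.FrD

open Pool.Agent.H35.Wh.Defs Pool.Agent.H35.Wh.Spec Pool.Agent.H35.Wh.FrB
open Pool.Agent.H35.Wh.Core Pool.Agent.H35.Wh.FrC

lemma nbr_sum {V : Type*} [Fintype V] [DecidableEq V] (G : SimpleGraph V) [DecidableRel G.Adj]
    (v : V) (y : V → ℝ) : ∑ u ∈ G.neighborFinset v, y u = ∑ u, (if G.Adj v u then y u else 0) := by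
  rw [← Finset.sum_filter]
  apply Finset.sum_congr _ (fun _ _ => rfl)
  ext u; simp

lemma top_sum (l : ℕ) (a : Fin l) (c : ℝ) :
    ∑ b : Fin l, (if (⊤ : SimpleGraph (Fin l)).Adj a b then c else 0) = ((l : ℝ) - 1) * c := by
  have h1 : ∀ b : Fin l, (if (⊤ : SimpleGraph (Fin l)).Adj a b then c else 0) =
      c - (if b = a then c else 0) := by
    intro b
    by_cases h : b = a
    · simp [h]
    · have : (⊤ : SimpleGraph (Fin l)).Adj a b := by
        rw [SimpleGraph.top_adj]; exact fun h' => h h'.symm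
      simp [h, this]
  rw [Finset.sum_congr rfl (fun b _ => h1 b), Finset.sum_sub_distrib, Finset.sum_ite_eq']
  simp
  ring

open Classical in
/-- Rayleigh quotient of the natural test vector on `S1` -/
lemma S1_quad (n k l : ℕ) (hl : l ≤ k) (c : ℝ) [Nonempty (Fin l ⊕ ((Fin (k - l) ⊕ Fin (n - k - 1)) ⊕ Fin 1))] :
    (k : ℝ) * (k - 1) + 2 * c * ((k : ℝ) ^ 2 * ((n - k - 1 : ℕ) : ℝ) + (l : ℝ) ^ 2) ≤
      specRad (S1 n k l) * (k + c ^ 2 * ((k : ℝ) ^ 2 * ((n - k - 1 : ℕ) : ℝ) + (l : ℝ) ^ 2)) := by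
  set t : ℕ := n - k - 1 with ht
  let y : Fin l ⊕ ((Fin (k - l) ⊕ Fin (n - k - 1)) ⊕ Fin 1) → ℝ :=
    Sum.elim (fun _ => 1) (Sum.elim (Sum.elim (fun _ => 1) (fun _ => k * c)) (fun _ => l * c))
  have h := rayleigh_le (S1 n k l) y
  have hkl : ((k - l : ℕ) : ℝ) = k - l := by rw [Nat.cast_sub hl]
  have hrow1 : ∀ a : Fin l, ∑ u ∈ (S1 n k l).neighborFinset (Sum.inl a), y u =
      (k - 1) + t * (k * c) + l * c := by
    intro a
    rw [nbr_sum]
    simp only [Fintype.sum_sum_type, S1, join, SimpleGraph.sum, y, Sum.elim_inl, Sum.elim_inr,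
      if_true, Finset.sum_const, Finset.card_univ, Fintype.card_fin, nsmul_eq_mul, hkl]
    rw [top_sum]
    push_cast
    ring
  have hrow2 : ∀ a : Fin (k - l), ∑ u ∈ (S1 n k l).neighborFinset (Sum.inr (Sum.inl (Sum.inl a))),
      y u = (k - 1) + t * (k * c) := by
    intro a
    rw [nbr_sum]
    simp only [Fintype.sum_sum_type, S1, join, SimpleGraph.sum, y, Sum.elim_inl, Sum.elim_inr,
      if_true, Bool.false_eq_true, if_false, Finset.sum_const, Finset.card_univ,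
      Fintype.card_fin, nsmul_eq_mul]
    rw [top_sum, hkl]
    ring
  have hrow3 : ∀ a : Fin (n - k - 1),
      ∑ u ∈ (S1 n k l).neighborFinset (Sum.inr (Sum.inl (Sum.inr a))), y u = k := by
    intro a
    rw [nbr_sum]
    simp only [Fintype.sum_sum_type, S1, join, SimpleGraph.sum, y, Sum.elim_inl, Sum.elim_inr,
      if_true, Bool.false_eq_true, if_false, Finset.sum_const, Finset.card_univ,
      Fintype.card_fin, nsmul_eq_mul, SimpleGraph.bot_adj, hkl]
    ring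
  have hrow4 : ∀ a : Fin 1,
      ∑ u ∈ (S1 n k l).neighborFinset (Sum.inr (Sum.inr a)), y u = l := by
    intro a
    rw [nbr_sum]
    simp only [Fintype.sum_sum_type, S1, join, SimpleGraph.sum, y, Sum.elim_inl, Sum.elim_inr,
      if_true, Bool.false_eq_true, if_false, Finset.sum_const, Finset.card_univ,
      Fintype.card_fin, nsmul_eq_mul, SimpleGraph.bot_adj]
    ring
  have hL : y ⬝ᵥ ((S1 n k l).adjMatrix ℝ *ᵥ y) =
      (k : ℝ) * (k - 1) + 2 * c * ((k : ℝ) ^ 2 * t + (l : ℝ) ^ 2) := by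
    simp only [dotProduct, SimpleGraph.adjMatrix_mulVec_apply]
    simp only [Fintype.sum_sum_type, hrow1, hrow2, hrow3, hrow4]
    simp only [y, Sum.elim_inl, Sum.elim_inr, Finset.sum_const, Finset.card_univ, Fintype.card_fin,
      nsmul_eq_mul, hkl]
    push_cast
    rw [← ht]
    ring
  have hR : y ⬝ᵥ y = k + c ^ 2 * ((k : ℝ) ^ 2 * t + (l : ℝ) ^ 2) := by
    simp only [dotProduct, Fintype.sum_sum_type]
    simp only [y, Sum.elim_inl, Sum.elim_inr, Finset.sum_const, Finset.card_univ, Fintype.card_fin,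
      nsmul_eq_mul, hkl]
    push_cast
    rw [← ht]
    ring
  rw [hL, hR] at h
  exact h

/-- lower bound for the spectral radius of `S1` -/
lemma S1_low (n k l : ℕ) (hl1 : 1 ≤ l) (hl : l < k) :
    (k : ℝ) - 1 ≤ specRad (S1 n k l) ∧
    (k : ℝ) * ((n - k - 1 : ℕ) : ℝ) + (l : ℝ) ^ 2 / k ≤
      specRad (S1 n k l) ^ 2 - (k - 1) * specRad (S1 n k l) := by
  have : Nonempty (Fin l ⊕ ((Fin (k - l) ⊕ Fin (n - k - 1)) ⊕ Fin 1)) := ⟨Sum.inr (Sum.inr 0)⟩
  set θ := specRad (S1 n k l) with hθ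
  set t : ℝ := ((n - k - 1 : ℕ) : ℝ) with ht
  have ht0 : 0 ≤ t := Nat.cast_nonneg _
  have hk0 : (0 : ℝ) < k := by exact_mod_cast (by omega : 0 < k)
  have hk1 : (2 : ℝ) ≤ k := by exact_mod_cast (by omega : 2 ≤ k)
  have hl0 : (1 : ℝ) ≤ l := by exact_mod_cast hl1
  have hB : 0 < (k : ℝ) ^ 2 * t + (l : ℝ) ^ 2 := by positivity
  set B := (k : ℝ) ^ 2 * t + (l : ℝ) ^ 2 with hBdef
  have h1 := S1_quad n k l hl.le 1
  rw [← hθ, ← ht, ← hBdef] at h1
  have hθ0 : 0 < θ := by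
    by_contra hcon
    push Not at hcon
    nlinarith
  have h2 := S1_quad n k l hl.le (1 / θ)
  rw [← hθ, ← ht, ← hBdef] at h2
  have h3 : θ * (k + (1 / θ) ^ 2 * B) = θ * k + (1 / θ) * B := by
    field_simp
  rw [h3] at h2
  have h4 : (k : ℝ) * (k - 1) + (1 / θ) * B ≤ θ * k := by linarith
  have h5 : θ * ((k : ℝ) * (k - 1) + (1 / θ) * B) ≤ θ * (θ * k) :=
    mul_le_mul_of_nonneg_left h4 hθ0.le
  have h6 : θ * ((k : ℝ) * (k - 1) + (1 / θ) * B) = θ * (k * (k - 1)) + B := by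
    field_simp
  rw [h6] at h5
  have h7 : (k : ℝ) * t + (l : ℝ) ^ 2 / k = B / k := by
    rw [hBdef]; field_simp
  refine ⟨?_, ?_⟩
  · have h8 : 0 ≤ (1 / θ) * B := by positivity
    have h9 : (k : ℝ) * (k - 1) ≤ k * θ := by linarith
    exact le_of_mul_le_mul_left h9 hk0
  · rw [h7, div_le_iff₀ hk0]
    linarith

variable {V : Type*} [Fintype V] [DecidableEq V] (G : SimpleGraph V) [DecidableRel G.Adj]

lemma dg_card (A : Finset V) (v : V) : dg G A v = ((A.filter (G.Adj v)).card : ℝ) := by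
  unfold dg ad
  rw [Finset.sum_boole]

lemma EE_univ_eq : EE G univ univ = 2 * (G.edgeFinset.card : ℝ) := by
  have h := G.sum_degrees_eq_twice_card_edges
  rw [EE_eq]
  have h1 : ∀ v, dg G univ v = (G.degree v : ℝ) := by
    intro v
    rw [dg_card, ← SimpleGraph.card_neighborFinset_eq_degree]
    congr 2
    ext w
    simp
  rw [Finset.sum_congr rfl (fun v _ => h1 v)]
  exact_mod_cast h

/-- from the count to the isomorphism -/
lemma finish (k l m n : ℕ) (hl1 : 1 ≤ l) (hl : l < k) (hG : G.edgeFinset.card = m)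
    (hiso : ∀ v, ∃ w, G.Adj v w) (L : Finset V) (hL : L.card = k)
    (hcl : ∀ a ∈ L, ∀ b ∈ L, a ≠ b → G.Adj a b)
    (hmod : m + k * (k + 1) / 2 ≡ l [MOD k])
    (hn : (n : ℚ) = ((m : ℚ) - l) / k + (k + 3) / 2)
    (hZ : ∑ r ∈ Lᶜ, dg G L r * (k - dg G L r) + k * (EE G Lᶜ Lᶜ / 2) <
      (l : ℝ) * (k - l) + 1) : Nonempty (G ≃g S1 n k l) := by
  set j : V → ℕ := fun r => (L.filter (G.Adj r)).card with hj
  have hjd : ∀ r, dg G L r = (j r : ℝ) := fun r => dg_card G L r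
  have hjk : ∀ r, j r ≤ k := fun r => (Finset.card_filter_le _ _).trans hL.le
  set ER : ℕ := ∑ r ∈ Lᶜ, (Lᶜ.filter (G.Adj r)).card with hER
  have hERr : EE G Lᶜ Lᶜ = (ER : ℝ) := by
    rw [EE_eq, hER]
    push_cast
    exact Finset.sum_congr rfl (fun r _ => dg_card G Lᶜ r)
  obtain ⟨c, hc⟩ : ∃ c, k * (k - 1) = 2 * c := (Nat.even_mul_pred_self k).two_dvd
  have hm : (2 * m : ℕ) = 2 * c + 2 * ∑ r ∈ Lᶜ, j r + ER := by
    have hsp : ∀ A : Finset V, EE G A univ = EE G A L + EE G A Lᶜ := by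
      intro A
      unfold EE
      rw [← Finset.sum_add_distrib]
      exact Finset.sum_congr rfl (fun v _ => (Finset.sum_add_sum_compl L _).symm)
    have h1 : EE G univ univ = EE G L univ + EE G Lᶜ univ := by
      unfold EE
      rw [Finset.sum_add_sum_compl L]
    have h2 := hsp L
    have h3 := hsp Lᶜ
    have h4 := EE_comm (G := G) L Lᶜ
    have h5 : EE G Lᶜ L = ∑ r ∈ Lᶜ, (j r : ℝ) := Finset.sum_congr rfl (fun r _ => hjd r)
    have h6 : EE G L L = (k : ℝ) * ((k - 1 : ℕ) : ℝ) := by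
      rw [EE_eq]
      have : ∀ a ∈ L, dg G L a = ((k - 1 : ℕ) : ℝ) := by
        intro a ha
        unfold dg
        rw [← Finset.add_sum_erase L _ ha, ad_self, zero_add,
          Finset.sum_congr rfl (fun b hb => ad_of G a b (hcl a ha b (Finset.mem_erase.1 hb).2
            (Finset.mem_erase.1 hb).1.symm)), Finset.sum_const, nsmul_eq_mul, mul_one,
          Finset.card_erase_of_mem ha, hL]
      rw [Finset.sum_congr rfl this, Finset.sum_const, nsmul_eq_mul, hL]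
    have h7 : EE G univ univ = 2 * (m : ℝ) := by rw [EE_univ_eq, hG]
    have h8 : (k : ℝ) * ((k - 1 : ℕ) : ℝ) = 2 * (c : ℝ) := by exact_mod_cast hc
    have h9 : (2 * m : ℝ) = 2 * c + 2 * ∑ r ∈ Lᶜ, (j r : ℝ) + ER := by linarith
    exact_mod_cast h9
  obtain ⟨e, he⟩ : ∃ e, ER = 2 * e := ⟨m - c - ∑ r ∈ Lᶜ, j r, by omega⟩
  have hme : m = c + (∑ r ∈ Lᶜ, j r + e) := by omega
  have hZ' : ∑ r ∈ Lᶜ, j r * (k - j r) + k * e ≤ l * (k - l) := by
    have h1 : ((∑ r ∈ Lᶜ, j r * (k - j r) + k * e : ℕ) : ℝ) < ((l * (k - l) + 1 : ℕ) : ℝ) := by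
      push_cast
      rw [Nat.cast_sub hl.le]
      refine lt_of_le_of_lt (le_of_eq ?_) hZ
      congr 1
      · apply Finset.sum_congr rfl
        intro r _
        rw [hjd, Nat.cast_sub (hjk r)]
      · rw [hERr, he]
        push_cast
        ring
    have h2 : ∑ r ∈ Lᶜ, j r * (k - j r) + k * e < l * (k - l) + 1 := by exact_mod_cast h1
    omega
  have hkk : k * (k + 1) = 2 * (c + k) := by
    obtain ⟨k', rfl⟩ : ∃ k', k = k' + 1 := ⟨k - 1, by omega⟩
    simp only [Nat.add_sub_cancel] at hc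
    have : (k' + 1) * (k' + 1 + 1) = (k' + 1) * k' + 2 * (k' + 1) := by ring
    rw [this, hc]
    ring
  have hmod' : (∑ r ∈ Lᶜ, j r + e) % k = l := by
    have h1 : m + k * (k + 1) / 2 = (∑ r ∈ Lᶜ, j r + e) + k * k := by
      rw [hkk, Nat.mul_div_cancel_left _ (by norm_num : 0 < 2), hme]
      have h2 : k * k = 2 * c + k := by
        obtain ⟨k', rfl⟩ : ∃ k', k = k' + 1 := ⟨k - 1, by omega⟩
        simp only [Nat.add_sub_cancel] at hc
        rw [← hc]
        ring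
      rw [h2]
      ring
    rw [h1] at hmod
    unfold Nat.ModEq at hmod
    rw [Nat.add_mul_mod_self_left, Nat.mod_eq_of_lt hl] at hmod
    exact hmod
  obtain ⟨he0, r0, hr0, hjr0, hoth⟩ := counting k l e hl1 hl Lᶜ j (fun r _ => hjk r) hmod' hZ'
  have hRR : ∀ a, a ∉ L → ∀ b, b ∉ L → ¬ G.Adj a b := by
    intro a ha b hb hab
    have h1 : ER = 0 := by omega
    rw [hER, Finset.sum_eq_zero_iff] at h1
    have h2 := h1 a (mem_compl.2 ha)
    rw [Finset.card_eq_zero] at h2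
    have h3 : b ∈ Lᶜ.filter (G.Adj a) := mem_filter.2 ⟨mem_compl.2 hb, hab⟩
    rw [h2] at h3
    exact absurd h3 (Finset.notMem_empty _)
  have hfullj : ∀ r, r ∉ L → r ≠ r0 → j r = k := by
    intro r hr hne
    rcases hoth r (mem_compl.2 hr) hne with h | h
    · exfalso
      obtain ⟨w, hw⟩ := hiso r
      have hwL : w ∈ L := by
        by_contra hwL
        exact hRR r hr w hwL hw
      have h1 : w ∈ L.filter (G.Adj r) := mem_filter.2 ⟨hwL, hw⟩
      rw [hj] at h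
      simp only [Finset.card_eq_zero] at h
      rw [h] at h1
      exact absurd h1 (Finset.notMem_empty _)
    · exact h
  have hfull : ∀ r, r ∉ L → r ≠ r0 → ∀ a ∈ L, G.Adj a r := by
    intro r hr hne a ha
    have h1 := hfullj r hr hne
    have h2 : L.filter (G.Adj r) = L := by
      apply Finset.eq_of_subset_of_card_le (Finset.filter_subset _ _)
      rw [hL]
      exact h1.ge
    have h3 : a ∈ L.filter (G.Adj r) := by rw [h2]; exact ha
    exact (mem_filter.1 h3).2.symm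
  have hsumj : ∑ r ∈ Lᶜ, j r = k * (Lᶜ.card - 1) + l := by
    rw [← Finset.add_sum_erase Lᶜ j hr0, hjr0]
    have h1 : ∑ r ∈ Lᶜ.erase r0, j r = ∑ r ∈ Lᶜ.erase r0, k := by
      apply Finset.sum_congr rfl
      intro r hr
      rw [mem_erase, mem_compl] at hr
      exact hfullj r hr.2 hr.1
    rw [h1, Finset.sum_const, Finset.card_erase_of_mem hr0, smul_eq_mul]
    ring
  have hRpos : 1 ≤ Lᶜ.card := Finset.card_pos.2 ⟨r0, hr0⟩
  apply iso_S1 G n k l L r0 (mem_compl.1 hr0) hL hcl hRR hfull hjr0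
  have hkq : (k : ℚ) ≠ 0 := by
    have : 0 < k := by omega
    exact_mod_cast this.ne'
  have hn2 : (n : ℚ) = k + Lᶜ.card := by
    have h1 : (m : ℚ) = c + (k * (Lᶜ.card - 1) + l) := by
      have h2 : m = c + (k * (Lᶜ.card - 1) + l) := by rw [hme, he0, hsumj, add_zero]
      rw [h2]
      push_cast [Nat.cast_sub hRpos]
      ring
    have h3 : (k : ℚ) * (k - 1) = 2 * c := by
      have h4 : ((k * (k - 1) : ℕ) : ℚ) = ((2 * c : ℕ) : ℚ) := by rw [hc]
      push_cast [Nat.cast_sub (by omega : 1 ≤ k)] at h4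
      exact h4
    rw [hn, h1]
    have h5 : (c : ℚ) = k * (k - 1) / 2 := by linarith
    rw [h5]
    field_simp
    ring
  have hn3 : n = k + Lᶜ.card := by exact_mod_cast hn2
  omega

end Pool.Agent.H35.Wh.FrD
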