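import Mathlib
import Pool.Agent.H35.Wh.Defs
import Pool.Agent.H35.Wh.Core

set_option autoImplicit false

open Finset

namespace Pool.Agent.H35.Wh.WA

open Pool.Agent.H35.Wh.Defs Pool.Agent.H35.Wh.FrB Pool.Agent.H35.Wh.Core

/-- a closed chain inside a neighbourhood gives a wheel -/
lemma wheel_of_list {V : Type*} (G : SimpleGraph V) (t : ℕ) (v a : V) (L : List V)
    (hlen : L.length + 1 = t) (ht : 3 ≤ t) (hnd : (a :: L).Nodup)
    (hch : (a :: (L ++ [a])).IsChain G.Adj) (hv : ∀ b ∈ a :: L, G.Adj v b) :
    (wheel (t + 1)).IsContained G := by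
  have hlen' : (a :: L).length = t := by rw [List.length_cons]; exact hlen
  subst hlen'
  have hM : ∀ i : ℕ, ∀ h : i < (a :: L).length, (a :: (L ++ [a]))[i]'(by
      simp only [List.length_cons, List.length_append, List.length_nil] at h ⊢; omega) =
      (a :: L)[i] := by
    intro i h
    have e : a :: (L ++ [a]) = (a :: L) ++ [a] := rfl
    simp only [e]
    exact List.getElem_append_left h
  let f : Fin 1 ⊕ Fin (a :: L).length → V := Sum.elim (fun _ => v) (fun i => (a :: L).get i)
  have hvi : ∀ i : Fin (a :: L).length, G.Adj v ((a :: L).get i) :=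
    fun i => hv _ (List.get_mem _ i)
  have hcons : ∀ i j : Fin (a :: L).length, i.val + 1 = j.val →
      G.Adj ((a :: L).get i) ((a :: L).get j) := by
    intro i j hij
    have hi := i.isLt
    have hj := j.isLt
    have h1 := List.isChain_iff_getElem.1 hch i.val (by
      simp only [List.length_cons, List.length_append, List.length_nil] at hi hj ⊢; omega)
    rw [hM i.val hi] at h1
    have h2 : (a :: (L ++ [a]))[i.val + 1]'(by
        simp only [List.length_cons, List.length_append, List.length_nil] at hi hj ⊢; omega) =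
        (a :: L)[i.val + 1]'(by omega) := hM (i.val + 1) (by omega)
    rw [h2] at h1
    have h3 : (a :: L).get j = (a :: L)[i.val + 1]'(by omega) := by
      simp only [List.get_eq_getElem, hij]
    rw [h3]
    exact h1
  have hwrap : ∀ i j : Fin (a :: L).length, i.val + 1 = (a :: L).length → j.val = 0 →
      G.Adj ((a :: L).get i) ((a :: L).get j) := by
    intro i j hi hj
    have hil := i.isLt
    have h1 := List.isChain_iff_getElem.1 hch i.val (by
      simp only [List.length_cons, List.length_append, List.length_nil] at hil ⊢; omega)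
    rw [hM i.val hil] at h1
    have h2 : (a :: (L ++ [a]))[i.val + 1]'(by
        simp only [List.length_cons, List.length_append, List.length_nil] at hil ⊢; omega) = a := by
      have e : a :: (L ++ [a]) = (a :: L) ++ [a] := rfl
      simp only [e]
      rw [List.getElem_append_right (by omega)]
      simp
    rw [h2] at h1
    have h3 : (a :: L).get j = a := by
      simp only [List.get_eq_getElem, hj, List.getElem_cons_zero]
    rw [h3]
    exact h1
  have hf : ∀ i j, (wheel ((a :: L).length + 1)).Adj i j → G.Adj (f i) (f j) := by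
    rintro (i | i) (j | j) h
    · exact absurd (Subsingleton.elim i j) h
    · exact hvi j
    · exact (hvi i).symm
    · have h' : (SimpleGraph.cycleGraph (a :: L).length).Adj i j := h
      rw [SimpleGraph.cycleGraph_adj'] at h'
      have hi := i.isLt
      have hj := j.isLt
      have key : ∀ p q : Fin (a :: L).length, (p - q).val = 1 →
          q.val + 1 = p.val ∨ (q.val + 1 = (a :: L).length ∧ p.val = 0) := by
        intro p q hpq
        have hp := p.isLt
        have hq := q.isLt
        rw [Fin.sub_def] at hpq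
        simp only at hpq
        rcases Nat.lt_or_ge ((a :: L).length - q.val + p.val) (a :: L).length with h1 | h1
        · rw [Nat.mod_eq_of_lt h1] at hpq
          right; omega
        · rw [Nat.mod_eq_sub_mod h1, Nat.mod_eq_of_lt (by omega)] at hpq
          left; omega
      rcases h' with h' | h'
      · rcases key i j h' with h1 | h1
        · exact (hcons j i h1).symm
        · exact (hwrap j i h1.1 h1.2).symm
      · rcases key j i h' with h1 | h1
        · exact hcons i j h1
        · exact hwrap i j h1.1 h1.2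
  have hinj : Function.Injective f := by
    rintro (i | i) (j | j) h
    · rw [Subsingleton.elim i j]
    · exact absurd h (hvi j).ne
    · exact absurd h.symm (hvi i).ne
    · have := hnd.injective_get h
      rw [this]
  exact ⟨⟨⟨f, fun {i j} h => hf i j h⟩, hinj⟩⟩

/-- interleave two lists -/
def zig {V : Type*} : List V → List V → List V
  | a :: as, b :: bs => a :: b :: zig as bs
  | _, _ => []

lemma zig_length {V : Type*} (as : List V) : ∀ bs : List V, as.length = bs.length →
    (zig as bs).length = 2 * as.length := by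
  induction as with
  | nil => intro bs _; simp [zig]
  | cons a as ih =>
    intro bs h
    cases bs with
    | nil => simp at h
    | cons b bs =>
      simp only [List.length_cons, Nat.add_right_cancel_iff] at h
      simp only [zig, List.length_cons, ih bs h]
      ring

lemma mem_zig {V : Type*} (as : List V) : ∀ (bs : List V) (x : V), x ∈ zig as bs →
    x ∈ as ∨ x ∈ bs := by
  induction as with
  | nil => intro bs x h; simp [zig] at h
  | cons a as ih =>
    intro bs x h
    cases bs with
    | nil => simp [zig] at h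
    | cons b bs =>
      simp only [zig, List.mem_cons] at h
      rcases h with h | h | h
      · left; rw [h]; exact List.mem_cons_self
      · right; rw [h]; exact List.mem_cons_self
      · rcases ih bs x h with h' | h'
        · left; exact List.mem_cons_of_mem _ h'
        · right; exact List.mem_cons_of_mem _ h'

lemma zig_nodup {V : Type*} (as : List V) : ∀ (bs : List V), as.Nodup → bs.Nodup →
    (∀ x ∈ as, x ∉ bs) → (zig as bs).Nodup := by
  induction as with
  | nil => intro bs _ _ _; simp [zig]
  | cons a as ih =>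
    intro bs h1 h2 h3
    cases bs with
    | nil => simp [zig]
    | cons b bs =>
      rw [List.nodup_cons] at h1 h2
      simp only [zig, List.nodup_cons, List.mem_cons, not_or]
      have h4 : a ≠ b ∧ a ∉ bs := by
        have := h3 a List.mem_cons_self
        simpa [List.mem_cons, not_or] using this
      refine ⟨⟨h4.1, ?_⟩, ?_, ?_⟩
      · intro h
        rcases mem_zig as bs a h with h' | h'
        · exact h1.1 h'
        · exact h4.2 h'
      · intro h
        rcases mem_zig as bs b h with h' | h'
        · exact h3 b (List.mem_cons_of_mem _ h') List.mem_cons_self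
        · exact h2.1 h'
      · apply ih bs h1.2 h2.2
        intro x hx hxb
        exact h3 x (List.mem_cons_of_mem _ hx) (List.mem_cons_of_mem _ hxb)

/-- the closed version of the chain property -/
lemma zig_chain {V : Type*} (G : SimpleGraph V) (as : List V) : ∀ (bs : List V) (b0 c : V),
    (∀ a ∈ as, G.Adj b0 a) → (∀ a ∈ as, ∀ b ∈ bs, G.Adj a b) → G.Adj b0 c →
    (∀ b ∈ bs, G.Adj b c) →
    (b0 :: (zig as bs ++ [c])).IsChain G.Adj := by
  induction as with
  | nil => intro bs b0 c _ _ h _; simpa [zig] using h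
  | cons a as ih =>
    intro bs b0 c h1 h2 h3 h4
    cases bs with
    | nil => simpa [zig] using h3
    | cons b bs =>
      simp only [zig, List.cons_append, List.isChain_cons_cons]
      refine ⟨h1 a List.mem_cons_self, h2 a List.mem_cons_self b List.mem_cons_self, ?_⟩
      apply ih bs b c
      · intro a' ha'
        exact (h2 a' (List.mem_cons_of_mem _ ha') b List.mem_cons_self).symm
      · intro a' ha' b' hb'
        exact h2 a' (List.mem_cons_of_mem _ ha') b' (List.mem_cons_of_mem _ hb')
      · exact h4 b List.mem_cons_self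
      · intro b' hb'
        exact h4 b' (List.mem_cons_of_mem _ hb')

variable {V : Type*} [Fintype V] [DecidableEq V] (G : SimpleGraph V) [DecidableRel G.Adj]

/-- (F1): a complete bipartite graph `K_{k,k}` in a neighbourhood -/
lemma wheel_K (k : ℕ) (hk : 2 ≤ k) (v : V) (I J : Finset V) (hI : I.card = k) (hJ : k ≤ J.card)
    (hIv : ∀ i ∈ I, G.Adj v i) (hJv : ∀ j ∈ J, G.Adj v j) (hIJ : ∀ i ∈ I, ∀ j ∈ J, G.Adj i j) :
    (wheel (2 * k + 1)).IsContained G := by
  obtain ⟨J', hJ'J, hJ'⟩ := Finset.exists_subset_card_eq hJ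
  obtain ⟨b0, hb0⟩ := Finset.card_pos.1 (by omega : 0 < J'.card)
  obtain ⟨a0, ha0⟩ := Finset.card_pos.1 (by omega : 0 < I.card)
  have hIJ' : ∀ i ∈ I, i ∉ J := fun i hi hj => (hIJ i hi i hj).ne rfl
  have cI : (I.erase a0).card = k - 1 := by rw [Finset.card_erase_of_mem ha0, hI]
  have cJ : (J'.erase b0).card = k - 1 := by rw [Finset.card_erase_of_mem hb0, hJ']
  have hz : ∀ a, a ∈ zig (I.erase a0).toList (J'.erase b0).toList →
      (a ∈ I ∧ a ≠ a0) ∨ (a ∈ J ∧ a ≠ b0) := by
    intro a ha
    rcases mem_zig _ _ _ ha with h' | h'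
    · left
      rw [Finset.mem_toList, Finset.mem_erase] at h'
      exact ⟨h'.2, h'.1⟩
    · right
      rw [Finset.mem_toList, Finset.mem_erase] at h'
      exact ⟨hJ'J h'.2, h'.1⟩
  apply wheel_of_list G (2 * k) v a0 (b0 :: zig (I.erase a0).toList (J'.erase b0).toList)
  · rw [List.length_cons, zig_length, Finset.length_toList, cI]
    · omega
    · rw [Finset.length_toList, Finset.length_toList, cI, cJ]
  · omega
  · simp only [List.nodup_cons, List.mem_cons, not_or]
    refine ⟨⟨(hIJ a0 ha0 b0 (hJ'J hb0)).ne, ?_⟩, ?_, ?_⟩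
    · intro h
      rcases hz _ h with h' | h'
      · exact h'.2 rfl
      · exact hIJ' _ ha0 h'.1
    · intro h
      rcases hz _ h with h' | h'
      · exact hIJ' _ h'.1 (hJ'J hb0)
      · exact h'.2 rfl
    · apply zig_nodup _ _ (Finset.nodup_toList _) (Finset.nodup_toList _)
      intro x hx hx'
      rw [Finset.mem_toList] at hx hx'
      exact hIJ' x (Finset.mem_of_mem_erase hx) (hJ'J (Finset.mem_of_mem_erase hx'))
  · rw [List.cons_append, List.isChain_cons_cons]
    refine ⟨hIJ a0 ha0 b0 (hJ'J hb0), ?_⟩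
    apply zig_chain
    · intro a ha
      rw [Finset.mem_toList] at ha
      exact (hIJ a (Finset.mem_of_mem_erase ha) b0 (hJ'J hb0)).symm
    · intro a ha b hb
      rw [Finset.mem_toList] at ha hb
      exact hIJ a (Finset.mem_of_mem_erase ha) b (hJ'J (Finset.mem_of_mem_erase hb))
    · exact (hIJ a0 ha0 b0 (hJ'J hb0)).symm
    · intro b hb
      rw [Finset.mem_toList] at hb
      exact (hIJ a0 ha0 b (hJ'J (Finset.mem_of_mem_erase hb))).symm
  · intro a ha
    simp only [List.mem_cons] at ha
    rcases ha with rfl | rfl | ha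
    · exact hIv _ ha0
    · exact hJv _ (hJ'J hb0)
    · rcases hz _ ha with h' | h'
      · exact hIv _ h'.1
      · exact hJv _ h'.1

/-- (F3): `I` with `k - 1` vertices, complete to a set `J`, plus a path `t' t t''` with
`t', t''` in `J` -/
lemma wheel_path (k : ℕ) (hk : 2 ≤ k) (v : V) (I J : Finset V) (hI : I.card + 1 = k)
    (hJ : k + 2 ≤ J.card)
    (hIv : ∀ i ∈ I, G.Adj v i) (hJv : ∀ j ∈ J, G.Adj v j) (hIJ : ∀ i ∈ I, ∀ j ∈ J, G.Adj i j)
    (t t' t'' : V) (ht' : t' ∈ J) (ht'' : t'' ∈ J) (hne : t' ≠ t'') (h1 : G.Adj t t')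
    (h2 : G.Adj t t'') (htv : G.Adj v t) (htI : t ∉ I) :
    (wheel (2 * k + 1)).IsContained G := by
  obtain ⟨i0, hi0⟩ := Finset.card_pos.1 (by omega : 0 < I.card)
  have cI : (I.erase i0).card = k - 2 := by rw [Finset.card_erase_of_mem hi0]; omega
  have hcard : k - 2 ≤ (((J.erase t').erase t'').erase t).card := by
    have h3 := Finset.card_erase_of_mem ht'
    have h4 : t'' ∈ J.erase t' := Finset.mem_erase.2 ⟨hne.symm, ht''⟩
    have h5 := Finset.card_erase_of_mem h4
    have h6 := Finset.pred_card_le_card_erase (s := (J.erase t').erase t'') (a := t)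
    omega
  obtain ⟨J', hJ'J, hJ'⟩ := Finset.exists_subset_card_eq hcard
  have hJ'' : ∀ j ∈ J', j ∈ J ∧ j ≠ t' ∧ j ≠ t'' ∧ j ≠ t := by
    intro j hj
    have h3 := hJ'J hj
    simp only [Finset.mem_erase] at h3
    exact ⟨h3.2.2.2, h3.2.2.1, h3.2.1, h3.1⟩
  have hIJ' : ∀ i ∈ I, i ∉ J := fun i hi hj => (hIJ i hi i hj).ne rfl
  have hz : ∀ a, a ∈ zig (I.erase i0).toList J'.toList → (a ∈ I ∧ a ≠ i0) ∨ a ∈ J' := by
    intro a ha
    rcases mem_zig _ _ _ ha with h' | h'
    · left
      rw [Finset.mem_toList, Finset.mem_erase] at h'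
      exact ⟨h'.2, h'.1⟩
    · right; rwa [Finset.mem_toList] at h'
  apply wheel_of_list G (2 * k) v i0 (t'' :: t :: t' :: zig (I.erase i0).toList J'.toList)
  · rw [List.length_cons, List.length_cons, List.length_cons, zig_length, Finset.length_toList, cI]
    · omega
    · rw [Finset.length_toList, Finset.length_toList, cI, hJ']
  · omega
  · simp only [List.nodup_cons, List.mem_cons, not_or]
    refine ⟨⟨?_, ?_, ?_, ?_⟩, ⟨h2.ne', hne.symm, ?_⟩, ⟨h1.ne, ?_⟩, ?_, ?_⟩
    · exact fun h => hIJ' _ hi0 (h ▸ ht'')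
    · exact fun h => htI (h ▸ hi0)
    · exact fun h => hIJ' _ hi0 (h ▸ ht')
    · intro h
      rcases hz _ h with h' | h'
      · exact h'.2 rfl
      · exact hIJ' _ hi0 (hJ'' _ h').1
    · intro h
      rcases hz _ h with h' | h'
      · exact hIJ' _ h'.1 ht''
      · exact (hJ'' _ h').2.2.1 rfl
    · intro h
      rcases hz _ h with h' | h'
      · exact htI h'.1
      · exact (hJ'' _ h').2.2.2 rfl
    · intro h
      rcases hz _ h with h' | h'
      · exact hIJ' _ h'.1 ht'
      · exact (hJ'' _ h').2.1 rfl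
    · apply zig_nodup _ _ (Finset.nodup_toList _) (Finset.nodup_toList _)
      intro x hx hx'
      rw [Finset.mem_toList] at hx hx'
      exact hIJ' x (Finset.mem_of_mem_erase hx) (hJ'' x hx').1
  · simp only [List.cons_append, List.isChain_cons_cons]
    refine ⟨hIJ i0 hi0 t'' ht'', h2.symm, h1, ?_⟩
    apply zig_chain
    · intro a ha
      rw [Finset.mem_toList] at ha
      exact (hIJ a (Finset.mem_of_mem_erase ha) t' ht').symm
    · intro a ha b hb
      rw [Finset.mem_toList] at ha hb
      exact hIJ a (Finset.mem_of_mem_erase ha) b (hJ'' b hb).1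
    · exact (hIJ i0 hi0 t' ht').symm
    · intro b hb
      rw [Finset.mem_toList] at hb
      exact (hIJ i0 hi0 b (hJ'' b hb).1).symm
  · intro a ha
    simp only [List.mem_cons] at ha
    rcases ha with rfl | rfl | rfl | rfl | ha
    · exact hIv _ hi0
    · exact hJv _ ht''
    · exact htv
    · exact hJv _ ht'
    · rcases hz _ ha with h' | h'
      · exact hIv _ h'.1
      · exact hJv _ (hJ'' _ h').1

/-- (F2): `I` with `k - 1 ≥ 2` vertices, complete to a set `J` containing two disjoint edges -/
lemma wheel_two (k : ℕ) (hk : 3 ≤ k) (v : V) (I J : Finset V) (hI : I.card + 1 = k)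
    (hJ : k + 2 ≤ J.card)
    (hIv : ∀ i ∈ I, G.Adj v i) (hJv : ∀ j ∈ J, G.Adj v j) (hIJ : ∀ i ∈ I, ∀ j ∈ J, G.Adj i j)
    (p p' q q' : V) (hp : p ∈ J) (hp' : p' ∈ J) (hq : q ∈ J) (hq' : q' ∈ J)
    (hpp : G.Adj p p') (hqq : G.Adj q q') (h1 : p ≠ q) (h2 : p ≠ q') (h3 : p' ≠ q)
    (h4 : p' ≠ q') :
    (wheel (2 * k + 1)).IsContained G := by
  obtain ⟨a1, ha1, a2, ha2, h12⟩ := Finset.one_lt_card.1 (by omega : 1 < I.card)
  have ha2' : a2 ∈ I.erase a1 := Finset.mem_erase.2 ⟨h12.symm, ha2⟩
  have cI : ((I.erase a1).erase a2).card = k - 3 := by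
    rw [Finset.card_erase_of_mem ha2', Finset.card_erase_of_mem ha1]; omega
  have hcard : k - 3 ≤ ((((J.erase p).erase p').erase q).erase q').card := by
    have h5 := Finset.pred_card_le_card_erase (s := J) (a := p)
    have h6 := Finset.pred_card_le_card_erase (s := J.erase p) (a := p')
    have h7 := Finset.pred_card_le_card_erase (s := (J.erase p).erase p') (a := q)
    have h8 := Finset.pred_card_le_card_erase (s := ((J.erase p).erase p').erase q) (a := q')
    omega
  obtain ⟨J', hJ'J, hJ'⟩ := Finset.exists_subset_card_eq hcard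
  have hJ'' : ∀ j ∈ J', j ∈ J ∧ j ≠ p ∧ j ≠ p' ∧ j ≠ q ∧ j ≠ q' := by
    intro j hj
    have h3 := hJ'J hj
    simp only [Finset.mem_erase] at h3
    exact ⟨h3.2.2.2.2, h3.2.2.2.1, h3.2.2.1, h3.2.1, h3.1⟩
  have hIJ' : ∀ i ∈ I, i ∉ J := fun i hi hj => (hIJ i hi i hj).ne rfl
  have hz : ∀ a, a ∈ zig ((I.erase a1).erase a2).toList J'.toList →
      (a ∈ I ∧ a ≠ a1 ∧ a ≠ a2) ∨ a ∈ J' := by
    intro a ha
    rcases mem_zig _ _ _ ha with h' | h'
    · left
      rw [Finset.mem_toList, Finset.mem_erase, Finset.mem_erase] at h'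
      exact ⟨h'.2.2, h'.2.1, h'.1⟩
    · right; rwa [Finset.mem_toList] at h'
  apply wheel_of_list G (2 * k) v a2 (p' :: p :: a1 :: q :: q' ::
    zig ((I.erase a1).erase a2).toList J'.toList)
  · simp only [List.length_cons]
    rw [zig_length, Finset.length_toList, cI]
    · omega
    · rw [Finset.length_toList, Finset.length_toList, cI, hJ']
  · omega
  · simp only [List.nodup_cons, List.mem_cons, not_or]
    have n1 : ∀ j ∈ J, j ∉ I := fun j hj hi => hIJ' j hi hj
    have n2 : ∀ j ∈ J, a1 ≠ j := fun j hj h => n1 j hj (h ▸ ha1)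
    have n3 : ∀ j ∈ J, a2 ≠ j := fun j hj h => n1 j hj (h ▸ ha2)
    refine ⟨⟨n3 p' hp', n3 p hp, h12.symm, n3 q hq, n3 q' hq', ?_⟩,
      ⟨hpp.ne', (n2 p' hp').symm, h3, h4, ?_⟩, ⟨(n2 p hp).symm, h1, h2, ?_⟩,
      ⟨n2 q hq, n2 q' hq', ?_⟩, ⟨hqq.ne, ?_⟩, ?_, ?_⟩
    · intro h
      rcases hz _ h with h' | h'
      · exact h'.2.2 rfl
      · exact hIJ' _ ha2 (hJ'' _ h').1
    · intro h
      rcases hz _ h with h' | h'
      · exact n1 _ hp' h'.1
      · exact (hJ'' _ h').2.2.1 rfl
    · intro h
      rcases hz _ h with h' | h'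
      · exact n1 _ hp h'.1
      · exact (hJ'' _ h').2.1 rfl
    · intro h
      rcases hz _ h with h' | h'
      · exact h'.2.1 rfl
      · exact hIJ' _ ha1 (hJ'' _ h').1
    · intro h
      rcases hz _ h with h' | h'
      · exact n1 _ hq h'.1
      · exact (hJ'' _ h').2.2.2.1 rfl
    · intro h
      rcases hz _ h with h' | h'
      · exact n1 _ hq' h'.1
      · exact (hJ'' _ h').2.2.2.2 rfl
    · apply zig_nodup _ _ (Finset.nodup_toList _) (Finset.nodup_toList _)
      intro x hx hx'
      rw [Finset.mem_toList] at hx hx'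
      exact hIJ' x (Finset.mem_of_mem_erase (Finset.mem_of_mem_erase hx)) (hJ'' x hx').1
  · simp only [List.cons_append, List.isChain_cons_cons]
    refine ⟨hIJ a2 ha2 p' hp', hpp.symm, (hIJ a1 ha1 p hp).symm, hIJ a1 ha1 q hq, hqq, ?_⟩
    apply zig_chain
    · intro a ha
      rw [Finset.mem_toList] at ha
      exact (hIJ a (Finset.mem_of_mem_erase (Finset.mem_of_mem_erase ha)) q' hq').symm
    · intro a ha b hb
      rw [Finset.mem_toList] at ha hb
      exact hIJ a (Finset.mem_of_mem_erase (Finset.mem_of_mem_erase ha)) b (hJ'' b hb).1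
    · exact (hIJ a2 ha2 q' hq').symm
    · intro b hb
      rw [Finset.mem_toList] at hb
      exact (hIJ a2 ha2 b (hJ'' b hb).1).symm
  · intro a ha
    simp only [List.mem_cons] at ha
    rcases ha with rfl | rfl | rfl | rfl | rfl | rfl | ha
    · exact hIv _ ha2
    · exact hJv _ hp'
    · exact hJv _ hp
    · exact hIv _ ha1
    · exact hJv _ hq
    · exact hJv _ hq'
    · rcases hz _ ha with h' | h'
      · exact hIv _ h'.1
      · exact hJv _ (hJ'' _ h').1

end Pool.Agent.H35.Wh.WA
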