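import Mathlib
import Pool.Agent.H35.Wh.Core

set_option autoImplicit false

open Finset

namespace Pool.Agent.H35.Wh.WB

open Pool.Agent.H35.Wh.FrB Pool.Agent.H35.Wh.Core

variable {V : Type*} [Fintype V] [DecidableEq V] {G : SimpleGraph V} [DecidableRel G.Adj]
variable {lam : ℝ} {x : V → ℝ} {u : V}

/-- the partition inequality, including the contribution of the missing edges -/
lemma dagger (h : Sit G lam x u) (A : Finset V) (N c : ℝ) (hN : N = ∑ v, x v ^ 2)
    (hc : c = 4 * lam / N) :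
    lam ^ 2 - EE G univ univ / 2 ≤
      (∑ v ∈ A, ∑ w ∈ A, ad G v w * (c * (x v * x w) - 1) +
        ∑ v ∈ Aᶜ, ∑ w ∈ Aᶜ, ad G v w * (c * (x v * x w) - 1)) / 2
      - c ^ 2 / 4 * ∑ v ∈ A, ∑ w ∈ Aᶜ, (1 - ad G v w) * (x v ^ 2 * x w ^ 2) := by
  have hNpos : 0 < N := by
    rw [hN]
    refine Finset.sum_pos' (fun v _ => sq_nonneg _) ⟨u, mem_univ _, ?_⟩
    rw [h.xu]; norm_num
  set sA := ∑ v ∈ A, x v ^ 2 with hsA
  set sB := ∑ v ∈ Aᶜ, x v ^ 2 with hsB
  have hs : sA + sB = N := by rw [hN, hsA, hsB, Finset.sum_add_sum_compl]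
  set IA := ∑ v ∈ A, ∑ w ∈ A, ad G v w * (x v * x w) with hIA
  set IB := ∑ v ∈ Aᶜ, ∑ w ∈ Aᶜ, ad G v w * (x v * x w) with hIB
  set X := ∑ v ∈ A, ∑ w ∈ Aᶜ, ad G v w * (x v * x w) with hX
  set Q := ∑ v ∈ A, ∑ w ∈ Aᶜ, (1 - ad G v w) * (x v ^ 2 * x w ^ 2) with hQ
  have hX' : ∑ v ∈ Aᶜ, ∑ w ∈ A, ad G v w * (x v * x w) = X := by
    rw [hX, Finset.sum_comm]
    exact Finset.sum_congr rfl (fun v _ => Finset.sum_congr rfl (fun w _ => by
      rw [ad_symm]; ring))
  have htot : lam * N = IA + IB + 2 * X := by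
    have h1 : lam * N = ∑ v, ∑ w, ad G v w * (x v * x w) := by
      rw [hN, Finset.mul_sum]
      apply Finset.sum_congr rfl
      intro v _
      have h2 := h.ev v
      calc lam * x v ^ 2 = x v * (lam * x v) := by ring
        _ = x v * ∑ w, ad G v w * x w := by rw [h2]
        _ = ∑ w, ad G v w * (x v * x w) := by
            rw [Finset.mul_sum]
            exact Finset.sum_congr rfl (fun w _ => by ring)
    have h3 : ∀ v, ∑ w, ad G v w * (x v * x w) =
        ∑ w ∈ A, ad G v w * (x v * x w) + ∑ w ∈ Aᶜ, ad G v w * (x v * x w) :=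
      fun v => (Finset.sum_add_sum_compl A _).symm
    rw [h1, ← Finset.sum_add_sum_compl A]
    simp only [h3, Finset.sum_add_distrib]
    rw [hX']
    ring
  have hE : EE G univ univ = EE G A A + EE G Aᶜ Aᶜ + 2 * EE G A Aᶜ := by
    have hsp : ∀ C : Finset V, EE G C univ = EE G C A + EE G C Aᶜ := by
      intro C
      unfold EE
      rw [← Finset.sum_add_distrib]
      exact Finset.sum_congr rfl (fun v _ => (Finset.sum_add_sum_compl A _).symm)
    have h1 : EE G univ univ = EE G A univ + EE G Aᶜ univ := by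
      unfold EE
      rw [Finset.sum_add_sum_compl A]
    rw [h1, hsp, hsp, EE_comm Aᶜ A]
    ring
  have hAB : sA * sB ≤ N ^ 2 / 4 := by
    rw [← hs]
    nlinarith [sq_nonneg (sA - sB)]
  have hprod : sA * sB = ∑ v ∈ A, ∑ w ∈ Aᶜ, x v ^ 2 * x w ^ 2 := by
    rw [hsA, hsB, Finset.sum_mul_sum]
  have hcX : c * X ≤ EE G A Aᶜ + c ^ 2 / 4 * (sA * sB - Q) := by
    have h1 : sA * sB - Q = ∑ v ∈ A, ∑ w ∈ Aᶜ, ad G v w * (x v ^ 2 * x w ^ 2) := by
      rw [hprod, hQ, ← Finset.sum_sub_distrib]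
      apply Finset.sum_congr rfl
      intro v _
      rw [← Finset.sum_sub_distrib]
      exact Finset.sum_congr rfl (fun w _ => by ring)
    rw [h1, hX]
    unfold EE
    rw [Finset.mul_sum, Finset.mul_sum, ← Finset.sum_add_distrib]
    apply Finset.sum_le_sum
    intro v _
    rw [Finset.mul_sum, Finset.mul_sum, ← Finset.sum_add_distrib]
    apply Finset.sum_le_sum
    intro w _
    have h2 := mul_nonneg (ad_nonneg G v w) (sq_nonneg (1 - c * (x v * x w) / 2))
    nlinarith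
  have h7 : c * N = 4 * lam := by rw [hc]; field_simp
  have h8 : c ^ 2 / 4 * (sA * sB - Q) ≤ lam ^ 2 - c ^ 2 / 4 * Q := by
    have h9 : c ^ 2 / 4 * (sA * sB) ≤ c ^ 2 / 4 * (N ^ 2 / 4) :=
      mul_le_mul_of_nonneg_left hAB (by positivity)
    have h10 : c ^ 2 / 4 * (N ^ 2 / 4) = lam ^ 2 := by
      have : c ^ 2 / 4 * (N ^ 2 / 4) = (c * N) ^ 2 / 16 := by ring
      rw [this, h7]
      ring
    have h11 : c ^ 2 / 4 * (sA * sB - Q) = c ^ 2 / 4 * (sA * sB) - c ^ 2 / 4 * Q := by ring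
    linarith
  have hsum : ∀ C : Finset V, ∑ v ∈ C, ∑ w ∈ C, ad G v w * (c * (x v * x w) - 1) =
      c * (∑ v ∈ C, ∑ w ∈ C, ad G v w * (x v * x w)) - EE G C C := by
    intro C
    unfold EE
    rw [Finset.mul_sum, ← Finset.sum_sub_distrib]
    apply Finset.sum_congr rfl
    intro v _
    rw [Finset.mul_sum, ← Finset.sum_sub_distrib]
    exact Finset.sum_congr rfl (fun w _ => by ring)
  rw [hsum, hsum, ← hIA, ← hIB]
  have h12 : c * (lam * N) = 4 * lam ^ 2 := by
    have : c * (lam * N) = lam * (c * N) := by ring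
    rw [this, h7]; ring
  have h13 : c * (lam * N) = c * (IA + IB) + 2 * (c * X) := by rw [htot]; ring
  have h14 : c * (IA + IB) = c * IA + c * IB := by ring
  linarith

/-- an elementary bound for the internal weight of a set -/
lemma half_sum (X : Finset V) : XX G x X X - EE G X X / 2 =
    (∑ v ∈ X, ∑ w ∈ X, ad G v w * (x v + x w - 1)) / 2 := by
  have h1 : XX G x X X = ∑ v ∈ X, ∑ w ∈ X, ad G v w * x v := by
    unfold XX
    rw [Finset.sum_comm]
    exact Finset.sum_congr rfl (fun v _ => Finset.sum_congr rfl (fun w _ => by rw [ad_symm]))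
  have h2 : ∑ v ∈ X, ∑ w ∈ X, ad G v w * (x v + x w - 1) =
      ∑ v ∈ X, ∑ w ∈ X, ad G v w * x v + XX G x X X - EE G X X := by
    unfold XX EE
    rw [← Finset.sum_add_distrib, ← Finset.sum_sub_distrib]
    apply Finset.sum_congr rfl
    intro v _
    rw [← Finset.sum_add_distrib, ← Finset.sum_sub_distrib]
    exact Finset.sum_congr rfl (fun w _ => by ring)
  rw [h2, ← h1]
  ring

lemma half_le (h : Sit G lam x u) (X : Finset V) : XX G x X X - EE G X X / 2 ≤
    (∑ v ∈ X, x v * ∑ w ∈ X, ad G v w * x w) / 2 := by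
  rw [half_sum]
  apply div_le_div_of_nonneg_right _ (by norm_num)
  apply Finset.sum_le_sum
  intro v _
  rw [Finset.mul_sum]
  apply Finset.sum_le_sum
  intro w _
  have h1 := h.x1 v
  have h2 := h.x1 w
  have h3 : 0 ≤ (1 - x v) * (1 - x w) := mul_nonneg (by linarith) (by linarith)
  have h4 : ad G v w * (x v + x w - 1) ≤ ad G v w * (x v * x w) :=
    mul_le_mul_of_nonneg_left (by nlinarith) (ad_nonneg G v w)
  have h5 : x v * (ad G v w * x w) = ad G v w * (x v * x w) := by ring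
  rw [h5]
  exact h4

end Pool.Agent.H35.Wh.WB
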