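import Mathlib
import Pool.Agent.H35.Wh.WA
import Pool.Agent.H35.Wh.WB
import Pool.Agent.H35.Wh.FrD

set_option autoImplicit false

open Finset

namespace Pool.Agent.H35.Wh.WC

open Pool.Agent.H35.Wh.Defs Pool.Agent.H35.Wh.FrB Pool.Agent.H35.Wh.Core
open Pool.Agent.H35.Wh.WA Pool.Agent.H35.Wh.WB Pool.Agent.H35.Wh.FrD

variable {V : Type*} [Fintype V] [DecidableEq V]

/-- a large auxiliary number -/
def rn (k : ℕ) : ℕ := k * (10 ^ 12 * k ^ 6) ^ 3

/-- the standing assumptions -/
structure Bal (G : SimpleGraph V) [DecidableRel G.Adj] (k : ℕ) (K lam : ℝ) (x : V → ℝ) (u : V)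
    (E q : ℝ) : Prop where
  sit : Sit G lam x u
  hk : 3 ≤ k
  hK : K = k
  free : ¬ (wheel (2 * k + 1)).IsContained G
  low : (K - 1) * lam - K ^ 2 ≤ lam ^ 2 - EE G univ univ / 2
  big : 10 ^ 100 * K ^ 100 * 2 ^ (rn k) ≤ lam
  hE : E = 10 ^ 12 * K ^ 6
  hq : lam = E ^ 3 * q

/-- neighbours of `u` -/
def UU (G : SimpleGraph V) [DecidableRel G.Adj] (u : V) : Finset V := rst G u ∅

/-- weight of the non-neighbours in `UU` -/
noncomputable def MM (G : SimpleGraph V) [DecidableRel G.Adj] (x : V → ℝ) (u v : V) : ℝ :=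
  ∑ w ∈ UU G u, (1 - ad G v w) * x w

open Classical in
/-- vertices outside the neighbourhood missing little of it -/
noncomputable def ZZ (G : SimpleGraph V) [DecidableRel G.Adj] (x : V → ℝ) (u : V) (d : ℝ) :
    Finset V := (far G u).filter (fun v => MM G x u v ≤ d)

variable {G : SimpleGraph V} [DecidableRel G.Adj]
variable {k : ℕ} {K lam E q : ℝ} {x : V → ℝ} {u : V}

lemma mem_UU (w : V) : w ∈ UU G u ↔ G.Adj u w := by simp [UU, mem_rst]

lemma mem_ZZ (d : ℝ) (v : V) : v ∈ ZZ G x u d ↔ (v ≠ u ∧ ¬ G.Adj u v) ∧ MM G x u v ≤ d := by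
  simp [ZZ, mem_far]

open Classical in
/-- few vertices have `k` neighbours in a bounded set -/
lemma bad_card (k : ℕ) (hk : 2 ≤ k) (hfree : ¬ (wheel (2 * k + 1)).IsContained G) (P : Finset V)
    (hP : ∀ p ∈ P, G.Adj u p) :
    ((UU G u).filter (fun w => k ≤ (P.filter (G.Adj w)).card)).card ≤ 2 ^ P.card * k := by
  have h1 : (UU G u).filter (fun w => k ≤ (P.filter (G.Adj w)).card) ⊆
      (P.powersetCard k).biUnion (fun I => (UU G u).filter (fun w => ∀ i ∈ I, G.Adj i w)) := by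
    intro w hw
    rw [Finset.mem_filter] at hw
    obtain ⟨I, hI, hIc⟩ := Finset.exists_subset_card_eq hw.2
    rw [Finset.mem_biUnion]
    refine ⟨I, Finset.mem_powersetCard.2 ⟨fun i hi => (Finset.mem_filter.1 (hI hi)).1, hIc⟩, ?_⟩
    exact Finset.mem_filter.2 ⟨hw.1, fun i hi => (Finset.mem_filter.1 (hI hi)).2.symm⟩
  refine (Finset.card_le_card h1).trans ?_
  refine (Finset.card_biUnion_le_card_mul _ _ k ?_).trans ?_
  · intro I hI
    rw [Finset.mem_powersetCard] at hI
    by_contra hcon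
    push Not at hcon
    apply hfree
    apply wheel_K G k hk u I ((UU G u).filter (fun w => ∀ i ∈ I, G.Adj i w)) hI.2 hcon.le
    · exact fun i hi => hP i (hI.1 hi)
    · intro j hj
      exact (mem_UU j).1 (Finset.mem_filter.1 hj).1
    · intro i hi j hj
      exact (Finset.mem_filter.1 hj).2 i hi
  · apply Nat.mul_le_mul_right
    rw [Finset.card_powersetCard]
    exact Nat.choose_le_two_pow _ _

namespace Bal

lemma K3 (b : Bal G k K lam x u E q) : 3 ≤ K := by
  rw [b.hK]; exact_mod_cast b.hk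

lemma K2 (b : Bal G k K lam x u E q) : 2 ≤ K := by linarith [b.K3]

lemma Kpow (b : Bal G k K lam x u E q) (i j : ℕ) (h : i ≤ j) : K ^ i ≤ K ^ j :=
  pow_le_pow_right₀ (by linarith [b.K2]) h

lemma pwB (b : Bal G k K lam x u E q) (j : ℕ) (hj : j ≤ 100) :
    10 ^ 100 * K ^ j * 2 ^ (rn k) ≤ lam := by
  have h1 := b.Kpow j 100 hj
  have h2 := b.big
  have h3 : (10 ^ 100 * K ^ j) * 2 ^ (rn k) ≤ (10 ^ 100 * K ^ 100) * 2 ^ (rn k) := by
    apply mul_le_mul_of_nonneg_right _ (by positivity)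
    exact mul_le_mul_of_nonneg_left h1 (by norm_num)
  linarith

lemma pw (b : Bal G k K lam x u E q) (j : ℕ) (hj : j ≤ 100) : 10 ^ 100 * K ^ j ≤ lam := by
  have h1 := b.pwB j hj
  have h2 : (1 : ℝ) ≤ 2 ^ (rn k) := one_le_pow₀ (by norm_num)
  have h3 : 0 ≤ 10 ^ 100 * K ^ j := by have := b.K2; positivity
  have h4 := mul_le_mul_of_nonneg_left h2 h3
  linarith

lemma lpos (b : Bal G k K lam x u E q) : 0 < lam := by
  have := b.pw 0 (by norm_num)
  linarith

lemma Epos (b : Bal G k K lam x u E q) : 0 < E := by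
  rw [b.hE]
  have := b.K2
  positivity

lemma qpos (b : Bal G k K lam x u E q) : 0 < q := by
  have h1 := b.lpos
  rw [b.hq] at h1
  have h2 : 0 < E ^ 3 := by have := b.Epos; positivity
  exact pos_of_mul_pos_right h1 h2.le

lemma q_eq (b : Bal G k K lam x u E q) : q = lam / E ^ 3 := by
  have h2 : 0 < E ^ 3 := by have := b.Epos; positivity
  rw [eq_div_iff h2.ne', b.hq]; ring

/-- `q` itself is large -/
lemma qbig (b : Bal G k K lam x u E q) (j : ℕ) (hj : j ≤ 80) : 10 ^ 60 * K ^ j ≤ q := by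
  have h1 := b.pw (j + 18) (by omega)
  have hK := b.K2
  have h3 := b.hq
  rw [b.hE] at h3
  have h4 : (10 ^ 36 * K ^ 18) * (10 ^ 60 * K ^ j) ≤ (10 ^ 36 * K ^ 18) * q := by
    have e1 : (10 ^ 36 * K ^ 18) * (10 ^ 60 * K ^ j) = 10 ^ 96 * K ^ (j + 18) := by ring
    have e2 : (10 ^ 36 * K ^ 18) * q = lam := by rw [h3]; ring
    rw [e1, e2]
    refine le_trans ?_ h1
    apply mul_le_mul_of_nonneg_right _ (by positivity)
    norm_num
  exact le_of_mul_le_mul_left h4 (by positivity)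

/-- comparison of `E ^ j` with powers of `K` -/
lemma Ebig (b : Bal G k K lam x u E q) (j : ℕ) (hj : j ≤ 6) : 10 ^ 12 * K ^ j ≤ E := by
  rw [b.hE]
  exact mul_le_mul_of_nonneg_left (b.Kpow j 6 hj) (by norm_num)

lemma sumU (b : Bal G k K lam x u E q) : ∑ w ∈ UU G u, x w = lam := by
  have := sum_U b.sit ∅ (by simp)
  simpa [UU] using this

lemma wsum_le (b : Bal G k K lam x u E q) (P X : Finset V) (hP : ∀ p ∈ P, G.Adj u p)
    (hX : X ⊆ UU G u) :
    ∑ w ∈ X, dg G P w * x w ≤ (K - 1) * lam + P.card * (2 ^ P.card * K) := by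
  classical
  have h0 : ∑ w ∈ X, dg G P w * x w ≤ ∑ w ∈ UU G u, dg G P w * x w :=
    Finset.sum_le_sum_of_subset_of_nonneg hX
      (fun w _ _ => mul_nonneg (dg_nonneg _ _) (b.sit.x0 w))
  refine h0.trans ?_
  have hPc : (0 : ℝ) ≤ (P.card : ℝ) := Nat.cast_nonneg _
  have h1 : ∀ w ∈ UU G u, dg G P w * x w ≤ (K - 1) * x w +
      (if k ≤ (P.filter (G.Adj w)).card then (P.card : ℝ) else 0) := by
    intro w _
    have h2 := b.sit.x0 w
    have h3 := b.sit.x1 w
    split_ifs with h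
    · have h4 : dg G P w ≤ P.card := by
        rw [dg_card]
        exact_mod_cast Finset.card_filter_le _ _
      have h5 : dg G P w * x w ≤ P.card * x w := mul_le_mul_of_nonneg_right h4 h2
      have h6 : (P.card : ℝ) * x w ≤ P.card * 1 := mul_le_mul_of_nonneg_left h3 hPc
      have h7 : 0 ≤ (K - 1) * x w := mul_nonneg (by linarith [b.K2]) h2
      linarith
    · have h4 : dg G P w ≤ K - 1 := by
        rw [dg_card, b.hK]
        have h5 : (P.filter (G.Adj w)).card + 1 ≤ k := by omega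
        have h6 : ((P.filter (G.Adj w)).card : ℝ) + 1 ≤ k := by exact_mod_cast h5
        linarith
      have h5 := mul_le_mul_of_nonneg_right h4 h2
      linarith
  refine (Finset.sum_le_sum h1).trans ?_
  rw [Finset.sum_add_distrib, ← Finset.mul_sum, b.sumU, ← Finset.sum_filter, Finset.sum_const,
    nsmul_eq_mul]
  have h2 := bad_card (G := G) (u := u) k (by have := b.hk; omega) b.free P hP
  have h3 : ((((UU G u).filter (fun w => k ≤ (P.filter (G.Adj w)).card)).card : ℕ) : ℝ) ≤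
      2 ^ P.card * K := by
    rw [b.hK]
    exact_mod_cast h2
  have h4 := mul_le_mul_of_nonneg_left h3 hPc
  linarith

/-- few neighbours of `u` see a positive proportion of the neighbourhood -/
lemma few (b : Bal G k K lam x u E q) (r : ℕ) (t : ℝ) (S : Finset V)
    (hS : ∀ w ∈ S, G.Adj u w ∧ t ≤ ∑ w' ∈ UU G u, ad G w w' * x w')
    (h1 : K * lam ≤ r * t) (h2 : (r : ℝ) * (2 ^ r * K) < lam) : S.card < r := by
  by_contra hcon
  push Not at hcon
  obtain ⟨P, hP, hPc⟩ := Finset.exists_subset_card_eq hcon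
  have h3 := b.wsum_le P (UU G u) (fun p hp => (hS p (hP hp)).1) subset_rfl
  have h4 : ∑ w ∈ UU G u, dg G P w * x w = ∑ p ∈ P, ∑ w ∈ UU G u, ad G p w * x w := by
    rw [Finset.sum_comm]
    apply Finset.sum_congr rfl
    intro w _
    unfold dg
    rw [Finset.sum_mul]
    exact Finset.sum_congr rfl (fun q _ => by rw [ad_symm])
  have h5 : ∑ p ∈ P, t ≤ ∑ p ∈ P, ∑ w ∈ UU G u, ad G p w * x w :=
    Finset.sum_le_sum (fun p hp => (hS p (hP hp)).2)
  rw [Finset.sum_const, nsmul_eq_mul, hPc] at h5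
  rw [hPc, h4] at h3
  linarith

lemma rowsplit (b : Bal G k K lam x u E q) (v : V) : lam * x v = ad G v u +
    ∑ w ∈ UU G u, ad G v w * x w + ∑ w ∈ far G u, ad G v w * x w := by
  rw [← b.sit.ev v, split (G := G) (u := u) ∅ (by simp) (fun w => ad G v w * x w), b.sit.xu,
    mul_one]
  simp [UU]

lemma star0 (b : Bal G k K lam x u E q) : lam ^ 2 - EE G univ univ / 2 =
    (XX G x (UU G u) (UU G u) - EE G (UU G u) (UU G u) / 2)
      - q2 G x (far G u) (UU G u) - EE G (far G u) (far G u) / 2 := by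
  have := Pool.Agent.H35.Wh.FrB.star (G := G) b.sit ∅ (by simp)
  have e1 : XX G x ∅ ∅ = 0 := by simp [XX]
  have e2 : EE G ∅ ∅ = 0 := by simp [EE]
  have e3 : q1 G x ∅ (rst G u ∅) = 0 := by simp [q1]
  have e4 : q2 G x ∅ (rst G u ∅) = 0 := by simp [q2]
  have e5 : q2 G x (far G u) ∅ = 0 := by simp [q2]
  rw [e1, e2, e3, e4, e5] at this
  simp only [Finset.card_empty, Nat.cast_zero] at this
  unfold UU
  linarith

lemma rn_real (b : Bal G k K lam x u E q) : ((rn k : ℕ) : ℝ) = K * E ^ 3 := by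
  unfold rn
  rw [b.hE, b.hK]
  push_cast
  norm_num

lemma rn_le (b : Bal G k K lam x u E q) : ((rn k : ℕ) : ℝ) ≤ q := by
  rw [b.rn_real, b.hE]
  have h1 := b.qbig 19 (by norm_num)
  have hK := b.K2
  have h2 : K * (10 ^ 12 * K ^ 6) ^ 3 = 10 ^ 36 * K ^ 19 := by ring
  rw [h2]
  refine le_trans ?_ h1
  apply mul_le_mul_of_nonneg_right _ (by positivity)
  norm_num

lemma pow_lt (b : Bal G k K lam x u E q) (r : ℕ) (hr : r ≤ rn k) (hr2 : (r : ℝ) ≤ 10 ^ 40 * K ^ 20) :
    (r : ℝ) * (2 ^ r * K) < lam := by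
  have h1 := b.pwB 21 (by norm_num)
  have hK := b.K2
  have h2 : (2 : ℝ) ^ r ≤ 2 ^ (rn k) := pow_le_pow_right₀ (by norm_num) hr
  have h3 : (2 : ℝ) ^ r * K ≤ 2 ^ (rn k) * K := mul_le_mul_of_nonneg_right h2 (by linarith)
  have h4 : (r : ℝ) * (2 ^ r * K) ≤ (10 ^ 40 * K ^ 20) * (2 ^ (rn k) * K) :=
    mul_le_mul hr2 h3 (by positivity) (by positivity)
  have h5 : (10 ^ 40 * K ^ 20) * (2 ^ (rn k) * K) = 10 ^ 40 * (K ^ 21 * 2 ^ (rn k)) := by ring
  have h6 : 0 < K ^ 21 * 2 ^ (rn k) := by positivity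
  have h7 : (10 : ℝ) ^ 40 * (K ^ 21 * 2 ^ (rn k)) < 10 ^ 100 * (K ^ 21 * 2 ^ (rn k)) := by
    apply mul_lt_mul_of_pos_right _ h6
    norm_num
  linarith

open Classical in
lemma Fh_le (b : Bal G k K lam x u E q) :
    XX G x (UU G u) (UU G u) - EE G (UU G u) (UU G u) / 2 ≤ q * lam := by
  have h0 := half_le (G := G) b.sit (UU G u)
  set S := (UU G u).filter (fun w => q ≤ ∑ w' ∈ UU G u, ad G w w' * x w') with hS
  have hScard : S.card < rn k := by
    apply b.few (rn k) q S
    · intro w hw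
      rw [hS, Finset.mem_filter, mem_UU] at hw
      exact hw
    · rw [b.rn_real, b.hq]
      exact le_of_eq (by ring)
    · apply b.pow_lt _ le_rfl
      rw [b.rn_real, b.hE]
      have hK := b.K2
      have h2 : K * (10 ^ 12 * K ^ 6) ^ 3 = 10 ^ 36 * K ^ 19 := by ring
      rw [h2]
      have h3 := b.Kpow 19 20 (by norm_num)
      have h4 : (0 : ℝ) ≤ K ^ 20 := by positivity
      nlinarith
  have hSR : (S.card : ℝ) ≤ q := by
    have : (S.card : ℝ) ≤ rn k := by exact_mod_cast hScard.le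
    exact this.trans b.rn_le
  have h1 : ∑ v ∈ UU G u, x v * ∑ w ∈ UU G u, ad G v w * x w ≤
      ∑ v ∈ UU G u, (x v * q + (if q ≤ ∑ w' ∈ UU G u, ad G v w' * x w' then lam else 0)) := by
    apply Finset.sum_le_sum
    intro v _
    have h2 := b.sit.x0 v
    have h3 := b.sit.x1 v
    have h4 : ∑ w ∈ UU G u, ad G v w * x w ≤ lam := by
      rw [← b.sumU]
      exact Finset.sum_le_sum (fun w _ => mul_le_of_le_one_left (b.sit.x0 w) (ad_le_one G _ _))
    have h5 : 0 ≤ ∑ w ∈ UU G u, ad G v w * x w :=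
      Finset.sum_nonneg (fun w _ => mul_nonneg (ad_nonneg G v w) (b.sit.x0 w))
    have hq := b.qpos
    split_ifs with h
    · have h6 : x v * ∑ w ∈ UU G u, ad G v w * x w ≤ 1 * lam :=
        mul_le_mul h3 h4 h5 zero_le_one
      have h7 : 0 ≤ x v * q := mul_nonneg h2 hq.le
      linarith
    · push Not at h
      have h6 := mul_le_mul_of_nonneg_left h.le h2
      linarith
  rw [Finset.sum_add_distrib, ← Finset.sum_mul, b.sumU, ← Finset.sum_filter, Finset.sum_const,
    nsmul_eq_mul, ← hS] at h1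
  have h2 := mul_le_mul_of_nonneg_right hSR b.lpos.le
  linarith

/-- the total cost -/
lemma cost (b : Bal G k K lam x u E q) :
    ∑ v ∈ far G u, (dg G (UU G u) v * (1 - x v) + dg G (far G u) v / 2) ≤ q * lam := by
  have h1 := b.star0
  have h2 := b.Fh_le
  have h3 := b.low
  have h4 : ∑ v ∈ far G u, (dg G (UU G u) v * (1 - x v) + dg G (far G u) v / 2) =
      q2 G x (far G u) (UU G u) + EE G (far G u) (far G u) / 2 := by
    rw [Finset.sum_add_distrib, q2_dg, EE_eq, Finset.sum_div]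
  rw [h4]
  have h5 : K ^ 2 ≤ (K - 1) * lam := by
    have h6 := b.K2
    have h7 := b.pw 2 (by norm_num)
    have h8 : 1 * lam ≤ (K - 1) * lam := mul_le_mul_of_nonneg_right (by linarith) b.lpos.le
    have h9 : 0 ≤ K ^ 2 := by positivity
    linarith
  linarith

lemma MM_eq (b : Bal G k K lam x u E q) (v : V) :
    MM G x u v = lam - ∑ w ∈ UU G u, ad G v w * x w := by
  unfold MM
  rw [← b.sumU, ← Finset.sum_sub_distrib]
  exact Finset.sum_congr rfl (fun t _ => by ring)

lemma MM_nonneg (b : Bal G k K lam x u E q) (v : V) : 0 ≤ MM G x u v :=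
  Finset.sum_nonneg (fun w _ => mul_nonneg (by have := ad_le_one G v w; linarith) (b.sit.x0 w))

lemma sum_ad_le (b : Bal G k K lam x u E q) (A : Finset V) (v : V) :
    ∑ w ∈ A, ad G v w * x w ≤ dg G A v :=
  Finset.sum_le_sum (fun w _ => mul_le_of_le_one_right (ad_nonneg G v w) (b.sit.x1 w))

lemma sum_ad_nonneg (b : Bal G k K lam x u E q) (A : Finset V) (v : V) :
    0 ≤ ∑ w ∈ A, ad G v w * x w :=
  Finset.sum_nonneg (fun w _ => mul_nonneg (ad_nonneg G v w) (b.sit.x0 w))

lemma far_row (b : Bal G k K lam x u E q) (v : V) (hv : v ∈ far G u) :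
    lam * (1 - x v) ≤ MM G x u v ∧ MM G x u v ≤ lam * (1 - x v) + dg G (far G u) v ∧
    lam * x v ≤ dg G (UU G u) v + dg G (far G u) v := by
  have h1 := b.rowsplit v
  rw [ad_not G v u (fun h' => ((mem_far v).1 hv).2 h'.symm)] at h1
  have h2 := b.MM_eq v
  have h3 := b.sum_ad_le (far G u) v
  have h4 := b.sum_ad_nonneg (far G u) v
  have h5 := b.sum_ad_le (UU G u) v
  refine ⟨by linarith, by linarith, by linarith⟩

/-- the weight of the far vertices outside `ZZ` is small -/
lemma wt_rest (b : Bal G k K lam x u E q) :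
    ∑ v ∈ far G u \ ZZ G x u (lam / (4 * K)), x v ≤ 16 * K * q := by
  have hK := b.K2
  have hl := b.lpos
  have h1 : ∀ v ∈ far G u \ ZZ G x u (lam / (4 * K)),
      lam / (16 * K) * x v ≤ dg G (UU G u) v * (1 - x v) + dg G (far G u) v / 2 := by
    intro v hv
    rw [Finset.mem_sdiff, mem_ZZ] at hv
    have hvf := hv.1
    have hM : lam / (4 * K) < MM G x u v := by
      by_contra hcon
      push Not at hcon
      exact hv.2 ⟨(mem_far v).1 hvf, hcon⟩
    obtain ⟨h2, h3, h4⟩ := b.far_row v hvf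
    have h5 := dg_nonneg (G := G) (UU G u) v
    have h6 := dg_nonneg (G := G) (far G u) v
    have h7 := b.sit.x1 v
    have h8 := b.sit.x0 v
    have e1 : lam / (4 * K) = 4 * (lam / (16 * K)) := by field_simp; norm_num
    rw [e1] at hM
    set t := lam / (16 * K) with ht
    have ht0 : 0 < t := by rw [ht]; positivity
    have htl : t * (16 * K) = lam := by rw [ht]; field_simp
    by_cases hc : 2 * t ≤ dg G (far G u) v
    · have h9 : 0 ≤ dg G (UU G u) v * (1 - x v) := mul_nonneg h5 (by linarith)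
      have h10 : t * x v ≤ t * 1 := mul_le_mul_of_nonneg_left h7 ht0.le
      linarith
    · push Not at hc
      -- lam (1 - x v) ≥ 2 t
      have h9 : 2 * t ≤ lam * (1 - x v) := by linarith
      -- 1 - x v ≥ 1 / (8K)
      have h10 : 1 / (8 * K) ≤ 1 - x v := by
        rw [div_le_iff₀ (by positivity)]
        have h11 : 2 * t ≤ t * (16 * K) * (1 - x v) := by rw [htl]; exact h9
        have h12 : t * 2 ≤ t * (16 * K * (1 - x v)) := by linarith
        have h13 := le_of_mul_le_mul_left h12 ht0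
        linarith
      have h14 : dg G (UU G u) v * (1 / (8 * K)) ≤ dg G (UU G u) v * (1 - x v) :=
        mul_le_mul_of_nonneg_left h10 h5
      have h15 : dg G (far G u) v * (1 / (8 * K)) ≤ dg G (far G u) v / 2 := by
        have : 1 / (8 * K) ≤ 1 / 2 := by
          apply one_div_le_one_div_of_le <;> linarith
        have := mul_le_mul_of_nonneg_left this h6
        linarith
      have h16 : t * x v ≤ (1 / (8 * K)) * (lam * x v) := by
        have e2 : (1 / (8 * K)) * (lam * x v) = 2 * (t * x v) := by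
          rw [← htl]; field_simp; ring
        rw [e2]
        have : 0 ≤ t * x v := mul_nonneg ht0.le h8
        linarith
      have h17 : (1 / (8 * K)) * (lam * x v) ≤
          (1 / (8 * K)) * (dg G (UU G u) v + dg G (far G u) v) :=
        mul_le_mul_of_nonneg_left h4 (by positivity)
      linarith
  have h2 : ∑ v ∈ far G u \ ZZ G x u (lam / (4 * K)), lam / (16 * K) * x v ≤ q * lam := by
    refine (Finset.sum_le_sum h1).trans ?_
    refine le_trans ?_ b.cost
    apply Finset.sum_le_sum_of_subset_of_nonneg Finset.sdiff_subset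
    intro v hv _
    have h5 := dg_nonneg (G := G) (UU G u) v
    have h6 := dg_nonneg (G := G) (far G u) v
    have h7 := b.sit.x1 v
    have : 0 ≤ dg G (UU G u) v * (1 - x v) := mul_nonneg h5 (by linarith)
    linarith
  rw [← Finset.mul_sum] at h2
  have h3 : lam * ∑ v ∈ far G u \ ZZ G x u (lam / (4 * K)), x v ≤ lam * (16 * K * q) := by
    have e1 : lam / (16 * K) * ∑ v ∈ far G u \ ZZ G x u (lam / (4 * K)), x v =
      (lam * ∑ v ∈ far G u \ ZZ G x u (lam / (4 * K)), x v) / (16 * K) := by ring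
    rw [e1, div_le_iff₀ (by positivity)] at h2
    linarith
  exact le_of_mul_le_mul_left h3 hl

lemma ZZ_far (d : ℝ) : ZZ G x u d ⊆ far G u := by
  intro v hv
  rw [mem_ZZ] at hv
  exact (mem_far v).2 hv.1

/-- the total missing weight and deficiency of `ZZ` -/
lemma ZZ_sums (b : Bal G k K lam x u E q) :
    ∑ v ∈ ZZ G x u (lam / (4 * K)), MM G x u v ≤ 2 * q * lam ∧
    ∑ v ∈ ZZ G x u (lam / (4 * K)), (1 - x v) ≤ 2 * q ∧
    ∀ v ∈ ZZ G x u (lam / (4 * K)), lam / 2 ≤ ∑ w ∈ UU G u, ad G v w * x w := by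
  have hK := b.K2
  have hl := b.lpos
  have h0 : lam / (4 * K) ≤ lam / 2 := by
    apply div_le_div_of_nonneg_left hl.le (by norm_num)
    linarith
  have hU : ∀ v ∈ ZZ G x u (lam / (4 * K)), lam / 2 ≤ ∑ w ∈ UU G u, ad G v w * x w := by
    intro v hv
    rw [mem_ZZ] at hv
    have := b.MM_eq v
    linarith [hv.2]
  have h1 : ∀ v ∈ ZZ G x u (lam / (4 * K)),
      lam * (1 - x v) / 2 + dg G (far G u) v / 2 ≤
        dg G (UU G u) v * (1 - x v) + dg G (far G u) v / 2 := by
    intro v hv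
    have h2 := hU v hv
    have h3 := b.sum_ad_le (UU G u) v
    have h4 : lam / 2 * (1 - x v) ≤ dg G (UU G u) v * (1 - x v) :=
      mul_le_mul_of_nonneg_right (by linarith) (by have := b.sit.x1 v; linarith)
    linarith
  have h2 : ∑ v ∈ ZZ G x u (lam / (4 * K)), (lam * (1 - x v) / 2 + dg G (far G u) v / 2) ≤
      q * lam := by
    refine (Finset.sum_le_sum h1).trans ?_
    refine le_trans ?_ b.cost
    apply Finset.sum_le_sum_of_subset_of_nonneg (ZZ_far _)
    intro v hv _
    have h5 := dg_nonneg (G := G) (UU G u) v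
    have h6 := dg_nonneg (G := G) (far G u) v
    have h7 := b.sit.x1 v
    have : 0 ≤ dg G (UU G u) v * (1 - x v) := mul_nonneg h5 (by linarith)
    linarith
  refine ⟨?_, ?_, hU⟩
  · have h3 : ∑ v ∈ ZZ G x u (lam / (4 * K)), MM G x u v ≤
        ∑ v ∈ ZZ G x u (lam / (4 * K)), 2 * (lam * (1 - x v) / 2 + dg G (far G u) v / 2) := by
      apply Finset.sum_le_sum
      intro v hv
      have := (b.far_row v (ZZ_far _ hv)).2.1
      linarith
    rw [← Finset.mul_sum] at h3
    linarith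
  · have h3 : ∑ v ∈ ZZ G x u (lam / (4 * K)), (lam / 2) * (1 - x v) ≤
        ∑ v ∈ ZZ G x u (lam / (4 * K)), (lam * (1 - x v) / 2 + dg G (far G u) v / 2) := by
      apply Finset.sum_le_sum
      intro v hv
      have := dg_nonneg (G := G) (far G u) v
      linarith
    rw [← Finset.mul_sum] at h3
    have h4 : lam * ∑ v ∈ ZZ G x u (lam / (4 * K)), (1 - x v) ≤ lam * (2 * q) := by linarith
    exact le_of_mul_le_mul_left h4 hl

end Bal

end Pool.Agent.H35.Wh.WC
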