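import Mathlib
import Pool.Agent.H35.Wh.WC

set_option autoImplicit false

open Finset

namespace Pool.Agent.H35.Wh.WD

open Pool.Agent.H35.Wh.Defs Pool.Agent.H35.Wh.FrB Pool.Agent.H35.Wh.Core
open Pool.Agent.H35.Wh.WA Pool.Agent.H35.Wh.WB Pool.Agent.H35.Wh.WC

variable {V : Type*} [Fintype V] [DecidableEq V]
variable {G : SimpleGraph V} [DecidableRel G.Adj]
variable {k : ℕ} {K lam E q D : ℝ} {x : V → ℝ} {u : V}

/-- many common neighbours of a set -/
lemma common_card (I X : Finset V) (g : V → ℝ) (hg0 : ∀ v, 0 ≤ g v) (hg1 : ∀ v, g v ≤ 1) :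
    ∑ z ∈ X, g z - ∑ i ∈ I, ∑ z ∈ X, (1 - ad G i z) * g z ≤
      ((X.filter (fun z => ∀ i ∈ I, G.Adj i z)).card : ℝ) := by
  have h2 : ((X.filter (fun z => ∀ i ∈ I, G.Adj i z)).card : ℝ) =
      ∑ z ∈ X, (if ∀ i ∈ I, G.Adj i z then (1 : ℝ) else 0) := by
    rw [Finset.sum_boole]
  rw [h2, Finset.sum_comm, ← Finset.sum_sub_distrib]
  apply Finset.sum_le_sum
  intro z _
  have h0 := hg0 z
  have h1 := hg1 z
  have hnn : ∀ i ∈ I, 0 ≤ (1 - ad G i z) * g z := fun i _ =>
    mul_nonneg (by have := ad_le_one G i z; linarith) h0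
  split_ifs with h
  · have := Finset.sum_nonneg hnn
    linarith
  · push Not at h
    obtain ⟨i, hi, hna⟩ := h
    have h3 := Finset.single_le_sum hnn hi
    rw [ad_not G _ _ hna] at h3
    linarith

/-- missing vertices of `Z` -/
noncomputable def mis (G : SimpleGraph V) [DecidableRel G.Adj] (Z : Finset V) (w : V) : ℝ :=
  ∑ z ∈ Z, (1 - ad G z w)

omit [Fintype V] in
lemma mis_eq (Z : Finset V) (w : V) : mis G Z w = Z.card - dg G Z w := by
  unfold mis dg
  rw [Finset.sum_sub_distrib, Finset.sum_const, nsmul_eq_mul, mul_one]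
  congr 1
  exact Finset.sum_congr rfl (fun z _ => ad_symm G _ _)

omit [Fintype V] [DecidableEq V] in
lemma mis_nonneg (Z : Finset V) (w : V) : 0 ≤ mis G Z w :=
  Finset.sum_nonneg (fun z _ => by have := ad_le_one G z w; linarith)

/-- standing assumptions in the balanced case -/
structure Rich (G : SimpleGraph V) [DecidableRel G.Adj] (k : ℕ) (K lam : ℝ) (x : V → ℝ) (u : V)
    (E q D : ℝ) (Z : Finset V) : Prop where
  b : Bal G k K lam x u E q
  hZ : Z = ZZ G x u (lam / (4 * K))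
  hZc : lam / (8 * K) ≤ Z.card
  hD : D = E ^ 2 * q

open Classical in
/-- typical vertices -/
noncomputable def TT (G : SimpleGraph V) [DecidableRel G.Adj] (Z : Finset V) (D : ℝ) :
    Finset V := univ.filter (fun w => mis G Z w ≤ D)

open Classical in
/-- typical neighbours of `u` -/
noncomputable def Ut (G : SimpleGraph V) [DecidableRel G.Adj] (u : V) (Z : Finset V) (D : ℝ) :
    Finset V := (UU G u).filter (fun w => mis G Z w ≤ D)

lemma mem_TT (Z : Finset V) (D : ℝ) (w : V) : w ∈ TT G Z D ↔ mis G Z w ≤ D := by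
  simp [TT]

lemma mem_Ut (Z : Finset V) (D : ℝ) (w : V) : w ∈ Ut G u Z D ↔ G.Adj u w ∧ mis G Z w ≤ D := by
  simp [Ut, mem_UU]

lemma Ut_TT (Z : Finset V) (D : ℝ) : Ut G u Z D ⊆ TT G Z D := by
  intro w hw
  rw [mem_Ut] at hw
  rw [mem_TT]
  exact hw.2

lemma Ut_UU (Z : Finset V) (D : ℝ) : Ut G u Z D ⊆ UU G u := by
  intro w hw
  rw [mem_Ut] at hw
  exact (mem_UU w).2 hw.1

/-- the unit `q` is small compared with `lam` -/
lemma up (b : Bal G k K lam x u E q) (t : ℝ) (ht : 0 ≤ t) (j : ℕ) (hj : j ≤ 6) :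
    10 ^ 12 * K ^ j * t ≤ E * t :=
  mul_le_mul_of_nonneg_right (b.Ebig j hj) ht

lemma l64 (b : Bal G k K lam x u E q) :
    lam / (8 * K) = 8 * (lam / (64 * K)) ∧ lam / (16 * K) = 4 * (lam / (64 * K)) ∧
      lam / (4 * K) = 16 * (lam / (64 * K)) ∧ 0 < lam / (64 * K) := by
  have hK := b.K2
  have hl := b.lpos
  refine ⟨by field_simp; ring, by field_simp; ring, by field_simp; ring, by positivity⟩

/-- terms of the size of `E ^ 2 * q` are small -/
lemma small2 (b : Bal G k K lam x u E q) (t : ℝ) (ht : t ≤ 10 ^ 10 * K ^ 3 * (E ^ 2 * q)) :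
    t ≤ lam / (64 * K) := by
  have hK := b.K2
  have hq := b.qpos
  have hE := b.Epos
  rw [le_div_iff₀ (by positivity)]
  have hD : 0 ≤ E ^ 2 * q := by positivity
  have h1 := up b (E ^ 2 * q) hD 4 (by norm_num)
  have h2 : t * (64 * K) ≤ 10 ^ 10 * K ^ 3 * (E ^ 2 * q) * (64 * K) :=
    mul_le_mul_of_nonneg_right ht (by positivity)
  have h3 : 0 ≤ K ^ 4 * (E ^ 2 * q) := by positivity
  have h4 : 10 ^ 10 * K ^ 3 * (E ^ 2 * q) * (64 * K) = 64 * 10 ^ 10 * (K ^ 4 * (E ^ 2 * q)) := by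
    ring
  have h5 : lam = E * (E ^ 2 * q) := by rw [b.hq]; ring
  rw [h4] at h2
  rw [h5]
  norm_num at h1 h2 ⊢
  linarith

lemma q_le_E2 (b : Bal G k K lam x u E q) : 10 ^ 24 * K ^ 12 * q = E ^ 2 * q := by
  rw [b.hE]; ring

/-- terms of the size of `q` are small -/
lemma small0 (b : Bal G k K lam x u E q) (t : ℝ) (ht : t ≤ 10 ^ 20 * K ^ 12 * q) :
    t ≤ lam / (64 * K) := by
  apply small2 b
  refine ht.trans ?_
  have h1 := q_le_E2 b
  have hK := b.K2
  have hq := b.qpos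
  have h2 : 0 ≤ K ^ 12 * q := by positivity
  have h3 : 1 ≤ K ^ 3 := one_le_pow₀ (by linarith)
  have h4 : 0 ≤ E ^ 2 * q := by rw [← h1]; positivity
  have h5 : 1 * (E ^ 2 * q) ≤ K ^ 3 * (E ^ 2 * q) := mul_le_mul_of_nonneg_right h3 h4
  nlinarith

namespace Rich

variable {Z : Finset V}

/-- existence from a rich vertex -/
lemma of_rich (b : Bal G k K lam x u E q) (w1 : V)
    (hw : lam / (4 * K) ≤ ∑ v ∈ far G u, ad G w1 v * x v) :
    Rich G k K lam x u E q (E ^ 2 * q) (ZZ G x u (lam / (4 * K))) := by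
  refine ⟨b, rfl, ?_, rfl⟩
  have hK := b.K2
  have hq := b.qpos
  have h1 := b.wt_rest
  set Z := ZZ G x u (lam / (4 * K)) with hZ
  have h2 : ∑ v ∈ far G u, ad G w1 v * x v =
      ∑ v ∈ far G u \ Z, ad G w1 v * x v + ∑ v ∈ Z, ad G w1 v * x v := by
    rw [Finset.sum_sdiff (Bal.ZZ_far (G := G) (x := x) (u := u) _)]
  have h3 : ∑ v ∈ far G u \ Z, ad G w1 v * x v ≤ ∑ v ∈ far G u \ Z, x v :=
    Finset.sum_le_sum (fun v _ => mul_le_of_le_one_left (b.sit.x0 v) (ad_le_one G _ _))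
  have h4 : ∑ v ∈ Z, ad G w1 v * x v ≤ Z.card := by
    calc ∑ v ∈ Z, ad G w1 v * x v ≤ ∑ v ∈ Z, (1:ℝ) :=
          Finset.sum_le_sum (fun v _ => mul_le_one₀ (ad_le_one G _ _) (b.sit.x0 v) (b.sit.x1 v))
      _ = Z.card := by simp
  obtain ⟨e1, e2, e3, e4⟩ := l64 b
  have h6 : 16 * K * q ≤ lam / (64 * K) := by
    apply small0 b
    have h7 := b.Kpow 1 12 (by norm_num)
    rw [pow_one] at h7
    have h8 := mul_le_mul_of_nonneg_right h7 hq.le
    have h9 : 0 ≤ K ^ 12 * q := by positivity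
    linarith
  linarith

lemma hK (r : Rich G k K lam x u E q D Z) : 2 ≤ K := r.b.K2

lemma lpos (r : Rich G k K lam x u E q D Z) : 0 < lam := r.b.lpos

lemma Dpos (r : Rich G k K lam x u E q D Z) : 0 < D := by
  have h1 := r.b.qpos
  have h2 := r.b.Epos
  rw [r.hD]; positivity

lemma lam_D (r : Rich G k K lam x u E q D Z) : lam = E * D := by
  rw [r.hD, r.b.hq]; ring

lemma D_q1 (r : Rich G k K lam x u E q D Z) : D = E * (E * q) := by
  rw [r.hD]; ring

lemma sumMM (r : Rich G k K lam x u E q D Z) : ∑ v ∈ Z, MM G x u v ≤ 2 * q * lam := by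
  rw [r.hZ]; exact r.b.ZZ_sums.1

lemma sum1 (r : Rich G k K lam x u E q D Z) : ∑ v ∈ Z, (1 - x v) ≤ 2 * q := by
  rw [r.hZ]; exact r.b.ZZ_sums.2.1

lemma mm_le (r : Rich G k K lam x u E q D Z) (z : V) (hz : z ∈ Z) : MM G x u z ≤ lam / (4 * K) := by
  rw [r.hZ, mem_ZZ] at hz
  exact hz.2

lemma z_far (r : Rich G k K lam x u E q D Z) (z : V) (hz : z ∈ Z) : z ≠ u ∧ ¬ G.Adj u z := by
  rw [r.hZ, mem_ZZ] at hz
  exact hz.1

/-- `|Z|` is at most the square sum plus a small term -/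
lemma card_le_sq (r : Rich G k K lam x u E q D Z) : (Z.card : ℝ) ≤ ∑ v ∈ Z, x v ^ 2 + 4 * q := by
  have h1 : ∑ v ∈ Z, (1 - 2 * (1 - x v)) ≤ ∑ v ∈ Z, x v ^ 2 :=
    Finset.sum_le_sum (fun v _ => by nlinarith [sq_nonneg (1 - x v)])
  rw [Finset.sum_sub_distrib, Finset.sum_const, nsmul_eq_mul, mul_one, ← Finset.mul_sum] at h1
  have := r.sum1
  linarith

lemma q_small (r : Rich G k K lam x u E q D Z) : 10 ^ 10 * K * q ≤ lam / (64 * K) := by
  apply small0 r.b
  have hK := r.hK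
  have hq := r.b.qpos
  have h7 := r.b.Kpow 1 12 (by norm_num)
  rw [pow_one] at h7
  have h8 := mul_le_mul_of_nonneg_right h7 hq.le
  have h9 : 0 ≤ K ^ 12 * q := by positivity
  linarith

lemma qK (r : Rich G k K lam x u E q D Z) : q ≤ K * q := by
  have hK := r.hK
  have hq := r.b.qpos
  nlinarith

lemma N_ge (r : Rich G k K lam x u E q D Z) : lam / (16 * K) ≤ ∑ v, x v ^ 2 := by
  have h1 := r.card_le_sq
  have h2 : ∑ v ∈ Z, x v ^ 2 ≤ ∑ v, x v ^ 2 :=
    Finset.sum_le_sum_of_subset_of_nonneg (Finset.subset_univ _) (fun v _ _ => sq_nonneg _)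
  have h3 := r.hZc
  have h5 := r.q_small
  have h6 := r.qK
  have hq := r.b.qpos
  obtain ⟨e1, e2, e3, e4⟩ := l64 r.b
  linarith

lemma mis_sum (r : Rich G k K lam x u E q D Z) :
    ∑ w ∈ UU G u, x w * mis G Z w ≤ 2 * q * lam := by
  refine le_trans (le_of_eq ?_) r.sumMM
  unfold mis MM
  simp only [Finset.mul_sum]
  rw [Finset.sum_comm]
  exact Finset.sum_congr rfl (fun z _ => Finset.sum_congr rfl (fun w _ => by ring))

/-- counting vertices with a large entry and many missing vertices -/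
lemma count (r : Rich G k K lam x u E q D Z) (S : Finset V) (hS : ∀ w ∈ S, G.Adj u w) (a m : ℝ)
    (ha : 0 ≤ a) (hm : 0 ≤ m) (h : ∀ w ∈ S, a ≤ x w ∧ m ≤ mis G Z w) :
    (S.card : ℝ) * (a * m) ≤ 2 * q * lam := by
  refine le_trans ?_ r.mis_sum
  have h1 : (S.card : ℝ) * (a * m) = ∑ w ∈ S, a * m := by
    rw [Finset.sum_const, nsmul_eq_mul]
  rw [h1]
  have h2 : ∑ w ∈ S, a * m ≤ ∑ w ∈ S, x w * mis G Z w :=
    Finset.sum_le_sum (fun w hw => mul_le_mul (h w hw).1 (h w hw).2 hm (r.b.sit.x0 w))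
  refine h2.trans ?_
  apply Finset.sum_le_sum_of_subset_of_nonneg
  · intro w hw
    exact (mem_UU w).2 (hS w hw)
  · intro w _ _
    exact mul_nonneg (r.b.sit.x0 w) (mis_nonneg Z w)

lemma wt_Ut (r : Rich G k K lam x u E q D Z) :
    ∑ w ∈ UU G u \ Ut G u Z D, x w ≤ 2 * (E * q) := by
  have h0 : D * ∑ w ∈ UU G u \ Ut G u Z D, x w ≤ 2 * q * lam := by
    refine le_trans ?_ r.mis_sum
    rw [Finset.mul_sum]
    have h2 : ∑ w ∈ UU G u \ Ut G u Z D, D * x w ≤
        ∑ w ∈ UU G u \ Ut G u Z D, x w * mis G Z w := by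
      apply Finset.sum_le_sum
      intro w hw
      rw [Finset.mem_sdiff, mem_UU, mem_Ut, not_and] at hw
      have h3 := hw.2 hw.1
      push Not at h3
      have := mul_le_mul_of_nonneg_left h3.le (r.b.sit.x0 w)
      linarith
    refine h2.trans ?_
    apply Finset.sum_le_sum_of_subset_of_nonneg Finset.sdiff_subset
    intro w _ _
    exact mul_nonneg (r.b.sit.x0 w) (mis_nonneg Z w)
  have h1 : D * ∑ w ∈ UU G u \ Ut G u Z D, x w ≤ D * (2 * (E * q)) := by
    refine h0.trans (le_of_eq ?_)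
    rw [r.lam_D]; ring
  exact le_of_mul_le_mul_left h1 r.Dpos

/-- `E * q` is small -/
lemma q1_small (r : Rich G k K lam x u E q D Z) : 10 ^ 10 * K ^ 3 * (E * q) ≤ lam / (64 * K) := by
  have hK := r.hK
  have hq := r.b.qpos
  have hE := r.b.Epos
  apply small2 r.b
  have h1 := up r.b (E * q) (by positivity) 0 (by norm_num)
  have h2 : E * q ≤ E ^ 2 * q := by
    have : 0 ≤ E * q := by positivity
    have e : E ^ 2 * q = E * (E * q) := by ring
    rw [e]
    norm_num at h1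
    linarith
  exact mul_le_mul_of_nonneg_left h2 (by positivity)

lemma D_small (r : Rich G k K lam x u E q D Z) : 10 ^ 10 * K ^ 3 * D ≤ lam / (64 * K) := by
  apply small2 r.b
  rw [r.hD]

lemma lam_ge (r : Rich G k K lam x u E q D Z) : 10 ^ 12 * K ^ 6 * D ≤ lam := by
  have := up r.b D r.Dpos.le 6 le_rfl
  rw [← r.lam_D] at this
  exact this

lemma D_ge (r : Rich G k K lam x u E q D Z) : 10 ^ 12 * K ^ 6 * (E * q) ≤ D := by
  have hq := r.b.qpos
  have hE := r.b.Epos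
  have := up r.b (E * q) (by positivity) 6 le_rfl
  rw [← r.D_q1] at this
  exact this

lemma q1_ge (r : Rich G k K lam x u E q D Z) : 10 ^ 12 * K ^ 6 * q ≤ E * q :=
  up r.b q r.b.qpos.le 6 le_rfl

/-- entries of typical vertices -/
lemma TT_x (r : Rich G k K lam x u E q D Z) (w : V) (hw : w ∈ TT G Z D) : 1 / (16 * K) ≤ x w := by
  have hK := r.hK
  rw [mem_TT] at hw
  have h1 := r.b.rowsplit w
  have h2 : ∑ z ∈ Z, ad G w z * x z ≤ ∑ z ∈ far G u, ad G w z * x z := by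
    apply Finset.sum_le_sum_of_subset_of_nonneg
    · rw [r.hZ]; exact Bal.ZZ_far _
    · intro z _ _
      exact mul_nonneg (ad_nonneg G _ _) (r.b.sit.x0 z)
  have h3 : dg G Z w - ∑ z ∈ Z, (1 - x z) ≤ ∑ z ∈ Z, ad G w z * x z := by
    unfold dg
    rw [← Finset.sum_sub_distrib]
    apply Finset.sum_le_sum
    intro z _
    have h4 := ad_le_one G w z
    have h5 := r.b.sit.x1 z
    nlinarith
  have h4 := r.sum1
  have h5 := mis_eq (G := G) Z w
  have h6 := r.b.sum_ad_nonneg (UU G u) w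
  have h7 := ad_nonneg G w u
  have h8 := r.hZc
  obtain ⟨e1, e2, e3, e4⟩ := l64 r.b
  have h10 := r.q_small
  have h11 := r.qK
  have hq := r.b.qpos
  have h12' := r.D_small
  have hD := r.Dpos
  have hK3 : 1 ≤ K ^ 3 := one_le_pow₀ (by linarith)
  have h12'' : 1 * D ≤ K ^ 3 * D := mul_le_mul_of_nonneg_right hK3 hD.le
  have h12 : lam / (16 * K) ≤ lam * x w := by
    linarith
  have h13 : lam * (1 / (16 * K)) ≤ lam * x w := by
    have : lam * (1 / (16 * K)) = lam / (16 * K) := by ring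
    linarith
  exact le_of_mul_le_mul_left h13 r.b.lpos

/-- the dichotomy -/
lemma dich (r : Rich G k K lam x u E q D Z) (v : V)
    (hv : k ≤ ((TT G Z D).filter (G.Adj v)).card) : dg G Z v ≤ K * D + K := by
  by_contra hcon
  push Not at hcon
  obtain ⟨I, hI, hIc⟩ := Finset.exists_subset_card_eq hv
  have hI' : ∀ i ∈ I, i ∈ TT G Z D ∧ G.Adj v i := fun i hi => Finset.mem_filter.1 (hI hi)
  have hvI : v ∉ I := fun h => (hI' v h).2.ne rfl
  have h1 := common_card (G := G) (insert v I) Z (fun _ => 1) (fun _ => zero_le_one)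
    (fun _ => le_rfl)
  rw [Finset.sum_insert hvI] at h1
  simp only [mul_one, Finset.sum_const, nsmul_eq_mul] at h1
  have h2 : ∑ z ∈ Z, (1 - ad G v z) = Z.card - dg G Z v := by
    rw [Finset.sum_sub_distrib, Finset.sum_const, nsmul_eq_mul, mul_one]; rfl
  have h3 : ∑ i ∈ I, ∑ z ∈ Z, (1 - ad G i z) ≤ K * D := by
    have h4 : ∑ i ∈ I, ∑ z ∈ Z, (1 - ad G i z) ≤ ∑ i ∈ I, D := by
      apply Finset.sum_le_sum
      intro i hi
      have h5 := (mem_TT Z D i).1 (hI' i hi).1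
      unfold mis at h5
      refine le_trans (le_of_eq ?_) h5
      exact Finset.sum_congr rfl (fun z _ => by rw [ad_symm])
    rw [Finset.sum_const, nsmul_eq_mul, hIc, ← r.b.hK] at h4
    exact h4
  rw [h2] at h1
  have h6 : (k : ℝ) < ((Z.filter (fun z => ∀ i ∈ insert v I, G.Adj i z)).card : ℝ) := by
    rw [← r.b.hK]; linarith
  have h7 : k ≤ (Z.filter (fun z => ∀ i ∈ insert v I, G.Adj i z)).card := by
    have : k < (Z.filter (fun z => ∀ i ∈ insert v I, G.Adj i z)).card := by exact_mod_cast h6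
    omega
  apply r.b.free
  apply wheel_K G k (by have := r.b.hk; omega) v I _ hIc h7 (fun i hi => (hI' i hi).2)
  · intro j hj
    exact (Finset.mem_filter.1 hj).2 v (Finset.mem_insert_self _ _)
  · intro i hi j hj
    exact (Finset.mem_filter.1 hj).2 i (Finset.mem_insert_of_mem hi)

lemma one_le_D (r : Rich G k K lam x u E q D Z) : 1 ≤ q ∧ q ≤ D := by
  have hK := r.hK
  have h1 := r.b.qbig 0 (by norm_num)
  have h2 := r.D_ge
  have h3 := r.q1_ge
  have hq := r.b.qpos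
  have hK6 : 1 ≤ K ^ 6 := one_le_pow₀ (by linarith)
  have hq1 : 0 ≤ E * q := by have := r.b.Epos; positivity
  have h4 : 1 * q ≤ K ^ 6 * q := mul_le_mul_of_nonneg_right hK6 hq.le
  have h5 : 1 * (E * q) ≤ K ^ 6 * (E * q) := mul_le_mul_of_nonneg_right hK6 hq1
  norm_num at h1
  constructor
  · linarith
  · linarith

lemma KD (r : Rich G k K lam x u E q D Z) : K * D + K + D ≤ lam / (64 * K) := by
  have hK := r.hK
  have h1 := r.D_small
  have hD := r.Dpos
  obtain ⟨h2, h3⟩ := r.one_le_D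
  have hK3 : K ≤ K ^ 3 := by
    have := r.b.Kpow 1 3 (by norm_num)
    rwa [pow_one] at this
  have h4 : K * D ≤ K ^ 3 * D := mul_le_mul_of_nonneg_right hK3 hD.le
  have h5 : 1 * D ≤ K * D := mul_le_mul_of_nonneg_right (by linarith) hD.le
  have h6 : K * 1 ≤ K * D := mul_le_mul_of_nonneg_left (by linarith) (by linarith)
  linarith

/-- typical vertices have few typical neighbours -/
lemma TT_deg (r : Rich G k K lam x u E q D Z) (w : V)
    (hw : w ∈ TT G Z D) : ((TT G Z D).filter (G.Adj w)).card < k := by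
  by_contra hcon
  push Not at hcon
  have h1 := r.dich w hcon
  have h2 := mis_eq (G := G) Z w
  have h3 := (mem_TT Z D w).1 hw
  have h4 := r.hZc
  have h5 := r.KD
  obtain ⟨e1, e2, e3, e4⟩ := l64 r.b
  linarith

lemma Ut_deg (r : Rich G k K lam x u E q D Z) (w : V)
    (hw : w ∈ TT G Z D) : ((Ut G u Z D).filter (G.Adj w)).card < k :=
  lt_of_le_of_lt (Finset.card_le_card (Finset.filter_subset_filter _ (Ut_TT Z D)))
    (r.TT_deg w hw)

lemma wt_quarter (r : Rich G k K lam x u E q D Z) :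
    ∑ w ∈ UU G u \ Ut G u Z D, x w ≤ lam / 1000 := by
  have h1 := r.wt_Ut
  have h2 := r.q1_small
  have hK := r.hK
  have hq1 : 0 ≤ E * q := by have := r.b.Epos; have := r.b.qpos; positivity
  have hK3 : 1 ≤ K ^ 3 := one_le_pow₀ (by linarith)
  have h5 : 1 * (E * q) ≤ K ^ 3 * (E * q) := mul_le_mul_of_nonneg_right hK3 hq1
  have h6 : lam / (64 * K) ≤ lam / 100 := by
    apply div_le_div_of_nonneg_left r.lpos.le (by norm_num)
    linarith
  linarith

/-- vertices of `Z` have many typical neighbours -/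
lemma Z_deg (r : Rich G k K lam x u E q D Z) (z : V) (hz : z ∈ Z) :
    k ≤ ((TT G Z D).filter (G.Adj z)).card := by
  refine le_trans ?_ (Finset.card_le_card (Finset.filter_subset_filter (G.Adj z)
    (Ut_TT (G := G) (u := u) Z D)))
  have hK := r.hK
  have hl := r.b.lpos
  have h1 := r.mm_le z hz
  have h2 := r.b.MM_eq z
  have h3 := r.wt_quarter
  have hsub : Ut G u Z D ⊆ UU G u := Ut_UU Z D
  have h4 : ∑ w ∈ UU G u, ad G z w * x w =
      ∑ w ∈ UU G u \ Ut G u Z D, ad G z w * x w + ∑ w ∈ Ut G u Z D, ad G z w * x w := by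
    rw [Finset.sum_sdiff hsub]
  have h5 : ∑ w ∈ UU G u \ Ut G u Z D, ad G z w * x w ≤ ∑ w ∈ UU G u \ Ut G u Z D, x w :=
    Finset.sum_le_sum (fun v _ => mul_le_of_le_one_left (r.b.sit.x0 v) (ad_le_one G _ _))
  have h7 : ∑ w ∈ Ut G u Z D, ad G z w * x w ≤ (((Ut G u Z D).filter (G.Adj z)).card : ℝ) := by
    calc ∑ w ∈ Ut G u Z D, ad G z w * x w ≤ ∑ w ∈ Ut G u Z D, ad G z w :=
          Finset.sum_le_sum (fun v _ => mul_le_of_le_one_right (ad_nonneg G _ _) (r.b.sit.x1 v))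
      _ = (((Ut G u Z D).filter (G.Adj z)).card : ℝ) := by
          unfold ad; rw [Finset.sum_boole]
  have h8 : lam / (4 * K) ≤ lam / 4 := by
    apply div_le_div_of_nonneg_left hl.le (by norm_num)
    linarith
  have h9 : K ≤ lam / 4 := by
    have := r.b.pw 1 (by norm_num)
    rw [pow_one] at this
    linarith
  have h10 : (k : ℝ) ≤ (((Ut G u Z D).filter (G.Adj z)).card : ℝ) := by
    rw [← r.b.hK]; linarith
  exact_mod_cast h10

/-- vertices of `Z` have few neighbours in `Z` -/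
lemma Z_Z (r : Rich G k K lam x u E q D Z) (z : V) (hz : z ∈ Z) :
    (Z.filter (G.Adj z)).card < k := by
  by_contra hcon
  push Not at hcon
  have hK := r.hK
  have hl := r.b.lpos
  obtain ⟨I, hI, hIc⟩ := Finset.exists_subset_card_eq hcon
  have hI' : ∀ i ∈ I, i ∈ Z ∧ G.Adj z i := fun i hi => Finset.mem_filter.1 (hI hi)
  have hzI : z ∉ I := fun h => (hI' z h).2.ne rfl
  have h1 := common_card (G := G) (insert z I) (UU G u) x r.b.sit.x0 r.b.sit.x1
  rw [Finset.sum_insert hzI, r.b.sumU] at h1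
  have h2 : ∑ w ∈ UU G u, (1 - ad G z w) * x w ≤ lam / (4 * K) := r.mm_le z hz
  have h3 : ∑ i ∈ I, ∑ w ∈ UU G u, (1 - ad G i w) * x w ≤ lam / 4 := by
    have h4 : ∑ i ∈ I, ∑ w ∈ UU G u, (1 - ad G i w) * x w ≤ ∑ i ∈ I, lam / (4 * K) :=
      Finset.sum_le_sum (fun i hi => r.mm_le i (hI' i hi).1)
    rw [Finset.sum_const, nsmul_eq_mul, hIc, ← r.b.hK] at h4
    have h5 : K * (lam / (4 * K)) = lam / 4 := by field_simp
    linarith
  have h8 : lam / (4 * K) ≤ lam / 4 := by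
    apply div_le_div_of_nonneg_left hl.le (by norm_num)
    linarith
  have h9 : K + 1 ≤ lam / 2 := by
    have := r.b.pw 1 (by norm_num)
    rw [pow_one] at this
    linarith
  have h10 : ((k : ℕ) : ℝ) ≤
      (((UU G u).filter (fun w => ∀ i ∈ insert z I, G.Adj i w)).card : ℝ) := by
    rw [← r.b.hK]; linarith
  have h11 : k ≤ ((UU G u).filter (fun w => ∀ i ∈ insert z I, G.Adj i w)).card := by
    exact_mod_cast h10
  apply r.b.free
  apply wheel_K G k (by have := r.b.hk; omega) z I _ hIc h11 (fun i hi => (hI' i hi).2)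
  · intro j hj
    exact (Finset.mem_filter.1 hj).2 z (Finset.mem_insert_self _ _)
  · intro i hi j hj
    exact (Finset.mem_filter.1 hj).2 i (Finset.mem_insert_of_mem hi)

end Rich

end Pool.Agent.H35.Wh.WD
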