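import Mathlib
import Pool.Agent.H35.Wh.WD

set_option autoImplicit false

open Finset

namespace Pool.Agent.H35.Wh.WE

open Pool.Agent.H35.Wh.Defs Pool.Agent.H35.Wh.FrB Pool.Agent.H35.Wh.Core
open Pool.Agent.H35.Wh.WA Pool.Agent.H35.Wh.WB Pool.Agent.H35.Wh.WC Pool.Agent.H35.Wh.WD

variable {V : Type*} [Fintype V] [DecidableEq V]
variable {G : SimpleGraph V} [DecidableRel G.Adj]
variable {k : ℕ} {K lam E q D c N : ℝ} {x : V → ℝ} {u : V} {Z : Finset V}

/-- the side of `Z` -/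
noncomputable def AA (G : SimpleGraph V) [DecidableRel G.Adj] (k : ℕ) (Z : Finset V)
    (D : ℝ) : Finset V := univ.filter (fun v => k ≤ ((TT G Z D).filter (G.Adj v)).card)

lemma mem_AA (D : ℝ) (v : V) :
    v ∈ AA G k Z D ↔ k ≤ ((TT G Z D).filter (G.Adj v)).card := by simp [AA]

/-- positive part of the weight of an internal edge -/
noncomputable def ph (c : ℝ) (x : V → ℝ) (v w : V) : ℝ := max (c * (x v * x w) - 1) 0

/-- final parameters -/
structure Par (G : SimpleGraph V) [DecidableRel G.Adj] (k : ℕ) (K lam : ℝ) (x : V → ℝ) (u : V)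
    (E q D : ℝ) (Z : Finset V) (c N : ℝ) : Prop where
  r : Rich G k K lam x u E q D Z
  hN : N = ∑ v, x v ^ 2
  hc : c = 4 * lam / N

/-- total positive weight between two sets -/
noncomputable def SP (G : SimpleGraph V) [DecidableRel G.Adj] (c : ℝ) (x : V → ℝ)
    (A B : Finset V) : ℝ := ∑ v ∈ A, ∑ w ∈ B, ad G v w * ph c x v w

omit [Fintype V] [DecidableEq V] in
lemma SP_nonneg (c : ℝ) (A B : Finset V) : 0 ≤ SP G c x A B :=
  Finset.sum_nonneg (fun v _ => Finset.sum_nonneg (fun w _ =>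
    mul_nonneg (ad_nonneg G v w) (le_max_right _ _)))

omit [Fintype V] [DecidableEq V] in
lemma SP_comm (c : ℝ) (A B : Finset V) : SP G c x A B = SP G c x B A := by
  unfold SP
  rw [Finset.sum_comm]
  exact Finset.sum_congr rfl (fun v _ => Finset.sum_congr rfl (fun w _ => by
    rw [ad_symm]; unfold ph; rw [mul_comm (x w)]))

omit [Fintype V] in
lemma SP_split (c : ℝ) (A Z : Finset V) (h : Z ⊆ A) :
    SP G c x A A = SP G c x Z Z + 2 * SP G c x (A \ Z) Z + SP G c x (A \ Z) (A \ Z) := by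
  have h1 : ∀ C : Finset V, SP G c x C A = SP G c x C (A \ Z) + SP G c x C Z := by
    intro C
    unfold SP
    rw [← Finset.sum_add_distrib]
    exact Finset.sum_congr rfl (fun v _ => (Finset.sum_sdiff h).symm)
  have h2 : SP G c x A A = SP G c x (A \ Z) A + SP G c x Z A := by
    unfold SP
    rw [Finset.sum_sdiff h]
  rw [h2, h1, h1, SP_comm c Z (A \ Z)]
  ring

open Classical in
/-- relevant part of a set -/
noncomputable def rl (c : ℝ) (x : V → ℝ) (A : Finset V) : Finset V :=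
  A.filter (fun v => 1 ≤ c * x v)

omit [Fintype V] [DecidableEq V] in
lemma mem_rl (c : ℝ) (A : Finset V) (v : V) : v ∈ rl c x A ↔ v ∈ A ∧ 1 ≤ c * x v := by
  simp [rl]

omit [Fintype V] [DecidableEq V] in
lemma rl_sub (c : ℝ) (A : Finset V) : rl c x A ⊆ A := fun v hv => ((mem_rl c A v).1 hv).1

namespace Par

lemma K2 (p : Par G k K lam x u E q D Z c N) : 2 ≤ K := p.r.hK

lemma lpos (p : Par G k K lam x u E q D Z c N) : 0 < lam := p.r.b.lpos

lemma Kpow (p : Par G k K lam x u E q D Z c N) (i j : ℕ) (h : i ≤ j) : K ^ i ≤ K ^ j :=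
  p.r.b.Kpow i j h

lemma Npos (p : Par G k K lam x u E q D Z c N) : 0 < N := by
  have h := p.r.N_ge
  rw [← p.hN] at h
  have hK := p.K2
  have : 0 < lam / (16 * K) := div_pos p.lpos (by linarith)
  linarith

lemma cpos (p : Par G k K lam x u E q D Z c N) : 0 < c := by
  rw [p.hc]
  exact div_pos (by linarith [p.lpos]) p.Npos

lemma c_le (p : Par G k K lam x u E q D Z c N) : c ≤ 64 * K := by
  have h := p.r.N_ge
  rw [← p.hN] at h
  have hK := p.K2
  rw [p.hc, div_le_iff₀ p.Npos]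
  rw [div_le_iff₀ (by linarith)] at h
  linarith

lemma cN (p : Par G k K lam x u E q D Z c N) : c * N = 4 * lam := by
  have := p.Npos
  rw [p.hc]; field_simp

lemma Dpos (p : Par G k K lam x u E q D Z c N) : 0 < D := p.r.Dpos

lemma q1pos (p : Par G k K lam x u E q D Z c N) : 0 < E * q := by
  have := p.r.b.Epos
  have := p.r.b.qpos
  positivity

lemma TT_AA (p : Par G k K lam x u E q D Z c N) (w : V) (hw : w ∈ TT G Z D) :
    w ∉ AA G k Z D := by
  rw [mem_AA, not_le]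
  exact p.r.TT_deg w hw

lemma Z_AA (p : Par G k K lam x u E q D Z c N) (z : V) (hz : z ∈ Z) : z ∈ AA G k Z D := by
  rw [mem_AA]
  exact p.r.Z_deg z hz

lemma AA_Z (p : Par G k K lam x u E q D Z c N) (v : V) (hv : v ∈ AA G k Z D) :
    dg G Z v ≤ K * D + K := by
  rw [mem_AA] at hv
  exact p.r.dich v hv

lemma u_AA (p : Par G k K lam x u E q D Z c N) : u ∈ AA G k Z D := by
  rw [mem_AA]
  refine le_trans ?_ (Finset.card_le_card (Finset.filter_subset_filter (G.Adj u)
    (Ut_TT (G := G) (u := u) Z D)))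
  have hK := p.K2
  have hl := p.lpos
  have h3 := p.r.wt_quarter
  have hsub : Ut G u Z D ⊆ UU G u := Ut_UU Z D
  have h4 : ∑ w ∈ UU G u, x w = ∑ w ∈ UU G u \ Ut G u Z D, x w + ∑ w ∈ Ut G u Z D, x w := by
    rw [Finset.sum_sdiff hsub]
  rw [p.r.b.sumU] at h4
  have h7 : ∑ w ∈ Ut G u Z D, x w ≤ (((Ut G u Z D).filter (G.Adj u)).card : ℝ) := by
    have e1 : (Ut G u Z D).filter (G.Adj u) = Ut G u Z D := by
      apply Finset.filter_true_of_mem
      intro w hw
      exact ((mem_Ut Z D w).1 hw).1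
    rw [e1]
    calc ∑ w ∈ Ut G u Z D, x w ≤ ∑ w ∈ Ut G u Z D, (1:ℝ) :=
          Finset.sum_le_sum (fun v _ => p.r.b.sit.x1 v)
      _ = ((Ut G u Z D).card : ℝ) := by simp
  have h9 : K ≤ lam / 4 := by
    have := p.r.b.pw 1 (by norm_num)
    rw [pow_one] at this
    linarith
  have h10 : (k : ℝ) ≤ (((Ut G u Z D).filter (G.Adj u)).card : ℝ) := by
    rw [← p.r.b.hK]; linarith
  exact_mod_cast h10

lemma ph_nonneg (v w : V) : 0 ≤ ph c x v w := le_max_right _ _

lemma ph_le (p : Par G k K lam x u E q D Z c N) (v w : V) : ph c x v w ≤ c := by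
  unfold ph
  apply max_le _ p.cpos.le
  have h1 : x v * x w ≤ 1 := mul_le_one₀ (p.r.b.sit.x1 v) (p.r.b.sit.x0 w) (p.r.b.sit.x1 w)
  have h2 := mul_le_mul_of_nonneg_left h1 p.cpos.le
  linarith

lemma ph_zero (p : Par G k K lam x u E q D Z c N) (v w : V) (hv : c * x v < 1) :
    ph c x v w = 0 := by
  unfold ph
  apply max_eq_right
  have h1 : x v * x w ≤ x v := mul_le_of_le_one_right (p.r.b.sit.x0 v) (p.r.b.sit.x1 w)
  have h2 := mul_le_mul_of_nonneg_left h1 p.cpos.le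
  linarith

/-- relevant vertices -/
lemma rel (p : Par G k K lam x u E q D Z c N) (v : V) (hv : 1 ≤ c * x v) :
    1 / (64 * K) ≤ x v := by
  have hK := p.K2
  rw [div_le_iff₀ (by linarith)]
  have h1 := mul_le_mul_of_nonneg_right p.c_le (p.r.b.sit.x0 v)
  linarith

/-- relevant vertices far from `u` and outside `Z` -/
lemma nW (p : Par G k K lam x u E q D Z c N) (S : Finset V) (hS : ∀ v ∈ S, v ∈ far G u \ Z)
    (a : ℝ) (ha : 0 < a) (hx : ∀ v ∈ S, 1 / a ≤ x v) : (S.card : ℝ) ≤ 16 * K * q * a := by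
  have hK := p.K2
  have h1 : (S.card : ℝ) * (1 / a) ≤ ∑ v ∈ S, x v := by
    rw [← nsmul_eq_mul, ← Finset.sum_const]
    exact Finset.sum_le_sum (fun v hv => hx v hv)
  have h2 : ∑ v ∈ S, x v ≤ ∑ v ∈ far G u \ Z, x v :=
    Finset.sum_le_sum_of_subset_of_nonneg hS (fun v _ _ => p.r.b.sit.x0 v)
  have h3 : ∑ v ∈ far G u \ Z, x v ≤ 16 * K * q := by
    rw [p.r.hZ]; exact p.r.b.wt_rest
  have h4 : (S.card : ℝ) * (1 / a) ≤ 16 * K * q := by linarith
  rw [mul_one_div, div_le_iff₀ ha] at h4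
  exact h4

lemma nUA (p : Par G k K lam x u E q D Z c N) (S : Finset V) (hS : ∀ v ∈ S, G.Adj u v)
    (hA : ∀ v ∈ S, v ∈ AA G k Z D) (hx : ∀ v ∈ S, 1 ≤ c * x v) :
    (S.card : ℝ) ≤ 2048 * K ^ 2 * q := by
  have hK := p.K2
  have hl := p.lpos
  have h1 := p.r.count S hS (1 / (64 * K)) (lam / (16 * K)) (by positivity) (by positivity)
    (by
      intro w hw
      refine ⟨p.rel w (hx w hw), ?_⟩
      have h2 := p.AA_Z w (hA w hw)
      have h3 := mis_eq (G := G) Z w
      have h4 := p.r.hZc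
      have h5 := p.r.KD
      obtain ⟨h6, h7, h8, h8'⟩ := l64 p.r.b
      have h9 := p.Dpos
      linarith)
  have e1 : 1 / (64 * K) * (lam / (16 * K)) = lam / (1024 * K ^ 2) := by field_simp; ring
  rw [e1, ← mul_div_assoc, div_le_iff₀ (by positivity)] at h1
  have h2 : lam * (S.card : ℝ) ≤ lam * (2048 * K ^ 2 * q) := by nlinarith
  exact le_of_mul_le_mul_left h2 hl

lemma nUB (p : Par G k K lam x u E q D Z c N) (S : Finset V) (hS : ∀ v ∈ S, G.Adj u v)
    (hA : ∀ v ∈ S, v ∉ Ut G u Z D) (hx : ∀ v ∈ S, 1 ≤ c * x v) :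
    (S.card : ℝ) ≤ 128 * K * (E * q) := by
  have hK := p.K2
  have hl := p.lpos
  have hD := p.Dpos
  have h1 := p.r.count S hS (1 / (64 * K)) D (by positivity) p.Dpos.le
    (by
      intro w hw
      refine ⟨p.rel w (hx w hw), ?_⟩
      have h2 := hA w hw
      rw [mem_Ut, not_and] at h2
      have h3 := h2 (hS w hw)
      push Not at h3
      exact h3.le)
  have e1 : (S.card : ℝ) * (1 / (64 * K) * D) = ((S.card : ℝ) * D) / (64 * K) := by field_simp
  rw [e1, div_le_iff₀ (by positivity), p.r.lam_D] at h1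
  have h2 : D * (S.card : ℝ) ≤ D * (128 * K * (E * q)) := by linarith
  exact le_of_mul_le_mul_left h2 hD

lemma SP_left (p : Par G k K lam x u E q D Z c N) (A B : Finset V) :
    SP G c x A B = SP G c x (rl c x A) B := by
  classical
  unfold SP
  have hsub : rl c x A ⊆ A := rl_sub c A
  rw [← Finset.sum_subset hsub]
  intro v hv hnv
  apply Finset.sum_eq_zero
  intro w _
  have h1 : c * x v < 1 := by
    by_contra hcon
    push Not at hcon
    exact hnv ((mem_rl c A v).2 ⟨hv, hcon⟩)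
  rw [p.ph_zero v w h1, mul_zero]

lemma SP_right (p : Par G k K lam x u E q D Z c N) (A B : Finset V) :
    SP G c x A B = SP G c x A (rl c x B) := by
  rw [SP_comm, SP_left p, SP_comm]

lemma SP_le_EE (p : Par G k K lam x u E q D Z c N) (A B : Finset V) :
    SP G c x A B ≤ c * EE G A B := by
  unfold SP EE
  rw [Finset.mul_sum]
  apply Finset.sum_le_sum
  intro v _
  rw [Finset.mul_sum]
  apply Finset.sum_le_sum
  intro w _
  have := mul_le_mul_of_nonneg_left (p.ph_le v w) (ad_nonneg G v w)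
  linarith

lemma EE_le_card (A B : Finset V) : EE G A B ≤ (A.card : ℝ) * B.card := by
  unfold EE
  calc ∑ v ∈ A, ∑ w ∈ B, ad G v w ≤ ∑ v ∈ A, ∑ w ∈ B, (1:ℝ) :=
        Finset.sum_le_sum (fun v _ => Finset.sum_le_sum (fun w _ => ad_le_one G _ _))
    _ = (A.card : ℝ) * B.card := by simp

lemma EE_le_deg (A B : Finset V) (d : ℝ) (h : ∀ v ∈ A, dg G B v ≤ d) :
    EE G A B ≤ (A.card : ℝ) * d := by
  rw [EE_eq, ← nsmul_eq_mul, ← Finset.sum_const]
  exact Finset.sum_le_sum h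

/-- square weight of the missing typical neighbours -/
noncomputable def mT (G : SimpleGraph V) [DecidableRel G.Adj] (x : V → ℝ) (u : V)
    (Z : Finset V) (D : ℝ) (v : V) : ℝ := ∑ w ∈ Ut G u Z D, (1 - ad G v w) * x w ^ 2

/-- square weight of the missing part of `Z` -/
noncomputable def mZ (G : SimpleGraph V) [DecidableRel G.Adj] (x : V → ℝ)
    (Z : Finset V) (w : V) : ℝ := ∑ z ∈ Z, (1 - ad G z w) * x z ^ 2

lemma loss (p : Par G k K lam x u E q D Z c N) :
    (∑ v ∈ rl c x (AA G k Z D \ Z), mT G x u Z D v) / 4 +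
      (∑ w ∈ rl c x ((AA G k Z D)ᶜ \ TT G Z D), mZ G x Z w) / 4 ≤
    c ^ 2 / 4 * ∑ v ∈ AA G k Z D, ∑ w ∈ (AA G k Z D)ᶜ, (1 - ad G v w) * (x v ^ 2 * x w ^ 2) := by
  classical
  set A := AA G k Z D with hA
  have hZA : Z ⊆ A := fun z hz => p.Z_AA z hz
  have hTB : TT G Z D ⊆ Aᶜ := by
    intro w hw
    rw [Finset.mem_compl]
    exact p.TT_AA w hw
  have hUB : Ut G u Z D ⊆ Aᶜ := (Ut_TT Z D).trans hTB
  have hnn : ∀ v w, 0 ≤ (1 - ad G v w) * (x v ^ 2 * x w ^ 2) := fun v w =>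
    mul_nonneg (by have := ad_le_one G v w; linarith) (by positivity)
  have h1 : ∑ v ∈ rl c x (A \ Z), ∑ w ∈ Ut G u Z D, (1 - ad G v w) * (x v ^ 2 * x w ^ 2) +
      ∑ v ∈ Z, ∑ w ∈ rl c x (Aᶜ \ TT G Z D), (1 - ad G v w) * (x v ^ 2 * x w ^ 2) ≤
      ∑ v ∈ A, ∑ w ∈ Aᶜ, (1 - ad G v w) * (x v ^ 2 * x w ^ 2) := by
    rw [← Finset.sum_sdiff hZA]
    apply add_le_add
    · calc ∑ v ∈ rl c x (A \ Z), ∑ w ∈ Ut G u Z D, (1 - ad G v w) * (x v ^ 2 * x w ^ 2) ≤
            ∑ v ∈ rl c x (A \ Z), ∑ w ∈ Aᶜ, (1 - ad G v w) * (x v ^ 2 * x w ^ 2) :=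
            Finset.sum_le_sum (fun v _ => Finset.sum_le_sum_of_subset_of_nonneg hUB
              (fun w _ _ => hnn v w))
        _ ≤ _ := Finset.sum_le_sum_of_subset_of_nonneg (rl_sub c _)
              (fun v _ _ => Finset.sum_nonneg (fun w _ => hnn v w))
    · exact Finset.sum_le_sum (fun v _ => Finset.sum_le_sum_of_subset_of_nonneg
        ((rl_sub c _).trans Finset.sdiff_subset) (fun w _ _ => hnn v w))
  have h2 : ∑ v ∈ rl c x (A \ Z), mT G x u Z D v ≤
      c ^ 2 * ∑ v ∈ rl c x (A \ Z), ∑ w ∈ Ut G u Z D, (1 - ad G v w) * (x v ^ 2 * x w ^ 2) := by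
    rw [Finset.mul_sum]
    apply Finset.sum_le_sum
    intro v hv
    unfold mT
    rw [Finset.mul_sum]
    apply Finset.sum_le_sum
    intro w _
    have h3 := ((mem_rl c _ v).1 hv).2
    have h4 : 1 ≤ (c * x v) ^ 2 := one_le_pow₀ h3
    have h5 : 0 ≤ (1 - ad G v w) * x w ^ 2 :=
      mul_nonneg (by have := ad_le_one G v w; linarith) (by positivity)
    have h6 := mul_le_mul_of_nonneg_right h4 h5
    have h7 : (c * x v) ^ 2 * ((1 - ad G v w) * x w ^ 2) =
        c ^ 2 * ((1 - ad G v w) * (x v ^ 2 * x w ^ 2)) := by ring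
    rw [h7] at h6
    linarith
  have h3 : ∑ w ∈ rl c x (Aᶜ \ TT G Z D), mZ G x Z w ≤
      c ^ 2 * ∑ v ∈ Z, ∑ w ∈ rl c x (Aᶜ \ TT G Z D), (1 - ad G v w) * (x v ^ 2 * x w ^ 2) := by
    rw [Finset.sum_comm (s := Z), Finset.mul_sum]
    apply Finset.sum_le_sum
    intro w hw
    unfold mZ
    rw [Finset.mul_sum]
    apply Finset.sum_le_sum
    intro v _
    have h3 := ((mem_rl c _ w).1 hw).2
    have h4 : 1 ≤ (c * x w) ^ 2 := one_le_pow₀ h3
    have h5 : 0 ≤ (1 - ad G v w) * x v ^ 2 :=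
      mul_nonneg (by have := ad_le_one G v w; linarith) (by positivity)
    have h6 := mul_le_mul_of_nonneg_right h4 h5
    have h7 : (c * x w) ^ 2 * ((1 - ad G v w) * x v ^ 2) =
        c ^ 2 * ((1 - ad G v w) * (x v ^ 2 * x w ^ 2)) := by ring
    rw [h7] at h6
    linarith
  have h4 := mul_le_mul_of_nonneg_left h1 (by positivity : 0 ≤ c ^ 2)
  rw [mul_add] at h4
  linarith

lemma dagger' (p : Par G k K lam x u E q D Z c N) :
    lam ^ 2 - EE G univ univ / 2 ≤
      (SP G c x (AA G k Z D) (AA G k Z D) + SP G c x (AA G k Z D)ᶜ (AA G k Z D)ᶜ) / 2 -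
      (∑ v ∈ rl c x (AA G k Z D \ Z), mT G x u Z D v) / 4 -
      (∑ w ∈ rl c x ((AA G k Z D)ᶜ \ TT G Z D), mZ G x Z w) / 4 := by
  have h := dagger p.r.b.sit (AA G k Z D) N c p.hN p.hc
  have h2 : ∀ C : Finset V, ∑ v ∈ C, ∑ w ∈ C, ad G v w * (c * (x v * x w) - 1) ≤
      SP G c x C C := by
    intro C
    unfold SP
    apply Finset.sum_le_sum
    intro v _
    apply Finset.sum_le_sum
    intro w _
    exact mul_le_mul_of_nonneg_left (le_max_left _ _) (ad_nonneg G v w)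
  have h3 := h2 (AA G k Z D)
  have h4 := h2 (AA G k Z D)ᶜ
  have h5 := p.loss
  linarith

/-- the size of the relevant part of the side of `Z` -/
lemma nA1 (p : Par G k K lam x u E q D Z c N) :
    ((rl c x (AA G k Z D \ Z)).card : ℝ) ≤ 3100 * K ^ 2 * q := by
  classical
  set S := rl c x (AA G k Z D \ Z) with hS
  have hmem : ∀ v ∈ S, v ∈ AA G k Z D ∧ v ∉ Z ∧ 1 ≤ c * x v := by
    intro v hv
    rw [hS, mem_rl, Finset.mem_sdiff] at hv
    exact ⟨hv.1.1, hv.1.2, hv.2⟩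
  have hcov : S ⊆ {u} ∪ (S.filter (fun v => G.Adj u v) ∪
      S.filter (fun v => v ≠ u ∧ ¬ G.Adj u v)) := by
    intro v hv
    simp only [Finset.mem_union, Finset.mem_singleton, Finset.mem_filter]
    by_cases h1 : v = u
    · left; exact h1
    · right
      by_cases h2 : G.Adj u v
      · left; exact ⟨hv, h2⟩
      · right; exact ⟨hv, h1, h2⟩
  have h1 := Finset.card_le_card hcov
  have h2 := Finset.card_union_le {u} (S.filter (fun v => G.Adj u v) ∪
      S.filter (fun v => v ≠ u ∧ ¬ G.Adj u v))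
  have h3 := Finset.card_union_le (S.filter (fun v => G.Adj u v))
      (S.filter (fun v => v ≠ u ∧ ¬ G.Adj u v))
  rw [Finset.card_singleton] at h2
  have h4 : (S.card : ℝ) ≤ 1 + ((S.filter (fun v => G.Adj u v)).card : ℝ) +
      ((S.filter (fun v => v ≠ u ∧ ¬ G.Adj u v)).card : ℝ) := by
    have : S.card ≤ 1 + (S.filter (fun v => G.Adj u v)).card +
      (S.filter (fun v => v ≠ u ∧ ¬ G.Adj u v)).card := by omega
    exact_mod_cast this
  have hK := p.K2
  have h5 := p.nUA (S.filter (fun v => G.Adj u v))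
    (fun v hv => (Finset.mem_filter.1 hv).2)
    (fun v hv => (hmem v (Finset.mem_filter.1 hv).1).1)
    (fun v hv => (hmem v (Finset.mem_filter.1 hv).1).2.2)
  have h6 := p.nW (S.filter (fun v => v ≠ u ∧ ¬ G.Adj u v))
    (fun v hv => by
      rw [Finset.mem_filter] at hv
      rw [Finset.mem_sdiff, mem_far]
      exact ⟨hv.2, (hmem v hv.1).2.1⟩) (64 * K) (by linarith)
    (fun v hv => p.rel v (hmem v (Finset.mem_filter.1 hv).1).2.2)
  obtain ⟨h7, h8⟩ := p.r.one_le_D
  have h9 : 1 ≤ K ^ 2 := one_le_pow₀ (by linarith)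
  have h10 : 1 * 1 ≤ K ^ 2 * q := mul_le_mul h9 h7 zero_le_one (by positivity)
  have e1 : 16 * K * q * (64 * K) = 1024 * K ^ 2 * q := by ring
  rw [e1] at h6
  linarith

/-- missing squares from missing weight -/
lemma mT_ge (p : Par G k K lam x u E q D Z c N) (v : V) :
    (MM G x u v - 2 * (E * q)) / (16 * K) ≤ mT G x u Z D v := by
  have hK := p.K2
  have h1 := p.r.wt_Ut
  have hsub : Ut G u Z D ⊆ UU G u := Ut_UU Z D
  have h2 : MM G x u v = ∑ w ∈ UU G u \ Ut G u Z D, (1 - ad G v w) * x w +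
      ∑ w ∈ Ut G u Z D, (1 - ad G v w) * x w := by
    unfold MM
    rw [Finset.sum_sdiff hsub]
  have h3 : ∑ w ∈ UU G u \ Ut G u Z D, (1 - ad G v w) * x w ≤
      ∑ w ∈ UU G u \ Ut G u Z D, x w :=
    Finset.sum_le_sum (fun w _ => mul_le_of_le_one_left (p.r.b.sit.x0 w)
      (by have := ad_nonneg G v w; linarith))
  have h4 : (∑ w ∈ Ut G u Z D, (1 - ad G v w) * x w) / (16 * K) ≤ mT G x u Z D v := by
    unfold mT
    rw [Finset.sum_div]
    apply Finset.sum_le_sum
    intro w hw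
    have h5 := p.r.TT_x w (Ut_TT Z D hw)
    have h6 := p.r.b.sit.x0 w
    have h7 : 0 ≤ 1 - ad G v w := by have := ad_le_one G v w; linarith
    have h8 : (1 - ad G v w) * x w / (16 * K) = (1 - ad G v w) * x w * (1 / (16 * K)) := by ring
    rw [h8]
    have h9 : (1 - ad G v w) * x w ^ 2 = (1 - ad G v w) * x w * x w := by ring
    rw [h9]
    exact mul_le_mul_of_nonneg_left h5 (mul_nonneg h7 h6)
  refine le_trans ?_ h4
  apply div_le_div_of_nonneg_right _ (by linarith)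
  linarith

/-- missing squares in `Z` -/
lemma mZ_ge (p : Par G k K lam x u E q D Z c N) (w : V) :
    mis G Z w - 4 * q ≤ mZ G x Z w := by
  have h1 := p.r.sum1
  have h2 : mis G Z w - 2 * ∑ z ∈ Z, (1 - x z) ≤ mZ G x Z w := by
    unfold mis mZ
    rw [Finset.mul_sum, ← Finset.sum_sub_distrib]
    apply Finset.sum_le_sum
    intro z _
    have h3 := ad_nonneg G z w
    have h4 := ad_le_one G z w
    have h5 := p.r.b.sit.x0 z
    have h6 := p.r.b.sit.x1 z
    have h7 : 0 ≤ (1 - ad G z w) * (1 - x z) ^ 2 := mul_nonneg (by linarith) (sq_nonneg _)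
    have h8 : 0 ≤ ad G z w * (1 - x z) := mul_nonneg h3 (by linarith)
    nlinarith
  linarith

/-- the side of `Z` -/
lemma S_A (p : Par G k K lam x u E q D Z c N) :
    SP G c x (AA G k Z D) (AA G k Z D) / 2 -
      (∑ v ∈ rl c x (AA G k Z D \ Z), mT G x u Z D v) / 4 ≤
    SP G c x Z Z / 2 + lam / 10 ^ 6 := by
  classical
  have hK := p.K2
  have hc := p.c_le
  have hc0 := p.cpos
  have hD0 := p.Dpos
  have hq0 := p.r.b.qpos
  have hq1 := p.q1pos
  have hl := p.lpos
  have hsub : Z ⊆ AA G k Z D := fun z hz => p.Z_AA z hz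
  rw [SP_split c _ Z hsub]
  set A' := AA G k Z D \ Z with hA'
  have h1 := nA1 p
  rw [← hA'] at h1
  set R := rl c x A' with hR
  set n : ℝ := (R.card : ℝ) with hn
  have hn0 : 0 ≤ n := Nat.cast_nonneg _
  obtain ⟨hq1', hqD⟩ := p.r.one_le_D
  -- the gain per vertex
  set g : ℝ := 64 * K * (K * D + K) + 32 * K * n with hg
  have hDq := p.r.D_ge
  have hq1q := p.r.q1_ge
  have hK6 : 1 ≤ K ^ 6 := one_le_pow₀ (by linarith)
  have hK3 : 1 ≤ K ^ 3 := one_le_pow₀ (by linarith)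
  have hK2 : 1 ≤ K ^ 2 := one_le_pow₀ (by linarith)
  have hg2 : g ≤ 70 * K ^ 2 * D := by
    have a1 : 32 * K * n ≤ 32 * K * (3100 * K ^ 2 * q) := mul_le_mul_of_nonneg_left h1 (by linarith)
    have a2 : 32 * K * (3100 * K ^ 2 * q) ≤ K ^ 2 * D := by
      have b1 : 32 * K * (3100 * K ^ 2 * q) = 99200 * (K ^ 3 * q) := by ring
      have b2 : K ^ 3 * q ≤ K ^ 6 * q := mul_le_mul_of_nonneg_right (p.Kpow 3 6 (by norm_num)) hq0.le
      have b3 : 1 * (E * q) ≤ K ^ 6 * (E * q) := mul_le_mul_of_nonneg_right hK6 hq1.le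
      have b4 : 1 * D ≤ K ^ 2 * D := mul_le_mul_of_nonneg_right hK2 hD0.le
      rw [b1]
      norm_num at hDq hq1q
      linarith
    have a3 : 64 * K * (K * D + K) = 64 * (K ^ 2 * D) + 64 * K ^ 2 := by ring
    have a4 : K ^ 2 * 1 ≤ K ^ 2 * q := mul_le_mul_of_nonneg_left hq1' (by positivity)
    have a5 : K ^ 2 * q ≤ K ^ 6 * q := mul_le_mul_of_nonneg_right (p.Kpow 2 6 (by norm_num)) hq0.le
    have b3 : 1 * (E * q) ≤ K ^ 6 * (E * q) := mul_le_mul_of_nonneg_right hK6 hq1.le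
    have b4 : 1 * D ≤ K ^ 2 * D := mul_le_mul_of_nonneg_right hK2 hD0.le
    rw [hg, a3]
    norm_num at hDq hq1q
    linarith
  have hg0 : 0 ≤ g := by rw [hg]; positivity
  -- the gain
  have h2 : SP G c x A' Z ≤ 64 * K * (n * (K * D + K)) := by
    rw [SP_left p]
    refine (SP_le_EE p _ _).trans ?_
    apply mul_le_mul hc _ (EE_nonneg _ _) (by linarith)
    apply EE_le_deg
    intro v hv
    rw [mem_rl, hA', Finset.mem_sdiff] at hv
    exact p.AA_Z v hv.1.1
  have h3 : SP G c x A' A' ≤ 64 * K * (n * n) := by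
    rw [SP_left p, SP_right p]
    refine (SP_le_EE p _ _).trans ?_
    exact mul_le_mul hc (EE_le_card _ _) (EE_nonneg _ _) (by linarith)
  have h4 : SP G c x A' Z + SP G c x A' A' / 2 ≤ n * g := by
    rw [hg]
    linarith
  -- exceptional vertices
  set Ex := (UU G u).filter (fun w => lam / 4 ≤ ∑ w' ∈ UU G u, ad G w w' * x w') with hEx
  have hkk := p.r.b.hk
  have h8k : ((8 * k : ℕ) : ℝ) = 8 * K := by rw [p.r.b.hK]; push_cast; ring
  have hExc : Ex.card < 8 * k := by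
    apply p.r.b.few (8 * k) (lam / 4) Ex
    · intro w hw
      rw [hEx, Finset.mem_filter, mem_UU] at hw
      exact hw
    · rw [h8k]
      nlinarith
    · apply p.r.b.pow_lt
      · unfold rn
        have : 8 * k ≤ k * (10 ^ 12 * k ^ 6) ^ 3 := by
          rw [mul_comm]
          apply Nat.mul_le_mul_left
          calc 8 ≤ 10 ^ 12 * 1 := by norm_num
            _ ≤ 10 ^ 12 * k ^ 6 := Nat.mul_le_mul_left _ (Nat.one_le_pow _ _ (by omega))
            _ = (10 ^ 12 * k ^ 6) ^ 1 := (pow_one _).symm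
            _ ≤ (10 ^ 12 * k ^ 6) ^ 3 := Nat.pow_le_pow_right (by positivity) (by norm_num)
        exact this
      · rw [h8k]
        have := p.Kpow 1 20 (by norm_num)
        rw [pow_one] at this
        have h0 : (0:ℝ) ≤ K ^ 20 := by positivity
        linarith
  set X := insert u Ex with hX
  have hXc : (X.card : ℝ) ≤ 8 * K := by
    rw [← h8k]
    have := Finset.card_insert_le u Ex
    have h5 : X.card ≤ 8 * k := by rw [hX]; omega
    exact_mod_cast h5
  -- the loss per non-exceptional vertex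
  have hloss : ∀ v ∈ R \ X, g ≤ mT G x u Z D v / 4 := by
    intro v hv
    rw [Finset.mem_sdiff, hR, mem_rl, hA', Finset.mem_sdiff, hX, Finset.mem_insert, not_or] at hv
    obtain ⟨⟨⟨hvA, hvZ⟩, hvc⟩, hvu, hvE⟩ := hv
    have h5 := p.mT_ge v
    have hMM : lam / (4 * K) ≤ MM G x u v := by
      by_cases hadj : G.Adj u v
      · rw [hEx, Finset.mem_filter, mem_UU, not_and] at hvE
        have h6 := hvE hadj
        push Not at h6
        have h7 := p.r.b.MM_eq v
        have h8 : lam / (4 * K) ≤ lam / 8 := by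
          apply div_le_div_of_nonneg_left hl.le (by norm_num)
          linarith
        linarith
      · by_contra hcon
        push Not at hcon
        apply hvZ
        rw [p.r.hZ, mem_ZZ]
        exact ⟨⟨hvu, hadj⟩, hcon.le⟩
    have h6 : lam / (8 * K) ≤ MM G x u v - 2 * (E * q) := by
      have h7 := p.r.q1_small
      have b3 : 1 * (E * q) ≤ K ^ 3 * (E * q) := mul_le_mul_of_nonneg_right hK3 hq1.le
      obtain ⟨e1, e2, e3, e4⟩ := l64 p.r.b
      linarith
    have h7 : lam / (8 * K) / (16 * K) ≤ mT G x u Z D v :=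
      (div_le_div_of_nonneg_right h6 (by linarith)).trans h5
    have h8 : lam / (8 * K) / (16 * K) = lam / (128 * K ^ 2) := by
      field_simp; ring
    rw [h8] at h7
    have h9 := p.r.lam_ge
    have h10 : 4 * (70 * K ^ 2 * D) ≤ lam / (128 * K ^ 2) := by
      rw [le_div_iff₀ (by positivity)]
      have b1 : 4 * (70 * K ^ 2 * D) * (128 * K ^ 2) = 35840 * (K ^ 4 * D) := by ring
      have b2 : K ^ 4 * D ≤ K ^ 6 * D := mul_le_mul_of_nonneg_right (p.Kpow 4 6 (by norm_num)) hD0.le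
      have b3 : 0 ≤ K ^ 6 * D := by positivity
      rw [b1]
      linarith
    linarith
  have h5 : n * g ≤ (∑ v ∈ R, mT G x u Z D v) / 4 + 8 * K * g := by
    have h6 : n * g = ∑ v ∈ R, g := by rw [Finset.sum_const, nsmul_eq_mul]
    have h7 : ∑ v ∈ R, g ≤ ∑ v ∈ R, mT G x u Z D v / 4 + ∑ v ∈ X, g := by
      have h8 : ∀ v, 0 ≤ mT G x u Z D v := fun v => Finset.sum_nonneg (fun w _ =>
        mul_nonneg (by have := ad_le_one G v w; linarith) (by positivity))
      have h9 : ∑ v ∈ R, g = ∑ v ∈ R \ X, g + ∑ v ∈ R ∩ X, g := by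
        rw [← Finset.sum_sdiff (Finset.inter_subset_left : R ∩ X ⊆ R)]
        congr 1
        rw [Finset.sdiff_inter_self_left]
      rw [h9]
      apply add_le_add
      · exact (Finset.sum_le_sum hloss).trans (Finset.sum_le_sum_of_subset_of_nonneg
          Finset.sdiff_subset (fun v _ _ => by have := h8 v; linarith))
      · exact Finset.sum_le_sum_of_subset_of_nonneg Finset.inter_subset_right (fun _ _ _ => hg0)
    rw [← Finset.sum_div, Finset.sum_const (s := X), nsmul_eq_mul] at h7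
    have h8 : (X.card : ℝ) * g ≤ 8 * K * g := mul_le_mul_of_nonneg_right hXc hg0
    linarith
  have h6 : 8 * K * g ≤ lam / 10 ^ 6 := by
    have h7 : 8 * K * g ≤ 8 * K * (70 * K ^ 2 * D) := mul_le_mul_of_nonneg_left hg2 (by linarith)
    have h9 := p.r.lam_ge
    have b1 : 8 * K * (70 * K ^ 2 * D) = 560 * (K ^ 3 * D) := by ring
    have b2 : K ^ 3 * D ≤ K ^ 6 * D := mul_le_mul_of_nonneg_right (p.Kpow 3 6 (by norm_num)) hD0.le
    have b3 : 0 ≤ K ^ 6 * D := by positivity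
    rw [le_div_iff₀ (by norm_num)]
    rw [b1] at h7
    norm_num at h9 ⊢
    linarith
  linarith

/-- few typical vertices outside the neighbourhood of `u` -/
lemma nTW (p : Par G k K lam x u E q D Z c N) :
    ((TT G Z D \ Ut G u Z D).card : ℝ) ≤ 256 * K ^ 2 * q := by
  have hK := p.K2
  have h := p.nW (TT G Z D \ Ut G u Z D) (by
    intro v hv
    rw [Finset.mem_sdiff] at hv
    rw [Finset.mem_sdiff, mem_far]
    refine ⟨⟨?_, ?_⟩, ?_⟩
    · rintro rfl
      exact p.TT_AA _ hv.1 p.u_AA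
    · intro hadj
      exact hv.2 ((mem_Ut Z D v).2 ⟨hadj, (mem_TT Z D v).1 hv.1⟩)
    · intro hz
      exact p.TT_AA _ hv.1 (p.Z_AA v hz)) (16 * K) (by linarith)
    (fun v hv => p.r.TT_x v (Finset.mem_sdiff.1 hv).1)
  have e1 : 16 * K * q * (16 * K) = 256 * K ^ 2 * q := by ring
  rw [e1] at h
  exact h

/-- the typical part of the other side -/
lemma S_T (p : Par G k K lam x u E q D Z c N) :
    SP G c x (TT G Z D) (TT G Z D) ≤ SP G c x (Ut G u Z D) (Ut G u Z D) + lam / 10 ^ 6 := by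
  have hK := p.K2
  have hc := p.c_le
  have hc0 := p.cpos
  have hq0 := p.r.b.qpos
  rw [SP_split c _ (Ut G u Z D) (Ut_TT Z D)]
  have h1 : ∀ X : Finset V, X ⊆ TT G Z D → SP G c x (TT G Z D \ Ut G u Z D) X ≤
      16384 * (K ^ 4 * q) := by
    intro X hX
    refine (SP_le_EE p _ _).trans ?_
    have h2 : EE G (TT G Z D \ Ut G u Z D) X ≤ ((TT G Z D \ Ut G u Z D).card : ℝ) * K := by
      apply EE_le_deg
      intro v hv
      have h3 := p.r.TT_deg v (Finset.mem_sdiff.1 hv).1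
      have h4 : dg G X v ≤ dg G (TT G Z D) v :=
        Finset.sum_le_sum_of_subset_of_nonneg hX (fun _ _ _ => ad_nonneg G _ _)
      rw [FrD.dg_card G (TT G Z D)] at h4
      refine h4.trans ?_
      rw [p.r.b.hK]
      exact_mod_cast h3.le
    have h3 := p.nTW
    have h4 : ((TT G Z D \ Ut G u Z D).card : ℝ) * K ≤ 256 * K ^ 2 * q * K :=
      mul_le_mul_of_nonneg_right h3 (by linarith)
    have h5 : c * EE G (TT G Z D \ Ut G u Z D) X ≤ 64 * K * (256 * K ^ 2 * q * K) :=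
      mul_le_mul hc (h2.trans h4) (EE_nonneg _ _) (by linarith)
    have e1 : 64 * K * (256 * K ^ 2 * q * K) = 16384 * (K ^ 4 * q) := by ring
    rw [e1] at h5
    exact h5
  have h2 := h1 (Ut G u Z D) (Ut_TT Z D)
  have h3 := h1 (TT G Z D \ Ut G u Z D) Finset.sdiff_subset
  have h4 := p.r.lam_ge
  have h5 := p.r.D_ge
  have h6 := p.r.q1_ge
  have hq1 := p.q1pos
  have hD0 := p.Dpos
  have hK6 : 1 ≤ K ^ 6 := one_le_pow₀ (by linarith)
  have b2 : K ^ 4 * q ≤ K ^ 6 * q := mul_le_mul_of_nonneg_right (p.Kpow 4 6 (by norm_num)) hq0.le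
  have b3 : 1 * (E * q) ≤ K ^ 6 * (E * q) := mul_le_mul_of_nonneg_right hK6 hq1.le
  have b4 : 1 * D ≤ K ^ 6 * D := mul_le_mul_of_nonneg_right hK6 hD0.le
  have b5 : 0 ≤ K ^ 6 * q := by positivity
  have h7 : 3 * (16384 * (K ^ 4 * q)) ≤ lam / 10 ^ 6 := by
    rw [le_div_iff₀ (by norm_num)]
    norm_num at h4 h5 h6 ⊢
    linarith
  linarith

/-- the other side -/
lemma S_B (p : Par G k K lam x u E q D Z c N) :
    SP G c x (AA G k Z D)ᶜ (AA G k Z D)ᶜ / 2 -
      (∑ w ∈ rl c x ((AA G k Z D)ᶜ \ TT G Z D), mZ G x Z w) / 4 ≤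
    SP G c x (TT G Z D) (TT G Z D) / 2 := by
  classical
  have hK := p.K2
  have hc := p.c_le
  have hc0 := p.cpos
  have hl := p.lpos
  have hD0 := p.Dpos
  have hq0 := p.r.b.qpos
  have hq1 := p.q1pos
  have hsub : TT G Z D ⊆ (AA G k Z D)ᶜ := by
    intro w hw
    rw [Finset.mem_compl]
    exact p.TT_AA w hw
  rw [SP_split c _ (TT G Z D) hsub]
  set B' := (AA G k Z D)ᶜ \ TT G Z D with hB'
  set B1 := rl c x B' with hB1
  have hmem : ∀ v ∈ B1, v ∉ AA G k Z D ∧ v ∉ TT G Z D ∧ 1 ≤ c * x v := by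
    intro v hv
    rw [hB1, mem_rl, hB', Finset.mem_sdiff, Finset.mem_compl] at hv
    exact ⟨hv.1.1, hv.1.2, hv.2⟩
  set BU := B1.filter (fun v => G.Adj u v) with hBU
  set BW := B1.filter (fun v => ¬ G.Adj u v) with hBW
  have hcard : (B1.card : ℝ) = BU.card + BW.card := by
    have := Finset.card_filter_add_card_filter_not (s := B1) (fun v => G.Adj u v)
    exact_mod_cast this.symm
  have hU := p.nUB BU (fun v hv => (Finset.mem_filter.1 hv).2)
    (fun v hv h => (hmem v (Finset.mem_filter.1 hv).1).2.1 (Ut_TT Z D h))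
    (fun v hv => (hmem v (Finset.mem_filter.1 hv).1).2.2)
  have hW := p.nW BW
    (fun v hv => by
      rw [hBW, Finset.mem_filter] at hv
      rw [Finset.mem_sdiff, mem_far]
      refine ⟨⟨?_, hv.2⟩, ?_⟩
      · rintro rfl
        exact (hmem _ hv.1).1 p.u_AA
      · intro hz
        exact (hmem v hv.1).1 (p.Z_AA v hz)) (64 * K) (by linarith)
    (fun v hv => p.rel v (hmem v (Finset.mem_filter.1 hv).1).2.2)
  set n : ℝ := (B1.card : ℝ) with hn
  have hn0 : 0 ≤ n := Nat.cast_nonneg _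
  have hDq := p.r.D_ge
  have hq1q := p.r.q1_ge
  obtain ⟨hq1', hqD⟩ := p.r.one_le_D
  have hK6 : 1 ≤ K ^ 6 := one_le_pow₀ (by linarith)
  have hn1 : n ≤ 129 * K * (E * q) := by
    have e1 : 16 * K * q * (64 * K) = 1024 * (K ^ 2 * q) := by ring
    rw [e1] at hW
    have b2 : K ^ 2 * q ≤ K ^ 6 * q := mul_le_mul_of_nonneg_right (p.Kpow 2 6 (by norm_num)) hq0.le
    have b3 : 1 * (E * q) ≤ K * (E * q) := mul_le_mul_of_nonneg_right (by linarith) hq1.le
    have b4 : 0 ≤ K ^ 6 * q := by positivity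
    norm_num at hq1q
    linarith
  -- the gain
  have h2 : SP G c x B' (TT G Z D) ≤ 64 * K * (n * K) := by
    rw [SP_left p]
    refine (SP_le_EE p _ _).trans ?_
    apply mul_le_mul hc _ (EE_nonneg _ _) (by linarith)
    apply EE_le_deg
    intro v hv
    have h3 := (hmem v hv).1
    rw [mem_AA, not_le] at h3
    rw [FrD.dg_card, p.r.b.hK]
    exact_mod_cast h3.le
  have h3 : SP G c x B' B' ≤ 64 * K * (n * n) := by
    rw [SP_left p, SP_right p]
    refine (SP_le_EE p _ _).trans ?_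
    exact mul_le_mul hc (EE_le_card _ _) (EE_nonneg _ _) (by linarith)
  set g : ℝ := 64 * K * K + 32 * K * n with hg
  have h4 : SP G c x B' (TT G Z D) + SP G c x B' B' / 2 ≤ n * g := by
    rw [hg]
    linarith
  have hg2 : g ≤ D / 8 := by
    have a1 : 32 * K * n ≤ 32 * K * (129 * K * (E * q)) := mul_le_mul_of_nonneg_left hn1 (by linarith)
    have a2 : 32 * K * (129 * K * (E * q)) = 4128 * (K ^ 2 * (E * q)) := by ring
    have a3 : K ^ 2 * (E * q) ≤ K ^ 6 * (E * q) :=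
      mul_le_mul_of_nonneg_right (p.Kpow 2 6 (by norm_num)) hq1.le
    have a4 : K ^ 2 * 1 ≤ K ^ 2 * q := mul_le_mul_of_nonneg_left hq1' (by positivity)
    have a5 : K ^ 2 * q ≤ K ^ 6 * q := mul_le_mul_of_nonneg_right (p.Kpow 2 6 (by norm_num)) hq0.le
    have b3 : 1 * (E * q) ≤ K ^ 6 * (E * q) := mul_le_mul_of_nonneg_right hK6 hq1.le
    have b4 : 0 ≤ K ^ 6 * q := by positivity
    have e1 : 64 * K * K = 64 * K ^ 2 := by ring
    rw [hg, e1]
    norm_num at hDq hq1q
    linarith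
  -- the loss
  have hloss : ∀ w ∈ B1, g ≤ mZ G x Z w / 4 := by
    intro w hw
    have h5 := p.mZ_ge w
    have h6 := (hmem w hw).2.1
    rw [mem_TT] at h6
    push Not at h6
    have b4 : 1 * q ≤ K ^ 6 * q := mul_le_mul_of_nonneg_right hK6 hq0.le
    have b3 : 1 * (E * q) ≤ K ^ 6 * (E * q) := mul_le_mul_of_nonneg_right hK6 hq1.le
    norm_num at hDq hq1q
    linarith
  have h5 : n * g ≤ (∑ v ∈ B1, mZ G x Z v) / 4 := by
    have h6 : n * g = ∑ v ∈ B1, g := by rw [Finset.sum_const, nsmul_eq_mul]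
    rw [h6, Finset.sum_div]
    exact Finset.sum_le_sum hloss
  linarith

/-- the combined estimate -/
lemma combined (p : Par G k K lam x u E q D Z c N) :
    (K - 1) * lam ≤ (SP G c x Z Z + SP G c x (Ut G u Z D) (Ut G u Z D)) / 2 + lam / 1000 := by
  have h1 := p.dagger'
  have h2 := p.S_A
  have h3 := p.S_B
  have h4 := p.S_T
  have h5 := p.r.b.low
  have hl := p.lpos
  have hK2l : K ^ 2 ≤ lam / 10 ^ 6 := by
    rw [le_div_iff₀ (by norm_num)]
    have := p.r.b.pw 2 (by norm_num)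
    have h0 : 0 ≤ K ^ 2 := sq_nonneg _
    norm_num at this ⊢
    linarith
  norm_num at h2 h4 hK2l
  linarith

end Par

end Pool.Agent.H35.Wh.WE
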