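import Mathlib
import Pool.Agent.H35.Wh.WE

set_option autoImplicit false

open Finset

namespace Pool.Agent.H35.Wh.WF

open Pool.Agent.H35.Wh.Defs Pool.Agent.H35.Wh.FrB Pool.Agent.H35.Wh.Core
open Pool.Agent.H35.Wh.WA Pool.Agent.H35.Wh.WB Pool.Agent.H35.Wh.WC Pool.Agent.H35.Wh.WD
open Pool.Agent.H35.Wh.WE Pool.Agent.H35.Wh.WE.Par

variable {V : Type*} [Fintype V] [DecidableEq V]
variable {G : SimpleGraph V} [DecidableRel G.Adj]
variable {k : ℕ} {K lam E q D c N : ℝ} {x : V → ℝ} {u : V} {Z : Finset V}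

/-- positive part at a vertex -/
noncomputable def ps (c : ℝ) (x : V → ℝ) (v : V) : ℝ := max (c * x v ^ 2 - 1) 0

omit [Fintype V] [DecidableEq V] in
lemma ps_nonneg (c : ℝ) (v : V) : 0 ≤ ps c x v := le_max_right _ _

lemma ph_le_ps (hc : 0 ≤ c) (v w : V) : ph c x v w ≤ (ps c x v + ps c x w) / 2 := by
  unfold ph
  apply max_le
  · have h1 : c * x v ^ 2 - 1 ≤ ps c x v := le_max_left _ _
    have h2 : c * x w ^ 2 - 1 ≤ ps c x w := le_max_left _ _
    nlinarith [mul_nonneg hc (sq_nonneg (x v - x w))]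
  · have h1 := ps_nonneg (x := x) c v
    have h2 := ps_nonneg (x := x) c w
    linarith

lemma SP_le_ps (hc : 0 ≤ c) (X : Finset V) (d : ℝ) (hd : ∀ v ∈ X, dg G X v ≤ d) :
    SP G c x X X ≤ d * ∑ v ∈ X, ps c x v := by
  have h1 : SP G c x X X ≤ ∑ v ∈ X, ∑ w ∈ X, ad G v w * ((ps c x v + ps c x w) / 2) := by
    unfold SP
    apply Finset.sum_le_sum
    intro v _
    apply Finset.sum_le_sum
    intro w _
    exact mul_le_mul_of_nonneg_left (ph_le_ps hc v w) (ad_nonneg G v w)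
  have h2 : ∑ v ∈ X, ∑ w ∈ X, ad G v w * ((ps c x v + ps c x w) / 2) =
      ∑ v ∈ X, dg G X v * ps c x v := by
    have h3 : ∑ v ∈ X, ∑ w ∈ X, ad G v w * ps c x w = ∑ v ∈ X, dg G X v * ps c x v := by
      rw [Finset.sum_comm]
      apply Finset.sum_congr rfl
      intro v _
      unfold dg
      rw [Finset.sum_mul]
      exact Finset.sum_congr rfl (fun w _ => by rw [ad_symm])
    have h4 : ∑ v ∈ X, ∑ w ∈ X, ad G v w * ps c x v = ∑ v ∈ X, dg G X v * ps c x v := by
      apply Finset.sum_congr rfl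
      intro v _
      unfold dg
      rw [Finset.sum_mul]
    have h5 : ∑ v ∈ X, ∑ w ∈ X, ad G v w * ((ps c x v + ps c x w) / 2) =
        (∑ v ∈ X, ∑ w ∈ X, ad G v w * ps c x v + ∑ v ∈ X, ∑ w ∈ X, ad G v w * ps c x w) / 2 := by
      rw [← Finset.sum_add_distrib, Finset.sum_div]
      apply Finset.sum_congr rfl
      intro v _
      rw [← Finset.sum_add_distrib, Finset.sum_div]
      exact Finset.sum_congr rfl (fun w _ => by ring)
    rw [h5, h3, h4]
    ring
  rw [h2] at h1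
  refine h1.trans ?_
  rw [Finset.mul_sum]
  exact Finset.sum_le_sum (fun v hv => mul_le_mul_of_nonneg_right (hd v hv) (ps_nonneg c v))

lemma dg_filter (X : Finset V) (v : V) : dg G X v = ((X.filter (G.Adj v)).card : ℝ) := by
  unfold dg ad
  rw [Finset.sum_boole]

lemma bound1 (p : Par G k K lam x u E q D Z c N) :
    SP G c x Z Z ≤ (K - 1) * ∑ v ∈ Z, ps c x v := by
  apply SP_le_ps p.cpos.le
  intro v hv
  rw [dg_filter]
  have h1 := p.r.Z_Z v hv
  have h2 : ((Z.filter (G.Adj v)).card : ℝ) + 1 ≤ k := by exact_mod_cast h1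
  rw [p.r.b.hK]
  linarith

lemma bound2 (p : Par G k K lam x u E q D Z c N) :
    SP G c x (Ut G u Z D) (Ut G u Z D) ≤ (K - 1) * ∑ v ∈ Ut G u Z D, ps c x v := by
  apply SP_le_ps p.cpos.le
  intro v hv
  rw [dg_filter]
  have h1 := p.r.Ut_deg v (Ut_TT Z D hv)
  have h2 : (((Ut G u Z D).filter (G.Adj v)).card : ℝ) + 1 ≤ k := by exact_mod_cast h1
  rw [p.r.b.hK]
  linarith

open Classical in
/-- typical vertices of `Z` -/
noncomputable def Zt (G : SimpleGraph V) [DecidableRel G.Adj] (x : V → ℝ) (u : V) (Z : Finset V)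
    (D : ℝ) : Finset V := Z.filter (fun z => MM G x u z ≤ D)

lemma mem_Zt (z : V) : z ∈ Zt G x u Z D ↔ z ∈ Z ∧ MM G x u z ≤ D := by simp [Zt]

lemma Zt_card (p : Par G k K lam x u E q D Z c N) :
    ((Z \ Zt G x u Z D).card : ℝ) ≤ 2 * (E * q) := by
  have h0 : D * ((Z \ Zt G x u Z D).card : ℝ) ≤ 2 * q * lam := by
    refine le_trans ?_ p.r.sumMM
    have h1 : D * ((Z \ Zt G x u Z D).card : ℝ) = ∑ z ∈ Z \ Zt G x u Z D, D := by
      rw [Finset.sum_const, nsmul_eq_mul]; ring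
    rw [h1]
    have h2 : ∑ z ∈ Z \ Zt G x u Z D, D ≤ ∑ z ∈ Z \ Zt G x u Z D, MM G x u z := by
      apply Finset.sum_le_sum
      intro z hz
      rw [Finset.mem_sdiff, mem_Zt, not_and] at hz
      have := hz.2 hz.1
      push Not at this
      exact this.le
    refine h2.trans ?_
    exact Finset.sum_le_sum_of_subset_of_nonneg Finset.sdiff_subset
      (fun z _ _ => p.r.b.MM_nonneg z)
  have h1 : D * ((Z \ Zt G x u Z D).card : ℝ) ≤ D * (2 * (E * q)) := by
    refine h0.trans (le_of_eq ?_)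
    rw [p.r.lam_D]; ring
  exact le_of_mul_le_mul_left h1 p.Dpos

/-- two disjoint edges from many edges -/
lemma two_edges (X : Finset V) (d : ℝ) (hd : ∀ v ∈ X, dg G X v ≤ d) (h : 4 * d < EE G X X)
    (hd0 : 0 ≤ d) :
    ∃ p p' q q' : V, p ∈ X ∧ p' ∈ X ∧ q ∈ X ∧ q' ∈ X ∧ G.Adj p p' ∧ G.Adj q q' ∧
      p ≠ q ∧ p ≠ q' ∧ p' ≠ q ∧ p' ≠ q' := by
  have hex : ∃ p ∈ X, ∃ p' ∈ X, G.Adj p p' := by
    by_contra hcon
    push Not at hcon
    have : EE G X X = 0 := Finset.sum_eq_zero (fun v hv => Finset.sum_eq_zero (fun w hw =>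
      ad_not G v w (hcon v hv w hw)))
    linarith
  obtain ⟨p, hp, p', hp', hpp⟩ := hex
  by_contra hcon
  push Not at hcon
  have hcov : ∀ q ∈ X, ∀ q' ∈ X, G.Adj q q' → q = p ∨ q = p' ∨ q' = p ∨ q' = p' := by
    intro q hq q' hq' hqq
    by_contra h2
    push Not at h2
    exact h2.2.2.2 (hcon p p' q q' hp hp' hq hq' hpp hqq h2.1.symm h2.2.2.1.symm
      h2.2.1.symm).symm
  have h1 : EE G X X ≤ ∑ v ∈ X, ∑ w ∈ X, ((if v = p then ad G v w else 0) +
      (if v = p' then ad G v w else 0) + (if w = p then ad G v w else 0) +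
      (if w = p' then ad G v w else 0)) := by
    unfold EE
    apply Finset.sum_le_sum
    intro v hv
    apply Finset.sum_le_sum
    intro w hw
    have h0 := ad_nonneg G v w
    by_cases hvw : G.Adj v w
    · rcases hcov v hv w hw hvw with h2 | h2 | h2 | h2
      · rw [if_pos h2]; split_ifs <;> linarith
      · rw [if_pos h2]; split_ifs <;> linarith
      · rw [if_pos h2]; split_ifs <;> linarith
      · rw [if_pos h2]; split_ifs <;> linarith
    · rw [ad_not G v w hvw]; simp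
  have e1 : ∀ a ∈ X, ∑ v ∈ X, ∑ w ∈ X, (if v = a then ad G v w else 0) = dg G X a := by
    intro a ha
    rw [Finset.sum_eq_single a]
    · simp [dg]
    · intro v _ hva
      exact Finset.sum_eq_zero (fun w _ => if_neg hva)
    · intro h; exact absurd ha h
  have e2 : ∀ a ∈ X, ∑ v ∈ X, ∑ w ∈ X, (if w = a then ad G v w else 0) = dg G X a := by
    intro a ha
    rw [Finset.sum_comm, ← e1 a ha]
    exact Finset.sum_congr rfl (fun v _ => Finset.sum_congr rfl (fun w _ => by rw [ad_symm]))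
  simp only [Finset.sum_add_distrib] at h1
  rw [e1 p hp, e1 p' hp', e2 p hp, e2 p' hp'] at h1
  have h2 := hd p hp
  have h3 := hd p' hp'
  linarith

/-- either few typical edges on the side of `u`'s neighbours, or small degrees in `Zt` -/
lemma two_cases (p : Par G k K lam x u E q D Z c N) :
    EE G (Ut G u Z D) (Ut G u Z D) ≤ 32 * K ^ 3 * D + 4 * K ∨
    ∀ z ∈ Zt G x u Z D, ((Zt G x u Z D).filter (G.Adj z)).card + 2 ≤ k := by
  by_contra hcon
  push Not at hcon
  obtain ⟨hE, z, hz, hzd⟩ := hcon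
  have hK := p.K2
  have hD0 := p.Dpos
  have hkk := p.r.b.hk
  obtain ⟨I, hI, hIc⟩ := Finset.exists_subset_card_eq
    (show k - 1 ≤ ((Zt G x u Z D).filter (G.Adj z)).card by omega)
  have hI' : ∀ i ∈ I, i ∈ Zt G x u Z D ∧ G.Adj z i := fun i hi => Finset.mem_filter.1 (hI hi)
  have hzI : z ∉ I := fun h => (hI' z h).2.ne rfl
  set I' := insert z I with hI'def
  have hI'c : (I'.card : ℝ) = K := by
    rw [hI'def, Finset.card_insert_of_notMem hzI, hIc, p.r.b.hK]
    have : k - 1 + 1 = k := by omega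
    exact_mod_cast this
  have hMM : ∀ i ∈ I', MM G x u i ≤ D := by
    intro i hi
    rw [hI'def, Finset.mem_insert] at hi
    rcases hi with rfl | hi
    · exact ((mem_Zt _).1 hz).2
    · exact ((mem_Zt _).1 (hI' i hi).1).2
  have hsumMM : ∑ i ∈ I', MM G x u i ≤ K * D := by
    have h1 : ∑ i ∈ I', MM G x u i ≤ ∑ i ∈ I', D := Finset.sum_le_sum hMM
    rw [Finset.sum_const, nsmul_eq_mul, hI'c] at h1
    exact h1
  have hUdeg := fun v hv => p.r.Ut_deg v (Ut_TT (G := G) (u := u) Z D hv)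
  have hUx := fun v hv => p.r.TT_x v (Ut_TT (G := G) (u := u) Z D hv)
  have hwq := p.r.wt_quarter
  set U := Ut G u Z D with hU
  have hUsub : U ⊆ UU G u := Ut_UU Z D
  set G0 := U.filter (fun w => ∀ i ∈ I', G.Adj i w) with hG0
  set Mis := U.filter (fun w => ¬ ∀ i ∈ I', G.Adj i w) with hMis
  have hdegU : ∀ v ∈ U, dg G U v ≤ K := by
    intro v hv
    rw [dg_filter, p.r.b.hK]
    have h1 := hUdeg v hv
    exact_mod_cast h1.le
  -- the number of missing vertices
  have hMisx : ∑ w ∈ Mis, x w ≤ K * D := by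
    have h1 : ∑ w ∈ Mis, x w ≤ ∑ w ∈ Mis, ∑ i ∈ I', (1 - ad G i w) * x w := by
      apply Finset.sum_le_sum
      intro w hw
      rw [hMis, Finset.mem_filter] at hw
      have h2 := hw.2
      push Not at h2
      obtain ⟨i, hi, hna⟩ := h2
      have h3 := Finset.single_le_sum (f := fun i => (1 - ad G i w) * x w)
        (fun i _ => mul_nonneg (by have := ad_le_one G i w; linarith) (p.r.b.sit.x0 w)) hi
      simp only [ad_not G _ _ hna] at h3
      linarith
    rw [Finset.sum_comm] at h1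
    refine h1.trans (le_trans ?_ hsumMM)
    apply Finset.sum_le_sum
    intro i _
    unfold MM
    apply Finset.sum_le_sum_of_subset_of_nonneg
    · exact (Finset.filter_subset _ _).trans hUsub
    · intro w _ _
      exact mul_nonneg (by have := ad_le_one G i w; linarith) (p.r.b.sit.x0 w)
  have hMisc : (Mis.card : ℝ) ≤ 16 * K ^ 2 * D := by
    have h1 : (Mis.card : ℝ) * (1 / (16 * K)) ≤ ∑ w ∈ Mis, x w := by
      rw [← nsmul_eq_mul, ← Finset.sum_const]
      apply Finset.sum_le_sum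
      intro w hw
      exact hUx w (Finset.mem_filter.1 hw).1
    have h2 : (Mis.card : ℝ) * (1 / (16 * K)) ≤ K * D := h1.trans hMisx
    rw [mul_one_div, div_le_iff₀ (by linarith)] at h2
    linarith
  have hEG0 : 4 * K < EE G G0 G0 := by
    have h1 : ∀ C : Finset V, EE G C U = EE G C G0 + EE G C Mis := by
      intro C
      unfold EE
      rw [← Finset.sum_add_distrib]
      exact Finset.sum_congr rfl (fun v _ => (Finset.sum_filter_add_sum_filter_not U _ _).symm)
    have h2 : EE G U U = EE G G0 U + EE G Mis U := by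
      unfold EE
      rw [Finset.sum_filter_add_sum_filter_not U]
    have h3 : EE G Mis U ≤ (Mis.card : ℝ) * K := by
      apply EE_le_deg
      intro v hv
      exact hdegU v (Finset.mem_filter.1 hv).1
    have h4 := EE_nonneg (G := G) Mis Mis
    have h5 := EE_comm (G := G) G0 Mis
    have h6 := h1 Mis
    have h7 := h1 G0
    have h8 : (Mis.card : ℝ) * K ≤ 16 * K ^ 2 * D * K :=
      mul_le_mul_of_nonneg_right hMisc (by linarith)
    nlinarith
  obtain ⟨a, a', b, b', ha, ha', hb, hb', haa, hbb, n1, n2, n3, n4⟩ := two_edges G0 K (by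
    intro v hv
    refine le_trans ?_ (hdegU v (Finset.mem_filter.1 hv).1)
    exact Finset.sum_le_sum_of_subset_of_nonneg (Finset.filter_subset _ _)
      (fun _ _ _ => ad_nonneg G _ _)) hEG0 (by linarith)
  -- many common neighbours
  have hG0c : k + 2 ≤ G0.card := by
    have h1 := common_card (G := G) I' U x p.r.b.sit.x0 p.r.b.sit.x1
    rw [← hG0] at h1
    have h2 : ∑ i ∈ I', ∑ z ∈ U, (1 - ad G i z) * x z ≤ K * D := by
      refine le_trans ?_ hsumMM
      apply Finset.sum_le_sum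
      intro i _
      unfold MM
      apply Finset.sum_le_sum_of_subset_of_nonneg hUsub
      intro w _ _
      exact mul_nonneg (by have := ad_le_one G i w; linarith) (p.r.b.sit.x0 w)
    have h4 : ∑ w ∈ UU G u, x w = ∑ w ∈ UU G u \ U, x w + ∑ w ∈ U, x w := by
      rw [Finset.sum_sdiff hUsub]
    rw [p.r.b.sumU] at h4
    have h7 := p.r.KD
    have h8 : lam / (64 * K) ≤ lam / 64 := by
      apply div_le_div_of_nonneg_left p.lpos.le (by norm_num)
      linarith
    have h9 := p.lpos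
    have h10 := p.r.b.pw 0 (by norm_num)
    have h11 : ((k + 2 : ℕ) : ℝ) ≤ (G0.card : ℝ) := by
      push_cast
      rw [← p.r.b.hK]
      norm_num at h10
      linarith
    exact_mod_cast h11
  apply p.r.b.free
  exact wheel_two G k hkk z I G0 (by omega) hG0c (fun i hi => (hI' i hi).2)
    (fun j hj => (Finset.mem_filter.1 hj).2 z (Finset.mem_insert_self _ _))
    (fun i hi j hj => (Finset.mem_filter.1 hj).2 i (Finset.mem_insert_of_mem hi))
    a a' b b' ha ha' hb hb' haa hbb n1 n2 n3 n4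

/-- quadratic form between two sets -/
noncomputable def QQ (G : SimpleGraph V) [DecidableRel G.Adj] (x : V → ℝ) (A B : Finset V) : ℝ :=
  ∑ v ∈ A, ∑ w ∈ B, ad G v w * (x v * x w)

lemma QQ_nonneg (h : Sit G lam x u) (A B : Finset V) : 0 ≤ QQ G x A B :=
  Finset.sum_nonneg (fun v _ => Finset.sum_nonneg (fun w _ =>
    mul_nonneg (ad_nonneg G v w) (mul_nonneg (h.x0 v) (h.x0 w))))

omit [Fintype V] [DecidableEq V] in
lemma QQ_comm (A B : Finset V) : QQ G x A B = QQ G x B A := by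
  unfold QQ
  rw [Finset.sum_comm]
  exact Finset.sum_congr rfl (fun v _ => Finset.sum_congr rfl (fun w _ => by
    rw [ad_symm]; ring))

lemma QQ_univ (h : Sit G lam x u) (A : Finset V) : QQ G x A univ = lam * ∑ v ∈ A, x v ^ 2 := by
  unfold QQ
  rw [Finset.mul_sum]
  apply Finset.sum_congr rfl
  intro v _
  have h2 := h.ev v
  calc ∑ w, ad G v w * (x v * x w) = x v * ∑ w, ad G v w * x w := by
        rw [Finset.mul_sum]
        exact Finset.sum_congr rfl (fun w _ => by ring)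
    _ = lam * x v ^ 2 := by rw [h2]; ring

lemma QQ_split (A B C : Finset V) (h : Disjoint B C) :
    QQ G x A (B ∪ C) = QQ G x A B + QQ G x A C := by
  unfold QQ
  rw [← Finset.sum_add_distrib]
  exact Finset.sum_congr rfl (fun v _ => Finset.sum_union h)

lemma Z_card_le (p : Par G k K lam x u E q D Z c N) : (Z.card : ℝ) ≤ 2 * lam := by
  have hK := p.K2
  have hkk := p.r.b.hk
  have h1 := p.u_AA
  rw [mem_AA] at h1
  obtain ⟨w, hw⟩ := Finset.card_pos.1 (by omega : 0 < ((TT G Z D).filter (G.Adj u)).card)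
  have hw' := (Finset.mem_filter.1 hw).1
  rw [mem_TT] at hw'
  have h2 : ∑ z ∈ Z, ad G w z * x z ≤ lam := by
    calc ∑ z ∈ Z, ad G w z * x z ≤ ∑ z, ad G w z * x z :=
          Finset.sum_le_sum_of_subset_of_nonneg (Finset.subset_univ _)
            (fun z _ _ => mul_nonneg (ad_nonneg G _ _) (p.r.b.sit.x0 z))
      _ = lam * x w := p.r.b.sit.ev w
      _ ≤ lam * 1 := mul_le_mul_of_nonneg_left (p.r.b.sit.x1 w) p.lpos.le
      _ = lam := mul_one _
  have h3 : dg G Z w - ∑ z ∈ Z, (1 - x z) ≤ ∑ z ∈ Z, ad G w z * x z := by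
    unfold dg
    rw [← Finset.sum_sub_distrib]
    apply Finset.sum_le_sum
    intro z _
    have h4 := ad_le_one G w z
    have h5 := p.r.b.sit.x1 z
    nlinarith
  have h4 := p.r.sum1
  have h5 := mis_eq (G := G) Z w
  have h6 := p.r.KD
  have h7 : lam / (64 * K) ≤ lam / 64 := by
    apply div_le_div_of_nonneg_left p.lpos.le (by norm_num)
    linarith
  have h9 : 0 ≤ K * D := mul_nonneg (by linarith) p.Dpos.le
  have h10 := p.r.q_small
  have h11 := p.r.qK
  have h12 := p.r.b.qpos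
  linarith

lemma wA' (p : Par G k K lam x u E q D Z c N) :
    ∑ v ∈ AA G k Z D \ Z, x v ≤ 1 + 16 * K * q + 2 * (E * q) := by
  have hsub : AA G k Z D \ Z ⊆ {u} ∪ ((far G u \ Z) ∪ (UU G u \ Ut G u Z D)) := by
    intro v hv
    rw [Finset.mem_sdiff] at hv
    simp only [Finset.mem_union, Finset.mem_singleton, Finset.mem_sdiff, mem_far, mem_UU]
    by_cases h1 : v = u
    · left; exact h1
    · right
      by_cases h2 : G.Adj u v
      · right
        refine ⟨h2, fun h3 => p.TT_AA v (Ut_TT Z D h3) hv.1⟩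
      · left
        exact ⟨⟨h1, h2⟩, hv.2⟩
  have h1 : ∑ v ∈ AA G k Z D \ Z, x v ≤
      ∑ v ∈ {u} ∪ ((far G u \ Z) ∪ (UU G u \ Ut G u Z D)), x v :=
    Finset.sum_le_sum_of_subset_of_nonneg hsub (fun v _ _ => p.r.b.sit.x0 v)
  have h2 : ∑ v ∈ {u} ∪ ((far G u \ Z) ∪ (UU G u \ Ut G u Z D)), x v ≤
      ∑ v ∈ {u}, x v + (∑ v ∈ far G u \ Z, x v + ∑ v ∈ UU G u \ Ut G u Z D, x v) := by
    have g : ∀ A B : Finset V, ∑ v ∈ A ∪ B, x v ≤ ∑ v ∈ A, x v + ∑ v ∈ B, x v := by
      intro A B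
      rw [← Finset.sum_union_inter]
      have := Finset.sum_nonneg (s := A ∩ B) (fun v _ => p.r.b.sit.x0 v)
      linarith
    exact (g _ _).trans (add_le_add le_rfl (g _ _))
  rw [Finset.sum_singleton, p.r.b.sit.xu] at h2
  have h3 : ∑ v ∈ far G u \ Z, x v ≤ 16 * K * q := by
    rw [p.r.hZ]; exact p.r.b.wt_rest
  have h4 := p.r.wt_Ut
  linarith

/-- the square sum of the side of `Z` -/
lemma sA (p : Par G k K lam x u E q D Z c N) :
    c * ∑ v ∈ AA G k Z D, x v ^ 2 ≤
      2 * lam + 64 * K * (K + 1 + 16 * K * q + 2 * (E * q)) := by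
  have hK := p.K2
  have hl := p.lpos
  set A := AA G k Z D with hA
  have hsub : Z ⊆ A := fun z hz => p.Z_AA z hz
  have e1 : QQ G x A univ = QQ G x A A + QQ G x A Aᶜ := by
    rw [← QQ_split A A Aᶜ disjoint_compl_right, Finset.union_compl]
  have e2 : QQ G x Aᶜ univ = QQ G x Aᶜ A + QQ G x Aᶜ Aᶜ := by
    rw [← QQ_split Aᶜ A Aᶜ disjoint_compl_right, Finset.union_compl]
  rw [QQ_univ p.r.b.sit] at e1 e2
  have e3 : ∑ v ∈ A, x v ^ 2 + ∑ v ∈ Aᶜ, x v ^ 2 = N := by
    rw [p.hN, Finset.sum_add_sum_compl]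
  have e4 := QQ_comm (G := G) (x := x) A Aᶜ
  have e5 := QQ_nonneg p.r.b.sit Aᶜ Aᶜ
  -- the internal form
  have h1 : QQ G x A A ≤ QQ G x Z Z + 2 * QQ G x (A \ Z) A := by
    have hd : Disjoint (A \ Z) Z := Finset.sdiff_disjoint
    have h2 : ∀ C : Finset V, QQ G x C A = QQ G x C (A \ Z) + QQ G x C Z := by
      intro C
      rw [← QQ_split C _ _ hd, Finset.sdiff_union_of_subset hsub]
    have h3 : QQ G x A A = QQ G x (A \ Z) A + QQ G x Z A := by
      rw [QQ_comm A A, QQ_comm (A \ Z) A, QQ_comm Z A]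
      exact h2 A
    have h4 := h2 (A \ Z)
    have h5 := h2 Z
    have h6 := QQ_comm (G := G) (x := x) Z (A \ Z)
    have h7 := QQ_nonneg p.r.b.sit (A \ Z) (A \ Z)
    linarith
  have h2 : QQ G x Z Z ≤ 2 * K * lam := by
    have h3 : QQ G x Z Z ≤ EE G Z Z := by
      unfold QQ EE
      apply Finset.sum_le_sum
      intro v _
      apply Finset.sum_le_sum
      intro w _
      exact mul_le_of_le_one_right (ad_nonneg G v w)
        (mul_le_one₀ (p.r.b.sit.x1 v) (p.r.b.sit.x0 w) (p.r.b.sit.x1 w))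
    have h4 : EE G Z Z ≤ (Z.card : ℝ) * K := by
      apply EE_le_deg
      intro v hv
      rw [dg_filter, p.r.b.hK]
      exact_mod_cast (p.r.Z_Z v hv).le
    have h5 := mul_le_mul_of_nonneg_right (Z_card_le p) (by linarith : (0:ℝ) ≤ K)
    linarith
  have h3 : QQ G x (A \ Z) A ≤ lam * (1 + 16 * K * q + 2 * (E * q)) := by
    have h4 : QQ G x (A \ Z) A ≤ QQ G x (A \ Z) univ := by
      unfold QQ
      apply Finset.sum_le_sum
      intro v _
      exact Finset.sum_le_sum_of_subset_of_nonneg (Finset.subset_univ _)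
        (fun w _ _ => mul_nonneg (ad_nonneg G v w)
          (mul_nonneg (p.r.b.sit.x0 v) (p.r.b.sit.x0 w)))
    rw [QQ_univ p.r.b.sit] at h4
    have h5 : ∑ v ∈ A \ Z, x v ^ 2 ≤ ∑ v ∈ A \ Z, x v := by
      apply Finset.sum_le_sum
      intro v _
      rw [sq]
      exact mul_le_of_le_one_left (p.r.b.sit.x0 v) (p.r.b.sit.x1 v)
    have h6 := wA' p
    exact h4.trans (mul_le_mul_of_nonneg_left (h5.trans h6) hl.le)
  -- combine
  set s := ∑ v ∈ A, x v ^ 2 with hs
  have h4 : 2 * lam * s ≤ lam * N + QQ G x A A := by nlinarith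
  have hnn : 0 ≤ K + 1 + 16 * K * q + 2 * (E * q) := by
    have := p.q1pos
    have := p.r.b.qpos
    positivity
  have h5 : QQ G x A A ≤ 2 * lam * (K + 1 + 16 * K * q + 2 * (E * q)) := by linarith
  have h6 : 2 * lam * (c * s) ≤ c * (lam * N) +
      c * (2 * lam * (K + 1 + 16 * K * q + 2 * (E * q))) := by
    have := mul_le_mul_of_nonneg_left (h4.trans (add_le_add le_rfl h5)) p.cpos.le
    linarith
  have h7 : c * (lam * N) = 4 * lam * lam := by
    have := p.cN
    linear_combination lam * this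
  have h8 : c * (2 * lam * (K + 1 + 16 * K * q + 2 * (E * q))) ≤
      64 * K * (2 * lam * (K + 1 + 16 * K * q + 2 * (E * q))) :=
    mul_le_mul_of_nonneg_right p.c_le (by positivity)
  have h9 : (2 * lam) * (c * s) ≤
      (2 * lam) * (2 * lam + 64 * K * (K + 1 + 16 * K * q + 2 * (E * q))) := by
    linarith
  exact le_of_mul_le_mul_left h9 (by linarith)

/-- the error terms are small -/
lemma err (p : Par G k K lam x u E q D Z c N) :
    64 * K * (10 * K + 10 + 64 * K * q + 8 * (E * q)) ≤ lam / (10 ^ 5 * K ^ 2) := by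
  have hK := p.K2
  have hl := p.lpos
  rw [le_div_iff₀ (by positivity)]
  have h4 := p.r.lam_ge
  have h5 := p.r.D_ge
  have h6 := p.r.q1_ge
  have hq1 := p.q1pos
  have hD0 := p.Dpos
  have hq0 := p.r.b.qpos
  obtain ⟨hq1', hqD⟩ := p.r.one_le_D
  have hK6 : 1 ≤ K ^ 6 := one_le_pow₀ (by linarith)
  have e1 : 64 * K * (10 * K + 10 + 64 * K * q + 8 * (E * q)) * (10 ^ 5 * K ^ 2) =
      64000000 * K ^ 4 + 64000000 * K ^ 3 + 409600000 * (K ^ 4 * q) +
      51200000 * (K ^ 3 * (E * q)) := by ring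
  rw [e1]
  have a1 : K ^ 4 * 1 ≤ K ^ 4 * q := mul_le_mul_of_nonneg_left hq1' (by positivity)
  have a2 : K ^ 3 ≤ K ^ 4 := p.Kpow 3 4 (by norm_num)
  have a3 : K ^ 4 * q ≤ K ^ 6 * q := mul_le_mul_of_nonneg_right (p.Kpow 4 6 (by norm_num)) hq0.le
  have a4 : 1 * (E * q) ≤ K ^ 6 * (E * q) := mul_le_mul_of_nonneg_right hK6 hq1.le
  have a5 : K ^ 3 * (E * q) ≤ K ^ 6 * (E * q) :=
    mul_le_mul_of_nonneg_right (p.Kpow 3 6 (by norm_num)) hq1.le
  have a6 : 1 * D ≤ K ^ 6 * D := mul_le_mul_of_nonneg_right hK6 hD0.le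
  norm_num at h4 h5 h6
  linarith

lemma sA' (p : Par G k K lam x u E q D Z c N) :
    c * ∑ v ∈ Z, x v ^ 2 ≤ 2 * lam + lam / (10 ^ 5 * K ^ 2) := by
  have hK := p.K2
  have h1 := sA p
  have h2 := err p
  have hq1 := p.q1pos
  have hq0 := p.r.b.qpos
  have h3 : ∑ v ∈ Z, x v ^ 2 ≤ ∑ v ∈ AA G k Z D, x v ^ 2 :=
    Finset.sum_le_sum_of_subset_of_nonneg (fun z hz => p.Z_AA z hz) (fun v _ _ => sq_nonneg _)
  have h4 := mul_le_mul_of_nonneg_left h3 p.cpos.le
  have h5 : 64 * K * (K + 1 + 16 * K * q + 2 * (E * q)) ≤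
      64 * K * (10 * K + 10 + 64 * K * q + 8 * (E * q)) := by
    apply mul_le_mul_of_nonneg_left _ (by linarith)
    have : 0 ≤ K * q := by positivity
    linarith
  linarith

/-- upper bound for typical entries -/
lemma xb (p : Par G k K lam x u E q D Z c N) (w : V) (hw : w ∈ Ut G u Z D) :
    c * x w ≤ 2 + 1 / (10 ^ 5 * K ^ 2) := by
  have hK := p.K2
  have hl := p.lpos
  have hq1 := p.q1pos
  have hq0 := p.r.b.qpos
  have hsub : Ut G u Z D ⊆ UU G u := Ut_UU Z D
  have hZf : Z ⊆ far G u := by rw [p.r.hZ]; exact Bal.ZZ_far _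
  have h1 := p.r.b.rowsplit w
  have h2 : ∑ w' ∈ UU G u, ad G w w' * x w' = ∑ w' ∈ UU G u \ Ut G u Z D, ad G w w' * x w' +
      ∑ w' ∈ Ut G u Z D, ad G w w' * x w' := by
    rw [Finset.sum_sdiff hsub]
  have h3 : ∑ w' ∈ far G u, ad G w w' * x w' = ∑ w' ∈ far G u \ Z, ad G w w' * x w' +
      ∑ w' ∈ Z, ad G w w' * x w' := by
    rw [Finset.sum_sdiff hZf]
  have hle : ∀ A : Finset V, ∑ w' ∈ A, ad G w w' * x w' ≤ ∑ w' ∈ A, x w' := fun A =>
    Finset.sum_le_sum (fun v _ => mul_le_of_le_one_left (p.r.b.sit.x0 v) (ad_le_one G _ _))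
  have h4 : ∑ v ∈ far G u \ Z, x v ≤ 16 * K * q := by
    rw [p.r.hZ]; exact p.r.b.wt_rest
  have h6 := p.r.wt_Ut
  have h7 : ∑ w' ∈ Ut G u Z D, ad G w w' * x w' ≤ K := by
    refine (p.r.b.sum_ad_le _ _).trans ?_
    rw [dg_filter, p.r.b.hK]
    have h1 := p.r.Ut_deg w (Ut_TT Z D hw)
    exact_mod_cast h1.le
  have h8 : ∑ w' ∈ Z, ad G w w' * x w' ≤ ∑ v ∈ AA G k Z D, x v ^ 2 + 4 * q := by
    have h9 : ∑ w' ∈ Z, ad G w w' * x w' ≤ Z.card := by
      calc ∑ v ∈ Z, ad G w v * x v ≤ ∑ v ∈ Z, (1:ℝ) :=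
            Finset.sum_le_sum (fun v _ =>
              mul_le_one₀ (ad_le_one G _ _) (p.r.b.sit.x0 v) (p.r.b.sit.x1 v))
        _ = Z.card := by simp
    have h10 := p.r.card_le_sq
    have h11 : ∑ v ∈ Z, x v ^ 2 ≤ ∑ v ∈ AA G k Z D, x v ^ 2 :=
      Finset.sum_le_sum_of_subset_of_nonneg (fun z hz => p.Z_AA z hz) (fun v _ _ => sq_nonneg _)
    linarith
  have h9 : ad G w u ≤ 1 := ad_le_one G _ _
  have h10 : lam * x w ≤ ∑ v ∈ AA G k Z D, x v ^ 2 +
      (1 + K + 4 * q + 16 * K * q + 2 * (E * q)) := by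
    have := hle (far G u \ Z)
    have := hle (UU G u \ Ut G u Z D)
    linarith
  have h11 : c * (lam * x w) ≤ c * ∑ v ∈ AA G k Z D, x v ^ 2 +
      64 * K * (1 + K + 4 * q + 16 * K * q + 2 * (E * q)) := by
    have a1 := mul_le_mul_of_nonneg_left h10 p.cpos.le
    have a2 : c * (1 + K + 4 * q + 16 * K * q + 2 * (E * q)) ≤
        64 * K * (1 + K + 4 * q + 16 * K * q + 2 * (E * q)) := by
      apply mul_le_mul_of_nonneg_right p.c_le
      positivity
    linarith
  have h12 := sA p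
  have h13 := err p
  have h14 : lam * (c * x w) ≤ lam * (2 + 1 / (10 ^ 5 * K ^ 2)) := by
    have e1 : 64 * K * (1 + K + 4 * q + 16 * K * q + 2 * (E * q)) +
        64 * K * (K + 1 + 16 * K * q + 2 * (E * q)) ≤
        64 * K * (10 * K + 10 + 64 * K * q + 8 * (E * q)) := by
      rw [← mul_add]
      apply mul_le_mul_of_nonneg_left _ (by linarith)
      have : q ≤ K * q := p.r.qK
      linarith
    have e3 : lam * (2 + 1 / (10 ^ 5 * K ^ 2)) = 2 * lam + lam / (10 ^ 5 * K ^ 2) := by ring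
    rw [e3]
    linarith
  exact le_of_mul_le_mul_left h14 hl

end Pool.Agent.H35.Wh.WF
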