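import Mathlib
import Pool.Agent.H35.Wh.WF

set_option autoImplicit false

open Finset

namespace Pool.Agent.H35.Wh.WG

open Pool.Agent.H35.Wh.Defs Pool.Agent.H35.Wh.FrB Pool.Agent.H35.Wh.Core
open Pool.Agent.H35.Wh.WA Pool.Agent.H35.Wh.WB Pool.Agent.H35.Wh.WC Pool.Agent.H35.Wh.WD
open Pool.Agent.H35.Wh.WE Pool.Agent.H35.Wh.WE.Par Pool.Agent.H35.Wh.WF

variable {V : Type*} [Fintype V] [DecidableEq V]
variable {G : SimpleGraph V} [DecidableRel G.Adj]
variable {k : ℕ} {K lam E q D c N : ℝ} {x : V → ℝ} {u : V} {Z : Finset V}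

lemma ps_le1 (h : Sit G lam x u) (v : V) : ps c x v ≤ max (c - 1) 0 * x v ^ 2 := by
  have h0 := h.x0 v
  have h1 := h.x1 v
  have hx2 : x v ^ 2 ≤ 1 := pow_le_one₀ h0 h1
  have hx0 : 0 ≤ x v ^ 2 := sq_nonneg _
  unfold ps
  apply max_le
  · have h3 : (c - 1) * x v ^ 2 ≤ max (c - 1) 0 * x v ^ 2 :=
      mul_le_mul_of_nonneg_right (le_max_left _ _) hx0
    linarith
  · exact mul_nonneg (le_max_right _ _) hx0

lemma sum_ps_le1 (h : Sit G lam x u) (A : Finset V) :
    ∑ v ∈ A, ps c x v ≤ max (c - 1) 0 * ∑ v ∈ A, x v ^ 2 := by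
  rw [Finset.mul_sum]
  exact Finset.sum_le_sum (fun v _ => ps_le1 h v)

lemma tauB1 (p : Par G k K lam x u E q D Z c N) :
    ∑ v ∈ Ut G u Z D, ps c x v ≤ max (c - 1) 0 * lam := by
  refine (sum_ps_le1 p.r.b.sit _).trans ?_
  apply mul_le_mul_of_nonneg_left _ (le_max_right _ _)
  calc ∑ v ∈ Ut G u Z D, x v ^ 2 ≤ ∑ v ∈ Ut G u Z D, x v := by
        apply Finset.sum_le_sum
        intro v _
        rw [sq]
        exact mul_le_of_le_one_left (p.r.b.sit.x0 v) (p.r.b.sit.x1 v)
    _ ≤ ∑ v ∈ UU G u, x v := by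
        apply Finset.sum_le_sum_of_subset_of_nonneg (Ut_UU Z D)
        intro v _ _
        exact p.r.b.sit.x0 v
    _ = lam := p.r.b.sumU

lemma tauA (p : Par G k K lam x u E q D Z c N) (hc : 1 < c) :
    ∑ v ∈ Z, ps c x v ≤ (1 - 1 / c) * (2 * lam + lam / (10 ^ 5 * K ^ 2)) := by
  have h1 := sum_ps_le1 (c := c) p.r.b.sit Z
  rw [max_eq_left (by linarith)] at h1
  have h2 : (c - 1) * ∑ v ∈ Z, x v ^ 2 = (1 - 1 / c) * (c * ∑ v ∈ Z, x v ^ 2) := by
    have : c ≠ 0 := by linarith
    field_simp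
  rw [h2] at h1
  refine h1.trans ?_
  apply mul_le_mul_of_nonneg_left (sA' p)
  have : 1 / c ≤ 1 := by
    rw [div_le_one (by linarith)]
    exact hc.le
  linarith

/-- pointwise bound for the second case -/
lemma pointwise (c y η : ℝ) (hc : 2 < c) (hy0 : 0 ≤ y) (hy1 : y ≤ 1) (hη : 0 ≤ η) (hη1 : η ≤ 1)
    (hcy : c * y ≤ 2 + η) : max (c * y ^ 2 - 1) 0 ≤ (2 / c + 3 * η) * y := by
  have hc0 : 0 < c := by linarith
  apply max_le
  · by_cases h : c * y ^ 2 ≤ 1
    · have : 0 ≤ (2 / c + 3 * η) * y := by positivity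
      linarith
    · push Not at h
      -- y > 1/c
      have h1 : 1 < c * y := by
        have : c * y ^ 2 ≤ c * y := by
          rw [sq, ← mul_assoc]
          exact mul_le_of_le_one_right (by positivity) hy1
        linarith
      -- multiply everything by c
      have h2 : c * (c * y ^ 2 - 1) ≤ c * ((2 / c + 3 * η) * y) := by
        have e1 : c * ((2 / c + 3 * η) * y) = 2 * y + 3 * η * (c * y) := by
          field_simp
        rw [e1]
        -- c² y² - c ≤ 2 y + 3 η c y ; put s = c y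
        have e2 : c * (c * y ^ 2 - 1) = (c * y) ^ 2 - c := by ring
        rw [e2]
        -- multiply by c again: c s² - c² ≤ 2 s + 3 η c s
        have h3 : c * ((c * y) ^ 2 - c) ≤ c * (2 * y + 3 * η * (c * y)) := by
          have e3 : c * (2 * y + 3 * η * (c * y)) = 2 * (c * y) + 3 * η * c * (c * y) := by ring
          rw [e3]
          set s := c * y with hs
          -- c s² - c² - 2 s - 3 η c s ≤ 0 where 1 < s ≤ 2 + η, c > 2
          have h4 : s ^ 2 ≤ s * (2 + η) := by nlinarith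
          have h5 : c * s ^ 2 ≤ c * (s * (2 + η)) := mul_le_mul_of_nonneg_left h4 hc0.le
          -- need : s (2c - 2) + c s η - 3 η c s ≤ c²
          have h6 : s * (2 * c - 2) ≤ (2 + η) * (2 * c - 2) :=
            mul_le_mul_of_nonneg_right hcy (by linarith)
          have h7 : 2 * η * c ≤ 2 * η * c * s := by
            have : 0 ≤ 2 * η * c := by positivity
            nlinarith
          nlinarith [sq_nonneg (c - 2)]
        exact le_of_mul_le_mul_left h3 hc0
      exact le_of_mul_le_mul_left h2 hc0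
  · positivity

lemma tauB2 (p : Par G k K lam x u E q D Z c N) (hc : 2 < c) :
    ∑ v ∈ Ut G u Z D, ps c x v ≤ (2 / c + 3 * (1 / (10 ^ 5 * K ^ 2))) * lam := by
  have hK := p.K2
  have hη0 : 0 ≤ 1 / (10 ^ 5 * K ^ 2) := by positivity
  have hη1 : 1 / (10 ^ 5 * K ^ 2) ≤ 1 := by
    rw [div_le_one (by positivity)]
    nlinarith
  have h1 : ∑ v ∈ Ut G u Z D, ps c x v ≤
      ∑ v ∈ Ut G u Z D, (2 / c + 3 * (1 / (10 ^ 5 * K ^ 2))) * x v := by
    apply Finset.sum_le_sum
    intro v hv
    exact pointwise c (x v) _ hc (p.r.b.sit.x0 v) (p.r.b.sit.x1 v) hη0 hη1 (xb p v hv)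
  rw [← Finset.mul_sum] at h1
  refine h1.trans ?_
  apply mul_le_mul_of_nonneg_left
  · calc ∑ v ∈ Ut G u Z D, x v ≤ ∑ v ∈ UU G u, x v := by
          apply Finset.sum_le_sum_of_subset_of_nonneg (Ut_UU Z D)
          intro v _ _
          exact p.r.b.sit.x0 v
      _ = lam := p.r.b.sumU
  · have : 0 < c := by linarith
    positivity

lemma smallc (p : Par G k K lam x u E q D Z c N) :
    64 * K * (32 * K ^ 3 * D + 4 * K) ≤ lam / 10 ^ 6 := by
  have hK := p.K2
  rw [le_div_iff₀ (by norm_num)]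
  have e2 : 64 * K * (32 * K ^ 3 * D + 4 * K) * 10 ^ 6 =
      2048 * 10 ^ 6 * (K ^ 4 * D) + 256 * 10 ^ 6 * K ^ 2 := by ring
  rw [e2]
  obtain ⟨h1, h2⟩ := p.r.one_le_D
  have hD0 := p.Dpos
  have a1 : K ^ 4 * D ≤ K ^ 6 * D := mul_le_mul_of_nonneg_right (p.Kpow 4 6 (by norm_num)) hD0.le
  have a2 : K ^ 2 * 1 ≤ K ^ 2 * D := mul_le_mul_of_nonneg_left (by linarith) (by positivity)
  have a3 : K ^ 2 * D ≤ K ^ 6 * D := mul_le_mul_of_nonneg_right (p.Kpow 2 6 (by norm_num)) hD0.le
  have a4 := p.r.lam_ge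
  norm_num at a4 ⊢
  have a5 : 0 ≤ K ^ 6 * D := by positivity
  linarith

lemma Zt_part (p : Par G k K lam x u E q D Z c N)
    (h : ∀ z ∈ Zt G x u Z D, ((Zt G x u Z D).filter (G.Adj z)).card + 2 ≤ k) :
    SP G c x Z Z ≤ (K - 2) * ∑ v ∈ Z, ps c x v + lam / 10 ^ 6 := by
  have hK := p.K2
  have hl := p.lpos
  have hsub : Zt G x u Z D ⊆ Z := fun z hz => ((mem_Zt z).1 hz).1
  rw [SP_split c Z _ hsub]
  have h1 : SP G c x (Zt G x u Z D) (Zt G x u Z D) ≤ (K - 2) * ∑ v ∈ Zt G x u Z D, ps c x v := by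
    apply SP_le_ps p.cpos.le
    intro v hv
    rw [dg_filter]
    have h2 : (((Zt G x u Z D).filter (G.Adj v)).card : ℝ) + 2 ≤ k := by exact_mod_cast h v hv
    rw [p.r.b.hK]
    linarith
  have h2 : ∑ v ∈ Zt G x u Z D, ps c x v ≤ ∑ v ∈ Z, ps c x v :=
    Finset.sum_le_sum_of_subset_of_nonneg hsub (fun v _ _ => ps_nonneg c v)
  have h3 := mul_le_mul_of_nonneg_left h2 (by linarith : (0:ℝ) ≤ K - 2)
  have hdeg : ∀ X : Finset V, X ⊆ Z → SP G c x (Z \ Zt G x u Z D) X ≤
      64 * K * (((Z \ Zt G x u Z D).card : ℝ) * K) := by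
    intro X hX
    refine (SP_le_EE p _ _).trans ?_
    have h4 : EE G (Z \ Zt G x u Z D) X ≤ ((Z \ Zt G x u Z D).card : ℝ) * K := by
      apply EE_le_deg
      intro v hv
      have h5 := p.r.Z_Z v (Finset.mem_sdiff.1 hv).1
      have h6 : dg G X v ≤ dg G Z v :=
        Finset.sum_le_sum_of_subset_of_nonneg hX (fun _ _ _ => ad_nonneg G _ _)
      rw [dg_filter Z] at h6
      refine h6.trans ?_
      rw [p.r.b.hK]
      exact_mod_cast h5.le
    exact mul_le_mul p.c_le h4 (EE_nonneg _ _) (by linarith)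
  have h4 := hdeg (Zt G x u Z D) hsub
  have h5 := hdeg (Z \ Zt G x u Z D) Finset.sdiff_subset
  have h7 : 64 * K * (((Z \ Zt G x u Z D).card : ℝ) * K) ≤ lam / (3 * 10 ^ 6) := by
    have h8 := Zt_card p
    have h9 : 64 * K * (((Z \ Zt G x u Z D).card : ℝ) * K) ≤ 64 * K * (2 * (E * q) * K) := by
      apply mul_le_mul_of_nonneg_left _ (by linarith)
      exact mul_le_mul_of_nonneg_right h8 (by linarith)
    refine h9.trans ?_
    rw [le_div_iff₀ (by positivity)]
    have a1 := p.r.lam_ge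
    have a2 := p.r.D_ge
    have hq1 := p.q1pos
    have hD0 := p.Dpos
    have hK6 : 1 ≤ K ^ 6 := one_le_pow₀ (by linarith)
    have a3 : K ^ 2 * (E * q) ≤ K ^ 6 * (E * q) :=
      mul_le_mul_of_nonneg_right (p.Kpow 2 6 (by norm_num)) hq1.le
    have a4 : 1 * D ≤ K ^ 6 * D := mul_le_mul_of_nonneg_right hK6 hD0.le
    have e1 : 64 * K * (2 * (E * q) * K) * (3 * 10 ^ 6) = 384 * 10 ^ 6 * (K ^ 2 * (E * q)) := by
      ring
    rw [e1]
    norm_num at a1 a2 ⊢
    linarith
  have h8 : lam / 10 ^ 6 = 3 * (lam / (3 * 10 ^ 6)) := by ring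
  linarith

/-- the balanced case is impossible -/
theorem balanced_false (r : Rich G k K lam x u E q D Z) : False := by
  have p : Par G k K lam x u E q D Z (4 * lam / ∑ v, x v ^ 2) (∑ v, x v ^ 2) :=
    ⟨r, rfl, rfl⟩
  set N := ∑ v, x v ^ 2 with hN
  set c := 4 * lam / N with hc
  clear_value N c
  have hK := p.K2
  have hl := p.lpos
  have hmain := p.combined
  have hb1 := bound1 p
  have hb2 := bound2 p
  have hKl : lam ≤ (K - 1) * lam := by nlinarith
  rcases le_or_gt c 1 with hc1 | hc1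
  · -- no positive terms at all
    have hz : ∀ A : Finset V, ∑ v ∈ A, ps c x v ≤ 0 := by
      intro A
      have := sum_ps_le1 (c := c) p.r.b.sit A
      rw [max_eq_right (by linarith), zero_mul] at this
      exact this
    have a1 := mul_le_mul_of_nonneg_left (hz Z) (by linarith : (0:ℝ) ≤ K - 1)
    have a2 := mul_le_mul_of_nonneg_left (hz (Ut G u Z D)) (by linarith : (0:ℝ) ≤ K - 1)
    rw [mul_zero] at a1 a2
    linarith
  · have hc0 : 0 < c := by linarith
    set t := 1 / c with ht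
    have ht0 : 0 < t := by positivity
    have ht1 : t < 1 := by rw [ht, div_lt_one hc0]; exact hc1
    have htK : 1 / (64 * K) ≤ t := by
      rw [ht]
      exact one_div_le_one_div_of_le hc0 p.c_le
    have hA := tauA p hc1
    rw [← ht] at hA
    set e := lam / (10 ^ 5 * K ^ 2) with he
    have he0 : 0 < e := by positivity
    have heK : K * e ≤ lam / 10 ^ 5 := by
      rw [he, ← mul_div_assoc, div_le_div_iff₀ (by positivity) (by norm_num)]
      have : K * 1 ≤ K * K := mul_le_mul_of_nonneg_left (by linarith) (by linarith)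
      nlinarith
    rcases two_cases p with hE | hdeg
    · -- few edges in `Ut`
      have h5 : SP G c x (Ut G u Z D) (Ut G u Z D) ≤ lam / 10 ^ 6 := by
        refine (SP_le_EE p _ _).trans ?_
        refine le_trans ?_ (smallc p)
        have hDp := p.Dpos
        exact mul_le_mul p.c_le hE (EE_nonneg _ _) (by linarith)
      have h6 := mul_le_mul_of_nonneg_left hA (by linarith : (0:ℝ) ≤ K - 1)
      -- (K-1)(1-t)(2 lam + e) / 2
      have h7 : (K - 1) * ((1 - t) * (2 * lam + e)) ≤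
          (K - 1) * ((1 - 1 / (64 * K)) * (2 * lam + e)) := by
        apply mul_le_mul_of_nonneg_left _ (by linarith)
        apply mul_le_mul_of_nonneg_right _ (by linarith)
        linarith
      have h8 : (K - 1) * ((1 - 1 / (64 * K)) * (2 * lam + e)) ≤
          2 * (K - 1) * lam + K * e - (1 / 64) * lam := by
        have a1 : (K - 1) * (1 / (64 * K)) = 1 / 64 - 1 / (64 * K) := by
          field_simp
        have a2 : 1 / (64 * K) ≤ 1 / 128 := by
          apply one_div_le_one_div_of_le (by norm_num)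
          linarith
        have a3 : 1 / 128 ≤ (K - 1) * (1 / (64 * K)) := by rw [a1]; linarith
        have a4 : (K - 1) * ((1 - 1 / (64 * K)) * (2 * lam + e)) =
            2 * (K - 1) * lam + (K - 1) * e - (K - 1) * (1 / (64 * K)) * (2 * lam + e) := by ring
        have a5 : 1 / 128 * (2 * lam + e) ≤ (K - 1) * (1 / (64 * K)) * (2 * lam + e) :=
          mul_le_mul_of_nonneg_right a3 (by linarith)
        linarith
      norm_num at h5 heK
      linarith
    · -- small degrees in `Zt`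
      have h5 := Zt_part p hdeg
      rcases le_or_gt c 2 with hc2 | hc2
      · have hB := tauB1 p
        rw [max_eq_left (by linarith)] at hB
        have ht2 : 1 / 2 ≤ t := by
          rw [ht]
          exact one_div_le_one_div_of_le hc0 hc2
        have h6 : (1 - t) * (2 * lam + e) ≤ (1 / 2) * (2 * lam + e) :=
          mul_le_mul_of_nonneg_right (by linarith) (by linarith)
        have h7 := mul_le_mul_of_nonneg_left (hA.trans h6) (by linarith : (0:ℝ) ≤ K - 2)
        have h8 : (c - 1) * lam ≤ 1 * lam := mul_le_mul_of_nonneg_right (by linarith) hl.le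
        have h9 := mul_le_mul_of_nonneg_left (hB.trans h8) (by linarith : (0:ℝ) ≤ K - 1)
        norm_num at h5 heK
        nlinarith
      · have hB := tauB2 p hc2
        have e1 : (2 / c + 3 * (1 / (10 ^ 5 * K ^ 2))) * lam = 2 * t * lam + 3 * e := by
          rw [he, ht]; ring
        rw [e1] at hB
        have ht2 : t ≤ 1 / 2 := by
          rw [ht]
          exact one_div_le_one_div_of_le (by norm_num) hc2.le
        have h7 := mul_le_mul_of_nonneg_left hA (by linarith : (0:ℝ) ≤ K - 2)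
        have h9 := mul_le_mul_of_nonneg_left hB (by linarith : (0:ℝ) ≤ K - 1)
        have h10 : t * lam ≤ 1 / 2 * lam := mul_le_mul_of_nonneg_right ht2 hl.le
        have h11 : 0 ≤ t * e := mul_nonneg ht0.le he0.le
        have h12 : 0 ≤ (K - 2) * (t * e) := mul_nonneg (by linarith) h11
        norm_num at h5 heK
        nlinarith

end Pool.Agent.H35.Wh.WG
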