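import Mathlib
import Pool.Agent.H35.Wh.WG
import Pool.Agent.H35.Wh.FrD

set_option autoImplicit false

open Finset

namespace Pool.Agent.H35.Wh.WH

open Pool.Agent.H35.Wh.Defs Pool.Agent.H35.Wh.FrB Pool.Agent.H35.Wh.Core
open Pool.Agent.H35.Wh.WA Pool.Agent.H35.Wh.WB Pool.Agent.H35.Wh.WC Pool.Agent.H35.Wh.WD
open Pool.Agent.H35.Wh.FrD

variable {V : Type*} [Fintype V] [DecidableEq V]
variable {G : SimpleGraph V} [DecidableRel G.Adj]
variable {k : ℕ} {K lam E q : ℝ} {x : V → ℝ} {u : V}

/-- the assumptions of the main case -/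
structure Poor (G : SimpleGraph V) [DecidableRel G.Adj] (k : ℕ) (K lam : ℝ) (x : V → ℝ) (u : V)
    (E q : ℝ) (B : ℝ) : Prop where
  b : Bal G k K lam x u E q
  hB : B = 2 ^ (4 * k)
  big : 10 ^ 10 * K ^ 10 * B ≤ lam
  poor : ∀ w, ∑ v ∈ far G u, ad G w v * x v < lam / (4 * K)

open Classical in
/-- heavy neighbours of `u` -/
noncomputable def PP (G : SimpleGraph V) [DecidableRel G.Adj] (x : V → ℝ) (u : V) : Finset V :=
  (UU G u).filter (fun w => 1 / 2 ≤ x w)

lemma mem_PP (w : V) : w ∈ PP G x u ↔ G.Adj u w ∧ 1 / 2 ≤ x w := by simp [PP, mem_UU]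

namespace Poor

variable {B : ℝ}

lemma B1 (p : Poor G k K lam x u E q B) : 1 ≤ B := by
  rw [p.hB]
  exact one_le_pow₀ (by norm_num)

lemma pw (p : Poor G k K lam x u E q B) (j : ℕ) (hj : j ≤ 10) : 10 ^ 10 * K ^ j * B ≤ lam := by
  have h1 : K ^ j ≤ K ^ 10 := pow_le_pow_right₀ (by linarith [p.b.K2]) hj
  have h2 := p.big
  have h3 := mul_le_mul_of_nonneg_right h1 (by linarith [p.B1] : (0:ℝ) ≤ B)
  linarith

lemma quarter (p : Poor G k K lam x u E q B) : lam / (4 * K) ≤ lam / 8 := by
  have := p.b.K2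
  apply div_le_div_of_nonneg_left p.b.lpos.le (by norm_num)
  linarith

lemma NU (p : Poor G k K lam x u E q B) (w : V) :
    lam * x w - 1 - lam / (4 * K) ≤ ∑ w' ∈ UU G u, ad G w w' * x w' := by
  have h1 := p.b.rowsplit w
  have h2 := ad_le_one G w u
  have h3 := p.poor w
  linarith

/-- bounded number of heavy neighbours -/
lemma P_lt (p : Poor G k K lam x u E q B) : (PP G x u).card < 4 * k := by
  by_contra hcon
  push Not at hcon
  obtain ⟨P, hP, hPc⟩ := Finset.exists_subset_card_eq hcon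
  have hPu : ∀ q ∈ P, G.Adj u q := fun q hq => ((mem_PP q).1 (hP hq)).1
  have h1 := p.b.wsum_le P (UU G u) hPu subset_rfl
  have h2 : ∑ w ∈ UU G u, dg G P w * x w = ∑ q ∈ P, ∑ w ∈ UU G u, ad G q w * x w := by
    rw [Finset.sum_comm]
    apply Finset.sum_congr rfl
    intro w _
    unfold dg
    rw [Finset.sum_mul]
    exact Finset.sum_congr rfl (fun q _ => by rw [ad_symm])
  have h3 : ∑ q ∈ P, (3 / 8 * lam - 1) ≤ ∑ q ∈ P, ∑ w ∈ UU G u, ad G q w * x w := by
    apply Finset.sum_le_sum
    intro q hq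
    have h4 := p.NU q
    have h5 := p.quarter
    have h6 : lam * (1 / 2) ≤ lam * x q :=
      mul_le_mul_of_nonneg_left ((mem_PP q).1 (hP hq)).2 p.b.lpos.le
    linarith
  rw [Finset.sum_const, nsmul_eq_mul, hPc] at h3
  rw [hPc, ← p.hB, h2] at h1
  push_cast at h1 h3
  rw [← p.b.hK] at h1 h3
  have h4 := p.pw 2 (by norm_num)
  have hB := p.B1
  have hK := p.b.K2
  have h5 : 0 ≤ K ^ 2 * B := by positivity
  have h6 : 0 < lam := p.b.lpos
  have h7 : 4 * K * (B * K) = 4 * (K ^ 2 * B) := by ring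
  have h8 : 4 * K * (3 / 8 * lam - 1) = 3 / 2 * (K * lam) - 4 * K := by ring
  rw [h7] at h1
  rw [h8] at h3
  have h9 : 10 ^ 10 * (K ^ 2 * B) ≤ lam := by linarith
  have h10 : 4 * K ≤ K * lam / 2 := by
    have := p.pw 0 (by norm_num)
    nlinarith
  nlinarith

/-- the weighted defects are bounded -/
lemma defect (p : Poor G k K lam x u E q B) (c : ℕ) (hc : (PP G x u).card = c) :
    q2 G x (PP G x u) (rst G u (PP G x u)) +
      (q2 G x (far G u) (PP G x u) + q2 G x (far G u) (rst G u (PP G x u))) +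
      EE G (far G u) (far G u) / 2 ≤ 13 * K ^ 2 * B ∧ K - 1 ≤ c := by
  have hlt := p.P_lt
  rw [hc] at hlt
  have hPu : ∀ q ∈ PP G x u, G.Adj u q := fun q hq => ((mem_PP q).1 hq).1
  have hst := star p.b.sit (PP G x u) hPu
  rw [q1_eq] at hst
  have hsum := sum_U p.b.sit (PP G x u) hPu
  set P := PP G x u with hP
  set Q := rst G u P with hQ
  set W := far G u with hW
  have hcR : (c : ℝ) ≤ 4 * K := by
    rw [p.b.hK]
    have : c ≤ 4 * k := by omega
    exact_mod_cast this
  have hc0 : (0 : ℝ) ≤ c := Nat.cast_nonneg _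
  have hXX : ∀ A : Finset V, XX G x A A ≤ EE G A A := by
    intro A
    rw [XX_self, EE_eq]
    apply Finset.sum_le_sum
    intro v _
    have h1 := dg_nonneg (G := G) A v
    have h2 := p.b.sit.x1 v
    nlinarith
  have hPP : EE G P P ≤ c ^ 2 := by
    rw [EE_eq]
    have h1 : ∑ v ∈ P, dg G P v ≤ ∑ v ∈ P, (c : ℝ) := by
      apply Finset.sum_le_sum
      intro v hv
      have := dg_self_le (G := G) P v hv
      rw [hc] at this
      linarith
    rw [Finset.sum_const, nsmul_eq_mul, hc] at h1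
    linarith
  have hQQ : XX G x Q Q - EE G Q Q / 2 ≤ 0 := by
    rw [XX_self, EE_eq, Finset.sum_div, ← Finset.sum_sub_distrib]
    apply Finset.sum_nonpos
    intro q hq
    have h1 := dg_nonneg (G := G) Q q
    rw [hQ, mem_rst, hP, mem_PP, not_and] at hq
    have h2 := hq.2 hq.1
    push Not at h2
    nlinarith
  have hq2 := q2_nonneg p.b.sit P Q
  have hq3a := q2_nonneg p.b.sit W P
  have hq3b := q2_nonneg p.b.sit W Q
  have hq4 := EE_nonneg (G := G) W W
  have hq1 := q1_nonneg p.b.sit P Q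
  rw [q1_eq] at hq1
  have hsP : 0 ≤ ∑ v ∈ P, x v := Finset.sum_nonneg (fun v _ => p.b.sit.x0 v)
  have hsQ : 0 ≤ ∑ v ∈ Q, x v := Finset.sum_nonneg (fun v _ => p.b.sit.x0 v)
  have hlow := p.b.low
  have hK := p.b.K2
  have hB := p.B1
  rw [hc] at hst hq1
  have hXQ : XX G x P Q = ∑ w ∈ Q, dg G P w * x w := by
    unfold XX dg
    rw [Finset.sum_comm]
    apply Finset.sum_congr rfl
    intro w _
    rw [Finset.sum_mul]
    exact Finset.sum_congr rfl (fun q _ => by rw [ad_symm])
  have hws := p.b.wsum_le P Q hPu (by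
    intro w hw
    rw [hQ, mem_rst] at hw
    exact (mem_UU w).2 hw.1)
  rw [← hXQ, hc] at hws
  have h2c : (2 : ℝ) ^ c ≤ B := by
    rw [p.hB]
    exact pow_le_pow_right₀ (by norm_num) (by omega)
  have hbad : (c : ℝ) * (2 ^ c * K) ≤ 4 * K ^ 2 * B := by
    have h1 : (2 : ℝ) ^ c * K ≤ B * K := mul_le_mul_of_nonneg_right h2c (by linarith)
    calc (c : ℝ) * (2 ^ c * K) ≤ c * (B * K) := mul_le_mul_of_nonneg_left h1 hc0
      _ ≤ 4 * K * (B * K) := mul_le_mul_of_nonneg_right hcR (by positivity)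
      _ = 4 * K ^ 2 * B := by ring
  have hcc : (c : ℝ) ^ 2 ≤ 16 * K ^ 2 := by nlinarith
  have h1 := hXX P
  have hKB : K ^ 2 ≤ K ^ 2 * B := by
    have : 0 ≤ K ^ 2 := by positivity
    nlinarith
  constructor
  · have e1 : (c : ℝ) * (lam - ∑ s ∈ P, x s) = c * ∑ t ∈ Q, x t := by
      congr 1; linarith
    rw [e1] at hst
    linarith
  · by_contra hcon
    push Not at hcon
    have hck : c + 2 ≤ k := by
      have h2 : (c : ℝ) + 1 < k := by rw [← p.b.hK]; linarith
      have h3 : c + 1 < k := by exact_mod_cast h2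
      omega
    have hck' : (c : ℝ) + 2 ≤ K := by rw [p.b.hK]; exact_mod_cast hck
    have hl := p.b.lpos
    have h4 : (c : ℝ) * (lam - ∑ s ∈ P, x s) ≤ (K - 2) * lam := by
      have h5 : (c : ℝ) * (lam - ∑ s ∈ P, x s) ≤ c * lam :=
        mul_le_mul_of_nonneg_left (by linarith) hc0
      have h6 : (c : ℝ) * lam ≤ (K - 2) * lam := mul_le_mul_of_nonneg_right (by linarith) hl.le
      linarith
    have h5 := p.pw 2 (by norm_num)
    have h6 : 10 ^ 10 * K ^ 2 ≤ 10 ^ 10 * K ^ 2 * B := by
      have : 0 ≤ 10 ^ 10 * K ^ 2 := by positivity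
      nlinarith
    have hKp : 0 < K ^ 2 := by positivity
    linarith

/-- the number of heavy neighbours -/
lemma main (p : Poor G k K lam x u E q B) : (PP G x u).card + 1 = k ∧
    ∀ s ∈ PP G x u, lam / 4 ≤ dg G (rst G u (PP G x u)) s := by
  have hlt := p.P_lt
  obtain ⟨c, hc⟩ : ∃ c, (PP G x u).card = c := ⟨_, rfl⟩
  obtain ⟨hd, hge⟩ := p.defect c hc
  have hPu : ∀ q ∈ PP G x u, G.Adj u q := fun q hq => ((mem_PP q).1 hq).1
  set P := PP G x u with hP
  set Q := rst G u P with hQ
  set W := far G u with hW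
  have hK := p.b.K2
  have hB := p.B1
  have hl := p.b.lpos
  have hq3a := q2_nonneg p.b.sit W P
  have hq3b := q2_nonneg p.b.sit W Q
  have hq4 := EE_nonneg (G := G) W W
  have hKp : 0 < K ^ 2 := by positivity
  have h2 := p.pw 2 (by norm_num)
  have h3 := p.pw 3 (by norm_num)
  have h1 := p.pw 1 (by norm_num)
  have hKB1 : K ≤ K ^ 1 * B := by nlinarith
  have hKB : K ^ 2 ≤ K ^ 2 * B := by nlinarith
  have hcR : (c : ℝ) ≤ 4 * K := by
    rw [p.b.hK]
    have : c ≤ 4 * k := by omega
    exact_mod_cast this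
  have hsplit : ∀ f : V → ℝ, ∑ w ∈ UU G u, f w = ∑ w ∈ P, f w + ∑ w ∈ Q, f w := by
    intro f
    have h4 : UU G u = P ∪ Q := by
      ext w
      rw [mem_UU, Finset.mem_union, hQ, mem_rst]
      constructor
      · intro h
        by_cases h5 : w ∈ P
        · exact Or.inl h5
        · exact Or.inr ⟨h, h5⟩
      · rintro (h | h)
        · exact hPu w h
        · exact h.1
    rw [h4, Finset.sum_union]
    rw [Finset.disjoint_left]
    intro a ha hb
    rw [hQ, mem_rst] at hb
    exact hb.2 ha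
  have hdg : ∀ s ∈ P, lam / 4 ≤ dg G Q s := by
    intro s hs
    have h4 := p.NU s
    have h5 := p.quarter
    have h6 : lam * (1 / 2) ≤ lam * x s :=
      mul_le_mul_of_nonneg_left ((mem_PP s).1 hs).2 hl.le
    rw [hsplit] at h4
    have h7 : ∑ w ∈ P, ad G s w * x w ≤ c := by
      calc ∑ w ∈ P, ad G s w * x w ≤ ∑ w ∈ P, (1 : ℝ) :=
            Finset.sum_le_sum (fun w _ => mul_le_one₀ (ad_le_one G _ _) (p.b.sit.x0 w)
              (p.b.sit.x1 w))
        _ = c := by rw [← hc]; simp
    have h8 := p.b.sum_ad_le Q s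
    linarith
  refine ⟨?_, hdg⟩
  rw [hc]
  -- heavy entries are close to one
  have hx : ∀ s ∈ P, lam * (1 - x s) ≤ 52 * K ^ 2 * B := by
    intro s hs
    have h4 : dg G Q s * (1 - x s) ≤ q2 G x P Q := by
      rw [q2_dg]
      exact Finset.single_le_sum (f := fun s => dg G Q s * (1 - x s))
        (fun s _ => mul_nonneg (dg_nonneg _ _) (by have := p.b.sit.x1 s; linarith)) hs
    have h5 : lam / 4 * (1 - x s) ≤ dg G Q s * (1 - x s) :=
      mul_le_mul_of_nonneg_right (hdg s hs) (by have := p.b.sit.x1 s; linarith)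
    linarith
  have hMM : ∀ s ∈ P, MM G x u s ≤ 53 * K ^ 2 * B + lam / (4 * K) := by
    intro s hs
    have h4 := p.b.MM_eq s
    have h5 := p.NU s
    have h6 := hx s hs
    have h7 : 4 ≤ K ^ 2 := by nlinarith
    linarith
  by_contra hcon
  have hge' : k ≤ c := by
    have h4 : (k : ℝ) ≤ c + 1 := by rw [← p.b.hK]; linarith
    have h5 : k ≤ c + 1 := by exact_mod_cast h4
    omega
  rw [← hc] at hge'
  obtain ⟨I, hI, hIc⟩ := Finset.exists_subset_card_eq hge'
  have h4 := common_card (G := G) I (UU G u) x p.b.sit.x0 p.b.sit.x1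
  rw [p.b.sumU] at h4
  have h5 : ∑ i ∈ I, ∑ z ∈ UU G u, (1 - ad G i z) * x z ≤ K * (53 * K ^ 2 * B + lam / (4 * K)) := by
    have h6 : ∑ i ∈ I, ∑ z ∈ UU G u, (1 - ad G i z) * x z ≤
        ∑ i ∈ I, (53 * K ^ 2 * B + lam / (4 * K)) :=
      Finset.sum_le_sum (fun i hi => hMM i (hI hi))
    rw [Finset.sum_const, nsmul_eq_mul, hIc, ← p.b.hK] at h6
    exact h6
  have h6 : K * (53 * K ^ 2 * B + lam / (4 * K)) = 53 * (K ^ 3 * B) + lam / 4 := by
    field_simp
    try ring
  rw [h6] at h5
  have h7 : ((k : ℕ) : ℝ) ≤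
      (((UU G u).filter (fun z => ∀ i ∈ I, G.Adj i z)).card : ℝ) := by
    rw [← p.b.hK]
    have h8 : K ^ 1 * B = K * B := by ring
    linarith
  have h8 : k ≤ ((UU G u).filter (fun z => ∀ i ∈ I, G.Adj i z)).card := by exact_mod_cast h7
  apply p.b.free
  apply wheel_K G k (by have := p.b.hk; omega) u I _ hIc h8 (fun i hi => hPu i (hI hi))
  · intro j hj
    exact (mem_UU j).1 (Finset.mem_filter.1 hj).1
  · intro i hi j hj
    exact (Finset.mem_filter.1 hj).2 i hi

end Poor

/-- no heavy vertex outside the neighbourhood of `u` -/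
lemma no_heavy (h : Sit G lam x u) (k : ℕ) (hk : 3 ≤ k) (S : Finset V)
    (hS : ∀ s ∈ S, G.Adj u s) (hcard : S.card + 1 = k)
    (hfree : ¬ (wheel (2 * k + 1)).IsContained G)
    (hlam : 1000 * (k : ℝ) ^ 4 ≤ lam)
    (hR : (((k : ℝ) - 1) * (k - 2) - EE G S S) / 2 + q1 G x S (rst G u S)
      + q2 G x S (rst G u S) / 2
      + (q2 G x (far G u) S + q2 G x (far G u) (rst G u S)) + EE G (far G u) (far G u) / 2 ≤
      (k : ℝ) / 4) :
    ∀ w ∈ far G u, x w < 1 / 2 := by
  intro w0 hw0
  by_contra hcon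
  push Not at hcon
  obtain ⟨K, hKdef⟩ : ∃ K : ℝ, K = k := ⟨_, rfl⟩
  have hK3 : (3 : ℝ) ≤ K := by rw [hKdef]; exact_mod_cast hk
  have hK : (2 : ℝ) ≤ K := by linarith
  rw [← hKdef] at hlam hR
  have hcardK : (S.card : ℝ) = K - 1 := by
    have : (S.card : ℝ) + 1 = K := by rw [hKdef]; exact_mod_cast hcard
    linarith
  have hK4 : 4 * K ^ 2 ≤ K ^ 4 := by
    nlinarith [mul_nonneg (by linarith : (0:ℝ) ≤ K - 2) (by positivity : (0:ℝ) ≤ K ^ 3),
      mul_nonneg (by linarith : (0:ℝ) ≤ K - 2) (by positivity : (0:ℝ) ≤ K ^ 2)]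
  have hl2 : 4000 * K ^ 2 ≤ lam := by linarith
  have hK2 : 2 * K ≤ K ^ 2 := by nlinarith
  have hl1 : 8000 * K ≤ lam := by linarith
  have hlampos : 0 < lam := by linarith
  set T := rst G u S with hT
  set W := far G u with hW
  have hd1 : 0 ≤ (K - 1) * (K - 2) - EE G S S := by
    have h1 : EE G S S ≤ ∑ s ∈ S, (K - 2) := by
      rw [EE_eq]
      apply Finset.sum_le_sum
      intro s hs
      have := dg_self_le (G := G) S s hs
      linarith
    rw [Finset.sum_const, nsmul_eq_mul, hcardK] at h1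
    linarith
  have hq1 := q1_nonneg h S T
  have hq2 := q2_nonneg h S T
  have hq3a := q2_nonneg h W S
  have hq3b := q2_nonneg h W T
  have hWW := EE_nonneg (G := G) W W
  have hq1' : q1 G x S T ≤ K / 4 := by linarith
  have hq2' : q2 G x S T ≤ K / 2 := by linarith
  have hWW' : EE G W W ≤ K / 2 := by linarith
  have hq3' : q2 G x W S + q2 G x W T ≤ K / 4 := by linarith
  have hSx : ∑ s ∈ S, x s ≤ K - 1 := by
    calc ∑ s ∈ S, x s ≤ ∑ s ∈ S, (1:ℝ) := Finset.sum_le_sum (fun s _ => h.x1 s)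
      _ = K - 1 := by rw [Finset.sum_const, nsmul_eq_mul, mul_one, hcardK]
  have hsum := sum_U h S hS
  rw [← hT] at hsum
  have hSrow : ∀ s ∈ S, ∑ t ∈ T, (1 - ad G s t) * x t ≤ K / 4 := by
    intro s hs
    refine le_trans ?_ hq1'
    unfold q1
    exact Finset.single_le_sum (f := fun s => ∑ t ∈ T, (1 - ad G s t) * x t)
      (fun s _ => Finset.sum_nonneg (fun t _ =>
        mul_nonneg (by have := ad_le_one G s t; linarith) (h.x0 t))) hs
  have hcomp : ∀ (A : Finset V) (v : V), ∑ t ∈ A, (1 - ad G v t) * x t =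
      ∑ t ∈ A, x t - ∑ t ∈ A, ad G v t * x t := by
    intro A v
    rw [← Finset.sum_sub_distrib]
    exact Finset.sum_congr rfl (fun t _ => by ring)
  have hle : ∀ (A : Finset V) (v : V), ∑ w ∈ A, ad G v w * x w ≤ dg G A v := by
    intro A v
    apply Finset.sum_le_sum
    intro w _
    exact mul_le_of_le_one_right (ad_nonneg G v w) (h.x1 w)
  -- the entries of `S` are close to one in total
  have heps : lam * ∑ s ∈ S, (1 - x s) ≤ K := by
    have h1 : ∑ s ∈ S, (lam / 2) * (1 - x s) ≤ q2 G x S T := by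
      rw [q2_dg]
      apply Finset.sum_le_sum
      intro s hs
      have h2 := hSrow s hs
      rw [hcomp] at h2
      have h3 := hle T s
      have h4 := h.x1 s
      have h5 : lam / 2 ≤ dg G T s := by linarith
      exact mul_le_mul_of_nonneg_right h5 (by linarith)
    rw [← Finset.mul_sum] at h1
    linarith
  -- the vertex `w0`
  have hrow0 : lam * x w0 = ∑ s ∈ S, ad G w0 s * x s + ∑ t ∈ T, ad G w0 t * x t
      + ∑ w ∈ W, ad G w0 w * x w := by
    rw [← h.ev w0, split S hS (fun w => ad G w0 w * x w),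
      ad_not G w0 u (fun h' => ((mem_far _).1 hw0).2 h'.symm)]
    ring
  set a := x w0 with ha
  have ha1 : a ≤ 1 := h.x1 w0
  set P := ∑ s ∈ S, ad G w0 s * x s + ∑ t ∈ T, ad G w0 t * x t with hP
  set D := dg G S w0 + dg G T w0 with hD
  have hPD : P ≤ D := add_le_add (hle S w0) (hle T w0)
  -- edges at `w0` are counted twice in `EE G W W`
  have hWW2 : 2 * dg G W w0 ≤ EE G W W := by
    have e1 : dg G W w0 + ∑ v ∈ W.erase w0, dg G W v = EE G W W := by
      rw [EE_eq]; exact Finset.add_sum_erase W _ hw0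
    have e2 : ∑ v ∈ W.erase w0, ad G v w0 ≤ ∑ v ∈ W.erase w0, dg G W v := by
      apply Finset.sum_le_sum
      intro v _
      exact Finset.single_le_sum (f := fun w => ad G v w) (fun w _ => ad_nonneg G v w) hw0
    have e3 : ∑ v ∈ W.erase w0, ad G v w0 = dg G W w0 := by
      unfold dg
      rw [← Finset.add_sum_erase W _ hw0, ad_self, zero_add]
      exact Finset.sum_congr rfl (fun v _ => ad_symm G _ _)
    linarith
  have hWrow : ∑ w ∈ W, ad G w0 w * x w ≤ EE G W W / 2 := by
    have := hle W w0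
    linarith
  have hDq : D * (1 - a) ≤ q2 G x W S + q2 G x W T := by
    rw [q2_dg, q2_dg, hD, add_mul]
    apply add_le_add
    · exact Finset.single_le_sum (f := fun w => dg G S w * (1 - x w))
        (fun w _ => mul_nonneg (dg_nonneg _ _) (by have := h.x1 w; linarith)) hw0
    · exact Finset.single_le_sum (f := fun w => dg G T w * (1 - x w))
        (fun w _ => mul_nonneg (dg_nonneg _ _) (by have := h.x1 w; linarith)) hw0
  have h1a : lam * (1 - a) ≤ K := by
    have h2' : lam * (1 / 2) ≤ lam * a := mul_le_mul_of_nonneg_left hcon hlampos.le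
    have h2 : lam / 4 ≤ D := by linarith
    have h3 : lam / 4 * (1 - a) ≤ D * (1 - a) := mul_le_mul_of_nonneg_right h2 (by linarith)
    linarith
  have hDge : lam - 2 * K ≤ D := by linarith
  have h1a2 : (lam - D) * (1 - a) ≤ 1 / 200 := by
    have h2 : (lam - D) * (1 - a) ≤ 2 * K * (1 - a) :=
      mul_le_mul_of_nonneg_right (by linarith) (by linarith)
    have h3 : lam * (2 * K * (1 - a)) ≤ lam * (1 / 200) := by
      have h4 : 2 * K * (lam * (1 - a)) ≤ 2 * K * K :=
        mul_le_mul_of_nonneg_left h1a (by linarith)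
      linarith
    exact h2.trans (le_of_mul_le_mul_left h3 hlampos)
  have hmiss : lam - P ≤ q2 G x W S + q2 G x W T + EE G W W / 2 + 1 / 200 := by linarith
  have hsplit : lam - P = ∑ s ∈ S, (1 - ad G w0 s) * x s + ∑ t ∈ T, (1 - ad G w0 t) * x t := by
    rw [hcomp, hcomp, hP]; linarith
  have hSm : 0 ≤ ∑ s ∈ S, (1 - ad G w0 s) * x s := Finset.sum_nonneg (fun t _ =>
    mul_nonneg (by have := ad_le_one G w0 t; linarith) (h.x0 t))
  have hTm : 0 ≤ ∑ t ∈ T, (1 - ad G w0 t) * x t := Finset.sum_nonneg (fun t _ =>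
    mul_nonneg (by have := ad_le_one G w0 t; linarith) (h.x0 t))
  have hepssmall : ∑ s ∈ S, (1 - x s) ≤ 1 / 200 := by
    have h3 : lam * ∑ s ∈ S, (1 - x s) ≤ lam * (1 / 200) := by linarith
    exact le_of_mul_le_mul_left h3 hlampos
  have hSm2 : (K - 1) - dg G S w0 - 1 / 200 ≤ ∑ s ∈ S, (1 - ad G w0 s) * x s := by
    have h2 : (K - 1) - dg G S w0 = ∑ s ∈ S, (1 - ad G w0 s) := by
      rw [Finset.sum_sub_distrib, Finset.sum_const, nsmul_eq_mul, mul_one, hcardK]
      rfl
    have h3 : ∑ s ∈ S, (1 - ad G w0 s) - ∑ s ∈ S, (1 - x s) ≤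
        ∑ s ∈ S, (1 - ad G w0 s) * x s := by
      rw [← Finset.sum_sub_distrib]
      apply Finset.sum_le_sum
      intro s _
      have h4 := mul_nonneg (ad_nonneg G w0 s) (sub_nonneg.2 (h.x1 s))
      linarith
    linarith
  -- nonadjacent pairs inside `S`
  have huS : u ∉ S := fun hu => (hS u hu).ne rfl
  have hw0S : w0 ∉ S := fun hw => ((mem_far _).1 hw0).2 (hS w0 hw)
  have hSS : ∀ s ∈ S, dg G S s ≤ (K - 2) - ad G w0 s := by
    intro s hs
    by_cases hadj : G.Adj w0 s
    · rw [ad_of G _ _ hadj]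
      by_cases hall : ∀ s' ∈ S, s' ≠ s → G.Adj s s'
      · exfalso
        -- all of `insert w0 (insert u S)` has many common neighbours
        have hcc := common_card (G := G) (insert w0 (insert u S)) T x h.x0 h.x1
        have hw0uS : w0 ∉ insert u S := by
          intro h'
          rw [Finset.mem_insert] at h'
          rcases h' with h' | h'
          · exact ((mem_far _).1 hw0).1 h'
          · exact hw0S h'
        rw [Finset.sum_insert hw0uS, Finset.sum_insert huS] at hcc
        have hu0 : ∑ t ∈ T, (1 - ad G u t) * x t = 0 :=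
          Finset.sum_eq_zero (fun t ht => by
            rw [ad_of G u t ((mem_rst _ _).1 ht).1]; ring)
        have hS0 : ∑ i ∈ S, ∑ z ∈ T, (1 - ad G i z) * x z = q1 G x S T := rfl
        rw [hu0, hS0] at hcc
        have hJ : ((k : ℕ) : ℝ) ≤
            ((T.filter (fun z => ∀ i ∈ insert w0 (insert u S), G.Adj i z)).card : ℝ) := by
          rw [← hKdef]
          linarith
        have hJ' : k ≤ (T.filter (fun z => ∀ i ∈ insert w0 (insert u S), G.Adj i z)).card := by
          exact_mod_cast hJ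
        apply hfree
        apply wheel_K G k (by omega) s (insert w0 (insert u (S.erase s))) _ _ hJ'
        · intro i hi
          rw [Finset.mem_insert, Finset.mem_insert] at hi
          rcases hi with rfl | rfl | hi
          · exact hadj.symm
          · exact (hS s hs).symm
          · rw [Finset.mem_erase] at hi
            exact hall i hi.2 hi.1
        · intro j hj
          exact (Finset.mem_filter.1 hj).2 s
            (Finset.mem_insert_of_mem (Finset.mem_insert_of_mem hs))
        · intro i hi j hj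
          apply (Finset.mem_filter.1 hj).2 i
          rw [Finset.mem_insert, Finset.mem_insert] at hi ⊢
          rcases hi with rfl | rfl | hi
          · exact Or.inl rfl
          · exact Or.inr (Or.inl rfl)
          · exact Or.inr (Or.inr (Finset.mem_of_mem_erase hi))
        · rw [Finset.card_insert_of_notMem, Finset.card_insert_of_notMem,
            Finset.card_erase_of_mem hs]
          · have := Finset.card_pos.2 ⟨s, hs⟩
            omega
          · exact fun h' => huS (Finset.mem_of_mem_erase h')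
          · intro h'
            rw [Finset.mem_insert] at h'
            rcases h' with h' | h'
            · exact ((mem_far _).1 hw0).1 h'
            · exact hw0S (Finset.mem_of_mem_erase h')
      · push Not at hall
        obtain ⟨s', hs', hne, hna⟩ := hall
        unfold dg
        have hs'e : s' ∈ S.erase s := Finset.mem_erase.2 ⟨hne, hs'⟩
        rw [← Finset.add_sum_erase S _ hs, ad_self, zero_add,
          ← Finset.add_sum_erase (S.erase s) _ hs'e, ad_not G _ _ hna, zero_add]
        calc ∑ w ∈ (S.erase s).erase s', ad G s w ≤ ∑ w ∈ (S.erase s).erase s', (1:ℝ) :=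
              Finset.sum_le_sum (fun _ _ => ad_le_one G _ _)
          _ = (((S.erase s).erase s').card : ℝ) := by simp
          _ = K - 2 - 1 := by
              rw [Finset.card_erase_of_mem hs'e, Finset.card_erase_of_mem hs]
              have h2 : S.card - 1 - 1 + 2 = S.card := by
                have h3 := Finset.card_pos.2 ⟨s', hs'e⟩
                rw [Finset.card_erase_of_mem hs] at h3
                omega
              have h3 : ((S.card - 1 - 1 : ℕ) : ℝ) + 2 = S.card := by exact_mod_cast h2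
              linarith
    · rw [ad_not G _ _ hadj]
      have := dg_self_le (G := G) S s hs
      linarith
  have hEE : EE G S S ≤ (K - 1) * (K - 2) - dg G S w0 := by
    rw [EE_eq]
    have h2 : (K - 1) * (K - 2) - dg G S w0 = ∑ s ∈ S, ((K - 2) - ad G w0 s) := by
      rw [Finset.sum_sub_distrib, Finset.sum_const, nsmul_eq_mul, hcardK]
      rfl
    rw [h2]
    exact Finset.sum_le_sum hSS
  linarith

end Pool.Agent.H35.Wh.WH
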