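import Mathlib
import Pool.Agent.H35.Wh.WH

set_option autoImplicit false

open Finset

namespace Pool.Agent.H35.Wh.WI

open Pool.Agent.H35.Wh.Defs Pool.Agent.H35.Wh.Spec Pool.Agent.H35.Wh.FrB Pool.Agent.H35.Wh.Core
open Pool.Agent.H35.Wh.WA Pool.Agent.H35.Wh.WB Pool.Agent.H35.Wh.WC Pool.Agent.H35.Wh.WD
open Pool.Agent.H35.Wh.WH Pool.Agent.H35.Wh.FrD

/-- The structure of a wheel-free graph with a large spectral radius: a clique on `k` vertices
such that almost all edges join it to the remaining vertices. -/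
theorem core (k : ℕ) (hk : 3 ≤ k) {V : Type*} [Fintype V] [DecidableEq V] [Nonempty V]
    (G : SimpleGraph V) [DecidableRel G.Adj] (hfree : ¬ (wheel (2 * k + 1)).IsContained G)
    (c0 : ℝ) (hc0 : 0 ≤ c0) (hc1 : c0 ≤ (k : ℝ) / 4)
    (hlow : EE G univ univ / 2 - (k : ℝ) * (k - 1) / 2 - c0 ≤
      specRad G ^ 2 - ((k : ℝ) - 1) * specRad G)
    (hbig : 10 ^ 100 * (k : ℝ) ^ 100 * 2 ^ (rn k) ≤ specRad G) :
    ∃ L : Finset V, L.card = k ∧ (∀ a ∈ L, ∀ b ∈ L, a ≠ b → G.Adj a b) ∧
      ∑ r ∈ Lᶜ, dg G L r * (k - dg G L r) + k * (EE G Lᶜ Lᶜ / 2) < c0 * k + 1 := by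
  obtain ⟨K, hKdef⟩ : ∃ K : ℝ, K = k := ⟨_, rfl⟩
  obtain ⟨B, hBdef⟩ : ∃ B : ℝ, B = 2 ^ (4 * k) := ⟨_, rfl⟩
  have hB1 : 1 ≤ B := by rw [hBdef]; exact one_le_pow₀ (by norm_num)
  have hK3 : (3 : ℝ) ≤ K := by rw [hKdef]; exact_mod_cast hk
  have hK : (2 : ℝ) ≤ K := by linarith
  obtain ⟨x, u, h⟩ := exists_sit G
  rw [← hKdef] at hc1 hlow hbig
  rw [← hKdef]
  set lam := specRad G with hlamdef
  have hBr : B ≤ 2 ^ (rn k) := by
    rw [hBdef]
    apply pow_le_pow_right₀ (by norm_num)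
    unfold rn
    rw [mul_comm]
    apply Nat.mul_le_mul_left
    calc 4 ≤ 10 ^ 12 * 1 := by norm_num
      _ ≤ 10 ^ 12 * k ^ 6 := Nat.mul_le_mul_left _ (Nat.one_le_pow _ _ (by omega))
      _ = (10 ^ 12 * k ^ 6) ^ 1 := (pow_one _).symm
      _ ≤ (10 ^ 12 * k ^ 6) ^ 3 := Nat.pow_le_pow_right (by positivity) (by norm_num)
  have hK100 : (0 : ℝ) ≤ K ^ 100 := by positivity
  obtain ⟨M, hMdef⟩ : ∃ M : ℝ, M = 10 ^ 100 * K ^ 100 * B := ⟨_, rfl⟩
  have hlam : M ≤ lam := by
    refine le_trans ?_ hbig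
    rw [hMdef]
    exact mul_le_mul_of_nonneg_left hBr (by positivity)
  have hpw : ∀ j : ℕ, j ≤ 100 → 10 ^ 100 * K ^ j ≤ M ∧ 10 ^ 100 * K ^ j * B ≤ M := by
    intro j hj
    have h1 : K ^ j ≤ K ^ 100 := pow_le_pow_right₀ (by linarith) hj
    have h2 : 10 ^ 100 * K ^ j ≤ 10 ^ 100 * K ^ 100 := mul_le_mul_of_nonneg_left h1 (by norm_num)
    have h3 : 10 ^ 100 * K ^ j * B ≤ 10 ^ 100 * K ^ 100 * B :=
      mul_le_mul_of_nonneg_right h2 (by linarith)
    have h4 : 10 ^ 100 * K ^ j * 1 ≤ 10 ^ 100 * K ^ j * B :=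
      mul_le_mul_of_nonneg_left hB1 (by positivity)
    rw [hMdef]
    exact ⟨by linarith, h3⟩
  have hp4 := (hpw 4 (by norm_num)).1
  have hp1 := (hpw 1 (by norm_num)).1
  have hp0 := (hpw 0 (by norm_num)).1
  have hp10 := (hpw 10 (by norm_num)).2
  rw [pow_one] at hp1
  rw [pow_zero] at hp0
  have hK4 : 0 ≤ K ^ 4 := by positivity
  have hlam4 : 1000 * K ^ 4 ≤ lam := by linarith
  have hlampos : 0 < lam := by linarith
  have hl1' : 100 * K ≤ lam := by linarith
  -- the balanced case is impossible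
  have b : Bal G k K lam x u (10 ^ 12 * K ^ 6) (lam / (10 ^ 12 * K ^ 6) ^ 3) := by
    refine ⟨h, hk, hKdef, hfree, ?_, hbig, rfl, ?_⟩
    · have h1 : 0 ≤ K ^ 2 := by positivity
      have h2 : K * (K - 1) / 2 + K / 4 ≤ K ^ 2 := by nlinarith
      linarith
    · have h1 : (10 ^ 12 * K ^ 6) ^ 3 ≠ 0 := by positivity
      rw [mul_div_cancel₀ _ h1]
  have p : Poor G k K lam x u (10 ^ 12 * K ^ 6) (lam / (10 ^ 12 * K ^ 6) ^ 3) B := by
    refine ⟨b, hBdef, ?_, ?_⟩
    · have : 0 ≤ K ^ 10 * B := by positivity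
      have e1 : 10 ^ 10 * K ^ 10 * B = 10 ^ 10 * (K ^ 10 * B) := by ring
      have e2 : 10 ^ 100 * K ^ 10 * B = 10 ^ 100 * (K ^ 10 * B) := by ring
      rw [e2] at hp10
      rw [e1]
      have e3 : (10 : ℝ) ^ 10 * (K ^ 10 * B) ≤ 10 ^ 100 * (K ^ 10 * B) :=
        mul_le_mul_of_nonneg_right (by norm_num) this
      linarith
    · intro w
      by_contra hcon
      push Not at hcon
      exact Pool.Agent.H35.Wh.WG.balanced_false (Rich.of_rich b w hcon)
  obtain ⟨hcard, hdgS⟩ := p.main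
  have hS : ∀ s ∈ PP G x u, G.Adj u s := fun s hs => ((mem_PP s).1 hs).1
  have hQx : ∀ q ∈ rst G u (PP G x u), x q < 1 / 2 := by
    intro q hq
    rw [mem_rst, mem_PP, not_and] at hq
    have h2 := hq.2 hq.1
    push Not at h2
    exact h2
  set S := PP G x u with hSdef
  have hcardK : (S.card : ℝ) = K - 1 := by
    have : (S.card : ℝ) + 1 = K := by rw [hKdef]; exact_mod_cast hcard
    linarith
  set T := rst G u S with hT
  set W := far G u with hW
  have hTT : XX G x T T - EE G T T / 2 ≤ 0 := by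
    rw [XX_self, EE_eq, Finset.sum_div, ← Finset.sum_sub_distrib]
    apply Finset.sum_nonpos
    intro q hq
    have h1 := dg_nonneg (G := G) T q
    have h2 := hQx q hq
    have h3 : dg G T q * x q ≤ dg G T q * (1 / 2) := mul_le_mul_of_nonneg_left h2.le h1
    linarith
  have hR := refined h S hS K c0 hcardK hlow (by
    intro s hs
    have h1 := hdgS s hs
    have h3 := dg_nonneg (G := G) S s
    linarith)
  rw [← hT, ← hW] at hR
  have hR' : ((K - 1) * (K - 2) - EE G S S) / 2 + q1 G x S T + q2 G x S T / 2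
      + (q2 G x W S + q2 G x W T) + EE G W W / 2 ≤ K / 4 := by
    linarith
  have hnh := no_heavy h k hk S hS hcard hfree
    (by rw [← hKdef]; exact hlam4) (by rw [← hKdef]; exact hR')
  rw [← hW] at hnh
  -- everything else is light
  have hd1 : 0 ≤ (K - 1) * (K - 2) - EE G S S := by
    have h1 : EE G S S ≤ ∑ s ∈ S, (K - 2) := by
      rw [EE_eq]
      apply Finset.sum_le_sum
      intro s hs
      have := dg_self_le (G := G) S s hs
      linarith
    rw [Finset.sum_const, nsmul_eq_mul, hcardK] at h1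
    linarith
  have hq1 := q1_nonneg h S T
  have hq2 := q2_nonneg h S T
  have hWW := EE_nonneg (G := G) W W
  have hWS := EE_nonneg (G := G) W S
  have hWT := EE_nonneg (G := G) W T
  have hq3 : ∀ B : Finset V, EE G W B / 2 ≤ q2 G x W B := by
    intro B
    rw [q2_dg, EE_eq, Finset.sum_div]
    apply Finset.sum_le_sum
    intro w hw
    have h1 := hnh w hw
    have h2 := dg_nonneg (G := G) B w
    have h3 : dg G B w * (1 / 2) ≤ dg G B w * (1 - x w) :=
      mul_le_mul_of_nonneg_left (by linarith) h2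
    linarith
  have h3a := hq3 S
  have h3b := hq3 T
  have hq1' : q1 G x S T ≤ K / 4 := by linarith
  have hWST : EE G W S + EE G W T ≤ K / 2 := by linarith
  have hWW' : EE G W W ≤ K / 2 := by linarith
  have hrow : ∀ v, lam * x v ≤ ad G v u + dg G S v + ∑ w ∈ T, ad G v w * x w + dg G W v := by
    intro v
    rw [← h.ev v, split S hS (fun w => ad G v w * x w), h.xu, mul_one]
    have hle : ∀ (A : Finset V), ∑ w ∈ A, ad G v w * x w ≤ dg G A v := by
      intro A
      apply Finset.sum_le_sum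
      intro w _
      exact mul_le_of_le_one_right (ad_nonneg G v w) (h.x1 w)
    have h1 := hle S
    have h3 := hle W
    linarith
  have hsum := sum_U h S hS
  rw [← hT] at hsum
  have hSx : ∑ s ∈ S, x s ≤ K - 1 := by
    calc ∑ s ∈ S, x s ≤ ∑ s ∈ S, (1:ℝ) := Finset.sum_le_sum (fun s _ => h.x1 s)
      _ = K - 1 := by rw [Finset.sum_const, nsmul_eq_mul, mul_one, hcardK]
  -- vertices complete to `S`
  set F := T.filter (fun z => ∀ i ∈ S, G.Adj i z) with hF
  have hFT : F ⊆ T := Finset.filter_subset _ _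
  have hFc : k + 2 ≤ F.card := by
    have hcc := common_card (G := G) S T x h.x0 h.x1
    have hS0 : ∑ i ∈ S, ∑ z ∈ T, (1 - ad G i z) * x z = q1 G x S T := rfl
    rw [hS0, ← hF] at hcc
    have h1 : ((k + 2 : ℕ) : ℝ) ≤ (F.card : ℝ) := by
      push_cast
      rw [← hKdef]
      linarith
    exact_mod_cast h1
  have hTF : ∑ t ∈ T \ F, x t ≤ K / 4 := by
    refine le_trans ?_ hq1'
    have h1 : ∀ t ∈ T \ F, x t ≤ ∑ s ∈ S, (1 - ad G s t) * x t := by
      intro t ht
      rw [Finset.mem_sdiff, hF, Finset.mem_filter, not_and] at ht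
      have h2 := ht.2 ht.1
      push Not at h2
      obtain ⟨s, hs, hna⟩ := h2
      have h3 : (1 - ad G s t) * x t ≤ ∑ s ∈ S, (1 - ad G s t) * x t :=
        Finset.single_le_sum (f := fun s => (1 - ad G s t) * x t)
          (fun s _ => mul_nonneg (by have := ad_le_one G s t; linarith) (h.x0 t)) hs
      rw [ad_not G _ _ hna] at h3
      linarith
    calc ∑ t ∈ T \ F, x t ≤ ∑ t ∈ T \ F, ∑ s ∈ S, (1 - ad G s t) * x t :=
          Finset.sum_le_sum h1
      _ ≤ ∑ t ∈ T, ∑ s ∈ S, (1 - ad G s t) * x t := by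
          apply Finset.sum_le_sum_of_subset_of_nonneg Finset.sdiff_subset
          intro t _ _
          exact Finset.sum_nonneg (fun s _ =>
            mul_nonneg (by have := ad_le_one G s t; linarith) (h.x0 t))
      _ = q1 G x S T := by
          unfold q1
          rw [Finset.sum_comm]
  have hdgF : ∀ t ∈ T, dg G F t ≤ 1 := by
    intro t ht
    rw [dg_card]
    have h1 : (F.filter (G.Adj t)).card ≤ 1 := by
      rw [Finset.card_le_one]
      intro a ha b' hb
      by_contra hab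
      rw [Finset.mem_filter] at ha hb
      apply hfree
      apply wheel_path G k (by omega) u S F hcard hFc hS
        (fun j hj => ((mem_rst _ _).1 (hFT hj)).1)
        (fun i hi j hj => (Finset.mem_filter.1 hj).2 i hi) t a b' ha.1 hb.1 hab ha.2 hb.2
      · exact ((mem_rst _ _).1 ht).1
      · exact ((mem_rst _ _).1 ht).2
    exact_mod_cast h1
  have hlight : ∀ r, r ≠ u → r ∉ S → x r ≤ 1 / 4 := by
    intro r hru hrS
    have h1 := hrow r
    have h9 : lam * x r ≤ lam * (1 / 4) := by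
      by_cases hur : G.Adj u r
      · have hrT : r ∈ T := (mem_rst _ _).2 ⟨hur, hrS⟩
        have h2 := hdgF r hrT
        have h3 := dg_le_EE (G := G) T W r hrT
        rw [EE_comm T W] at h3
        have h4 : ad G r u ≤ 1 := ad_le_one G _ _
        have h5 : dg G S r ≤ K - 1 := by
          rw [← hcardK]
          unfold dg
          calc ∑ w ∈ S, ad G r w ≤ ∑ w ∈ S, (1:ℝ) :=
                Finset.sum_le_sum (fun _ _ => ad_le_one G _ _)
            _ = S.card := by simp
        have h6 : ∑ w ∈ T, ad G r w * x w =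
            ∑ w ∈ T \ F, ad G r w * x w + ∑ w ∈ F, ad G r w * x w := by
          rw [Finset.sum_sdiff hFT]
        have h7 : ∑ w ∈ T \ F, ad G r w * x w ≤ ∑ w ∈ T \ F, x w :=
          Finset.sum_le_sum (fun v _ => mul_le_of_le_one_left (h.x0 v) (ad_le_one G _ _))
        have h8 : ∑ w ∈ F, ad G r w * x w ≤ dg G F r :=
          Finset.sum_le_sum (fun w _ => mul_le_of_le_one_right (ad_nonneg G _ _) (h.x1 w))
        linarith
      · have hrW : r ∈ W := (mem_far _).2 ⟨hru, hur⟩
        have h2 := dg_le_EE (G := G) W S r hrW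
        have h3 := dg_le_EE (G := G) W T r hrW
        have h4 := dg_le_EE (G := G) W W r hrW
        have h5 : ad G r u = 0 := ad_not G _ _ (fun h' => hur h'.symm)
        have h8 : ∑ w ∈ T, ad G r w * x w ≤ dg G T r :=
          Finset.sum_le_sum (fun w _ => mul_le_of_le_one_right (ad_nonneg G _ _) (h.x1 w))
        linarith
    exact le_of_mul_le_mul_left h9 hlampos
  obtain ⟨hcl, hZ⟩ := core_light h S hS K c0 hK hcardK (by linarith) hc0 hc1 hlow
    (by rw [← hT, ← hW]; exact hR) hlight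
  have huS : u ∉ S := fun hu => (hS u hu).ne rfl
  refine ⟨insert u S, ?_, ?_, hZ⟩
  · rw [Finset.card_insert_of_notMem huS, hcard]
  · intro a ha a' hb hab
    rw [Finset.mem_insert] at ha hb
    rcases ha with rfl | ha <;> rcases hb with rfl | hb
    · exact absurd rfl hab
    · exact hS a' hb
    · exact (hS a ha).symm
    · exact hcl a ha a' hb hab

end Pool.Agent.H35.Wh.WI
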