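import Mathlib
import Pool.Agent.H35.Wh.WI
import Pool.Agent.H35.Wh.FrC

set_option autoImplicit false

open Finset

namespace Pool.Agent.H35.Wh.WJ

open Pool.Agent.H35.Wh.Defs Pool.Agent.H35.Wh.Spec Pool.Agent.H35.Wh.FrB Pool.Agent.H35.Wh.Core
open Pool.Agent.H35.Wh.FrC Pool.Agent.H35.Wh.FrD Pool.Agent.H35.Wh.WC

/-- a threshold -/
def m0 (k : ℕ) : ℕ := (10 ^ 100 * k ^ 100 * 2 ^ (rn k)) ^ 2 + k ^ 2 + k

lemma m0_real (k m : ℕ) (hm : m0 k ≤ m) :
    (10 ^ 100 * (k : ℝ) ^ 100 * 2 ^ (rn k)) ^ 2 + (k : ℝ) ^ 2 + k ≤ m := by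
  have h : ((m0 k : ℕ) : ℝ) ≤ m := by exact_mod_cast hm
  refine le_trans (le_of_eq ?_) h
  unfold m0
  generalize rn k = r
  push_cast
  norm_num

/-- a lower bound for the spectral radius -/
lemma big_of_low (k m : ℕ) (hk : 3 ≤ k) (hm : m0 k ≤ m) (lam c0 : ℝ) (hlam0 : 0 ≤ lam)
    (hc1 : c0 ≤ (k : ℝ) / 4)
    (hlow : (m : ℝ) - (k : ℝ) * (k - 1) / 2 - c0 ≤ lam ^ 2 - ((k : ℝ) - 1) * lam) :
    10 ^ 100 * (k : ℝ) ^ 100 * 2 ^ (rn k) ≤ lam := by
  have h1 := m0_real k m hm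
  obtain ⟨M, hM⟩ : ∃ M : ℝ, M = 10 ^ 100 * (k : ℝ) ^ 100 * 2 ^ (rn k) := ⟨_, rfl⟩
  rw [← hM] at h1 ⊢
  have hM0 : 0 ≤ M := by rw [hM]; positivity
  have hK : (3 : ℝ) ≤ k := by exact_mod_cast hk
  have h3 : 0 ≤ ((k : ℝ) - 1) * lam := mul_nonneg (by linarith) hlam0
  by_contra hcon
  push Not at hcon
  have h2 : lam ^ 2 < M ^ 2 := pow_lt_pow_left₀ hcon hlam0 two_ne_zero
  have h4 : (k : ℝ) * (k - 1) / 2 + k / 4 ≤ (k : ℝ) ^ 2 + k := by nlinarith
  linarith

lemma nonempty_of_edges {V : Type*} [Fintype V] [DecidableEq V] (G : SimpleGraph V)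
    [DecidableRel G.Adj] (h : 0 < G.edgeFinset.card) : Nonempty V := by
  by_contra hcon
  rw [not_nonempty_iff] at hcon
  have h1 : G.edgeFinset.card = 0 := by
    rw [Finset.card_eq_zero, Finset.eq_empty_iff_forall_notMem]
    intro e
    induction e with
    | _ a b => exact (IsEmpty.false a).elim
  omega

lemma m0_pos (k m : ℕ) (hk : 3 ≤ k) (hm : m0 k ≤ m) : 0 < m := by
  unfold m0 at hm
  have h2 : 0 < k ^ 2 := by positivity
  omega

lemma specRad_nonneg {V : Type*} [Fintype V] [DecidableEq V] [Nonempty V] (G : SimpleGraph V)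
    [DecidableRel G.Adj] : 0 ≤ specRad G := by
  obtain ⟨x, hx1, hx0, hev⟩ := exists_perron G
  have hne : ∃ v, 0 < x v := by
    by_contra hcon
    push Not at hcon
    have : x = 0 := funext (fun v => le_antisymm (hcon v) (hx0 v))
    rw [this] at hx1
    simp at hx1
  obtain ⟨v, hv⟩ := hne
  have h1 := hev v
  have h2 : 0 ≤ ∑ u ∈ G.neighborFinset v, x u := Finset.sum_nonneg (fun u _ => hx0 u)
  rw [h1] at h2
  exact nonneg_of_mul_nonneg_left h2 hv

/-- A wheel-free graph whose spectral radius is at least that of `S1` is `S1`. -/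
theorem main_iso (k l m n : ℕ) (hk : 3 ≤ k) (hl1 : 1 ≤ l) (hl : l < k)
    (hm : m0 k ≤ m)
    (hmod : m + k * (k + 1) / 2 ≡ l [MOD k])
    (hn : (n : ℚ) = ((m : ℚ) - l) / k + (k + 3) / 2)
    {V : Type*} [Fintype V] [DecidableEq V] (G : SimpleGraph V) [DecidableRel G.Adj]
    (hG : G.edgeFinset.card = m) (hiso : ∀ v, ∃ w, G.Adj v w)
    (hfree : ¬ (wheel (2 * k + 1)).IsContained G) (hge : specRad (S1 n k l) ≤ specRad G) :
    Nonempty (G ≃g S1 n k l) := by
  have hmpos := m0_pos k m hk hm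
  have hne : Nonempty V := nonempty_of_edges G (by omega)
  obtain ⟨K, hKdef⟩ : ∃ K : ℝ, K = k := ⟨_, rfl⟩
  have hK3 : (3 : ℝ) ≤ K := by rw [hKdef]; exact_mod_cast hk
  set lam := specRad G with hlamdef
  have hlR : (l : ℝ) ≤ K - 1 := by
    have : (l : ℝ) + 1 ≤ K := by rw [hKdef]; exact_mod_cast hl
    linarith
  have hl1R : (1 : ℝ) ≤ l := by exact_mod_cast hl1
  obtain ⟨c0, hc0def⟩ : ∃ c0 : ℝ, c0 = (l : ℝ) * (K - l) / K := ⟨_, rfl⟩
  have hc0K : c0 * K = l * (K - l) := by rw [hc0def]; field_simp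
  have hc0 : 0 ≤ c0 := by
    rw [hc0def]
    apply div_nonneg (mul_nonneg _ _) _ <;> linarith
  have hc1 : c0 ≤ K / 4 := by
    rw [hc0def, div_le_iff₀ (by linarith)]
    have := sq_nonneg (K - 2 * l)
    linarith
  have hmR := m0_real k m hm
  rw [← hKdef] at hmR
  have hnR : (n : ℝ) = ((m : ℝ) - l) / K + (K + 3) / 2 := by
    have := congrArg (fun q : ℚ => (q : ℝ)) hn
    push_cast at this
    rw [hKdef]
    exact this
  have hnk : K + 1 ≤ (n : ℝ) := by
    have h1 : K ≤ ((m : ℝ) - l) / K := by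
      rw [le_div_iff₀ (by linarith)]
      have : 0 ≤ (10 ^ 100 * K ^ 100 * 2 ^ (rn k)) ^ 2 := sq_nonneg _
      linarith
    linarith
  have ht : ((n - k - 1 : ℕ) : ℝ) = n - K - 1 := by
    have h1 : k + 1 ≤ n := by
      have : ((k + 1 : ℕ) : ℝ) ≤ n := by push_cast; rw [← hKdef]; exact hnk
      exact_mod_cast this
    rw [Nat.sub_sub, Nat.cast_sub h1]
    push_cast
    rw [hKdef]
    ring
  have hkt : K * ((n - k - 1 : ℕ) : ℝ) = m - l - K * (K - 1) / 2 := by
    rw [ht, hnR]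
    field_simp
    ring
  obtain ⟨hθ1, hθ2⟩ := S1_low n k l hl1 hl
  rw [← hKdef, hkt] at hθ2
  rw [← hKdef] at hθ1
  set θ := specRad (S1 n k l) with hθ
  have hmEE : EE G univ univ / 2 = m := by rw [EE_univ_eq, hG]; ring
  have hlow : (m : ℝ) - K * (K - 1) / 2 - c0 ≤ lam ^ 2 - (K - 1) * lam := by
    have h1 : 0 ≤ (lam - θ) * (lam + θ - (K - 1)) :=
      mul_nonneg (by linarith) (by linarith)
    have h2 : (l : ℝ) ^ 2 / K = l - c0 := by
      rw [hc0def]; field_simp; ring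
    rw [h2] at hθ2
    linarith
  have hbig := big_of_low k m hk hm lam c0 (by linarith) (by rw [← hKdef]; exact hc1)
    (by rw [← hKdef]; exact hlow)
  obtain ⟨L, hL, hcl, hZ⟩ := WI.core k hk G hfree c0 hc0 (by rw [← hKdef]; exact hc1)
    (by rw [hmEE, ← hKdef]; exact hlow) hbig
  apply finish G k l m n hl1 hl hG hiso L hL hcl hmod hn
  rw [← hKdef] at hZ ⊢
  rw [hc0K] at hZ
  exact hZ

/-- recognising `K_k ∨ t K_1` -/
lemma iso_split {V : Type*} [Fintype V] [DecidableEq V] (G : SimpleGraph V) [DecidableRel G.Adj]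
    (k : ℕ) (L : Finset V) (hL : L.card = k) (hcl : ∀ a ∈ L, ∀ b ∈ L, a ≠ b → G.Adj a b)
    (hR : ∀ a, a ∉ L → ∀ b, b ∉ L → ¬ G.Adj a b)
    (hfull : ∀ r, r ∉ L → ∀ a ∈ L, G.Adj a r) :
    Nonempty (G ≃g splitGraph k Lᶜ.card) := by
  classical
  let τ : V → Fin 2 := fun v => if v ∈ L then 0 else 1
  let σ : Fin k ⊕ Fin Lᶜ.card → Fin 2 := Sum.elim (fun _ => 0) (fun _ => 1)
  have t0 : ∀ v, v ∈ L → τ v = 0 := fun v h1 => by simp only [τ, if_pos h1]
  have t1 : ∀ v, v ∉ L → τ v = 1 := fun v h1 => by simp only [τ, if_neg h1]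
  apply iso_of_types G (splitGraph k Lᶜ.card) τ σ (fun i j => i = 0 ∨ j = 0)
  · intro a b
    by_cases ha : a ∈ L
    · rw [t0 a ha]
      by_cases hb : b ∈ L
      · exact ⟨fun h => ⟨h.ne, Or.inl rfl⟩, fun h => hcl a ha b hb h.1⟩
      · exact ⟨fun h => ⟨h.ne, Or.inl rfl⟩, fun _ => hfull b hb a ha⟩
    · rw [t1 a ha]
      by_cases hb : b ∈ L
      · rw [t0 b hb]
        exact ⟨fun h => ⟨h.ne, Or.inr rfl⟩, fun _ => (hfull a ha b hb).symm⟩
      · rw [t1 b hb]
        refine ⟨fun h => absurd h (hR a ha b hb), fun h => ?_⟩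
        simp at h
  · rintro (a | a) (b | b) <;> simp [splitGraph, join, σ]
  · intro i
    have hσ : (univ.filter (fun b => σ b = i)).card = ![k, Lᶜ.card] i := by
      rw [Finset.card_filter]
      simp only [Fintype.sum_sum_type, σ, Sum.elim_inl, Sum.elim_inr]
      fin_cases i <;> simp
    rw [hσ]
    fin_cases i
    · change (univ.filter (fun a => τ a = 0)).card = k
      rw [← hL]
      congr 1
      ext v
      simp only [mem_filter, mem_univ, true_and]
      by_cases hv : v ∈ L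
      · simp [t0 v hv, hv]
      · simp [t1 v hv, hv]
    · change (univ.filter (fun a => τ a = 1)).card = Lᶜ.card
      congr 1
      ext v
      simp only [mem_filter, mem_univ, true_and, mem_compl]
      by_cases hv : v ∈ L
      · simp [t0 v hv, hv]
      · simp [t1 v hv, hv]

open Classical in
/-- the spectral radius of `K_k ∨ t K_1` -/
lemma specRad_split (k t : ℕ) (hk : 1 ≤ k) (ht : 1 ≤ t) :
    specRad (splitGraph k t) = ((k : ℝ) - 1 + Real.sqrt (((k : ℝ) - 1) ^ 2 + 4 * k * t)) / 2 := by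
  have hne : Nonempty (Fin k ⊕ Fin t) := ⟨Sum.inl ⟨0, hk⟩⟩
  have hkR : (1 : ℝ) ≤ k := by exact_mod_cast hk
  have htR : (1 : ℝ) ≤ t := by exact_mod_cast ht
  set θ := ((k : ℝ) - 1 + Real.sqrt (((k : ℝ) - 1) ^ 2 + 4 * k * t)) / 2 with hθ
  have hD0 : 0 < ((k : ℝ) - 1) ^ 2 + 4 * k * t := by positivity
  have hs := Real.sq_sqrt hD0.le
  have hs0 := Real.sqrt_pos.2 hD0
  have hθ0 : 0 < θ := by rw [hθ]; linarith
  have hθ2 : θ ^ 2 = ((k : ℝ) - 1) * θ + k * t := by
    rw [hθ]; nlinarith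
  let z : Fin k ⊕ Fin t → ℝ := Sum.elim (fun _ => θ) (fun _ => k)
  have hz : ∀ v, 0 < z v := by
    rintro (a | a)
    · exact hθ0
    · change (0 : ℝ) < k
      linarith
  have hrow : ∀ v, ∑ u ∈ (splitGraph k t).neighborFinset v, z u = θ * z v := by
    rintro (a | a)
    · rw [nbr_sum]
      simp only [Fintype.sum_sum_type, splitGraph, join, z, Sum.elim_inl, Sum.elim_inr,
        if_true, Finset.sum_const, Finset.card_univ, Fintype.card_fin, nsmul_eq_mul]
      rw [top_sum]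
      linarith
    · rw [nbr_sum]
      simp only [Fintype.sum_sum_type, splitGraph, join, z, Sum.elim_inl, Sum.elim_inr,
        if_true, Finset.sum_const, Finset.card_univ, Fintype.card_fin, nsmul_eq_mul,
        SimpleGraph.bot_adj, if_false]
      ring
  apply le_antisymm
  · exact specRad_le_of_super _ z hz θ (fun v => (hrow v).le)
  · exact le_specRad_of_sub _ z (fun v => (hz v).le) ⟨Sum.inl ⟨0, hk⟩, hz _⟩ θ
      (fun v => (hrow v).ge)

/-- the bound in terms of the number of edges -/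
lemma bound_eq (k m t : ℕ) (hk : 1 ≤ k) (ht : 1 ≤ t)
    (hm : (t : ℚ) = (m : ℚ) / k - (k - 1) / 2) :
    specRad (splitGraph k t) = ((k : ℝ) - 1 + Real.sqrt (4 * m - (k : ℝ) ^ 2 + 1)) / 2 := by
  rw [specRad_split k t hk ht]
  have hkR : (k : ℝ) ≠ 0 := by
    have : 0 < k := hk
    exact_mod_cast this.ne'
  have h1 : (t : ℝ) = (m : ℝ) / k - (k - 1) / 2 := by
    have := congrArg (fun q : ℚ => (q : ℝ)) hm
    push_cast at this
    exact this
  have h2 : ((k : ℝ) - 1) ^ 2 + 4 * k * t = 4 * m - (k : ℝ) ^ 2 + 1 := by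
    rw [h1]
    field_simp
    ring
  rw [h2]

/-- A wheel-free graph whose spectral radius is at least the bound is `K_k ∨ t K_1`. -/
theorem main_split (k m : ℕ) (hk : 3 ≤ k) (hm : m0 k ≤ m)
    {V : Type*} [Fintype V] [DecidableEq V] (G : SimpleGraph V) [DecidableRel G.Adj]
    (hG : G.edgeFinset.card = m) (hiso : ∀ v, ∃ w, G.Adj v w)
    (hfree : ¬ (wheel (2 * k + 1)).IsContained G)
    (hge : ((k : ℝ) - 1 + Real.sqrt (4 * m - (k : ℝ) ^ 2 + 1)) / 2 ≤ specRad G) :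
    ∃ t : ℕ, 1 ≤ t ∧ (t : ℚ) = (m : ℚ) / k - (k - 1) / 2 ∧ Nonempty (G ≃g splitGraph k t) := by
  have hmpos := m0_pos k m hk hm
  have hne : Nonempty V := nonempty_of_edges G (by omega)
  obtain ⟨K, hKdef⟩ : ∃ K : ℝ, K = k := ⟨_, rfl⟩
  have hK3 : (3 : ℝ) ≤ K := by rw [hKdef]; exact_mod_cast hk
  set lam := specRad G with hlamdef
  have hmR := m0_real k m hm
  rw [← hKdef] at hmR hge
  have hmEE : EE G univ univ / 2 = m := by rw [EE_univ_eq, hG]; ring
  have hM0 : 0 ≤ (10 ^ 100 * K ^ 100 * 2 ^ (rn k)) ^ 2 := sq_nonneg _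
  have hD0 : 0 ≤ 4 * (m : ℝ) - K ^ 2 + 1 := by
    have h1 : 0 ≤ K ^ 2 := sq_nonneg _
    linarith
  have hs := Real.sq_sqrt hD0
  have hs0 := Real.sqrt_nonneg (4 * (m : ℝ) - K ^ 2 + 1)
  set s := Real.sqrt (4 * (m : ℝ) - K ^ 2 + 1) with hsdef
  have hlow : (m : ℝ) - K * (K - 1) / 2 - 0 ≤ lam ^ 2 - (K - 1) * lam := by
    have h1 : 0 ≤ (2 * lam - (K - 1) - s) * (2 * lam - (K - 1) + s) :=
      mul_nonneg (by linarith) (by linarith)
    nlinarith
  have hbig := big_of_low k m hk hm lam 0 (by linarith) (by positivity)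
    (by rw [← hKdef]; exact hlow)
  obtain ⟨L, hL, hcl, hZ⟩ := WI.core k hk G hfree 0 le_rfl (by positivity)
    (by rw [hmEE, ← hKdef]; exact hlow) hbig
  rw [zero_mul, zero_add] at hZ
  have hjk : ∀ r, dg G L r ≤ k := by
    intro r
    rw [dg_card, ← hL]
    exact_mod_cast Finset.card_filter_le _ _
  -- the count is an integer, hence zero
  have hRR0 : EE G Lᶜ Lᶜ = 0 := by
    by_contra hcon
    have hex : ∃ a ∈ Lᶜ, ∃ b ∈ Lᶜ, G.Adj a b := by
      by_contra h2
      push Not at h2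
      exact hcon (Finset.sum_eq_zero (fun v hv => Finset.sum_eq_zero (fun w hw =>
        ad_not G v w (h2 v hv w hw))))
    obtain ⟨a, ha, b, hb, hab⟩ := hex
    have h1 : 1 ≤ dg G Lᶜ a := by
      unfold dg
      calc (1 : ℝ) = ad G a b := (ad_of G a b hab).symm
        _ ≤ ∑ w ∈ Lᶜ, ad G a w := Finset.single_le_sum (f := fun w => ad G a w)
            (fun w _ => ad_nonneg G a w) hb
    have h2 := dg_le_EE (G := G) Lᶜ Lᶜ a ha
    have h3 : 0 ≤ ∑ r ∈ Lᶜ, dg G L r * (k - dg G L r) := Finset.sum_nonneg (fun r _ =>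
      mul_nonneg (dg_nonneg _ _) (by have := hjk r; linarith))
    have h4 : (k : ℝ) * (1 / 2) ≤ k * (EE G Lᶜ Lᶜ / 2) :=
      mul_le_mul_of_nonneg_left (by linarith) (Nat.cast_nonneg k)
    rw [← hKdef] at h3 h4 hZ
    linarith
  have hRR : ∀ a, a ∉ L → ∀ b, b ∉ L → ¬ G.Adj a b := by
    intro a ha b hb hab
    have h1 : dg G Lᶜ a ≤ 0 := by
      rw [← hRR0]
      exact dg_le_EE (G := G) Lᶜ Lᶜ a (mem_compl.2 ha)
    have h2 : 1 ≤ dg G Lᶜ a := by
      unfold dg
      calc (1 : ℝ) = ad G a b := (ad_of G a b hab).symm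
        _ ≤ ∑ w ∈ Lᶜ, ad G a w := Finset.single_le_sum (f := fun w => ad G a w)
            (fun w _ => ad_nonneg G a w) (mem_compl.2 hb)
    linarith
  have hfullj : ∀ r, r ∉ L → (L.filter (G.Adj r)).card = k := by
    intro r hr
    by_contra hne'
    obtain ⟨w, hw⟩ := hiso r
    have hwL : w ∈ L := by
      by_contra hwL
      exact hRR r hr w hwL hw
    have hpos : 1 ≤ (L.filter (G.Adj r)).card := Finset.card_pos.2 ⟨w, mem_filter.2 ⟨hwL, hw⟩⟩
    have hle : (L.filter (G.Adj r)).card ≤ k := (Finset.card_filter_le _ _).trans hL.le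
    have hlt : (L.filter (G.Adj r)).card + 1 ≤ k := by omega
    have h1 : dg G L r * (k - dg G L r) ≤ ∑ r ∈ Lᶜ, dg G L r * (k - dg G L r) :=
      Finset.single_le_sum (f := fun r => dg G L r * (k - dg G L r)) (fun r _ =>
        mul_nonneg (dg_nonneg _ _) (by have := hjk r; linarith)) (mem_compl.2 hr)
    rw [hRR0] at hZ
    have h2 : 1 ≤ dg G L r := by rw [dg_card]; exact_mod_cast hpos
    have h3 : dg G L r + 1 ≤ k := by rw [dg_card]; exact_mod_cast hlt
    have h4 : 1 * 1 ≤ dg G L r * (k - dg G L r) :=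
      mul_le_mul h2 (by linarith) zero_le_one (by linarith)
    linarith
  have hfull : ∀ r, r ∉ L → ∀ a ∈ L, G.Adj a r := by
    intro r hr a ha
    have h2 : L.filter (G.Adj r) = L := by
      apply Finset.eq_of_subset_of_card_le (Finset.filter_subset _ _)
      rw [hL]
      exact (hfullj r hr).ge
    have h3 : a ∈ L.filter (G.Adj r) := by rw [h2]; exact ha
    exact (mem_filter.1 h3).2.symm
  have hm' : (2 * m : ℝ) = k * (k - 1) + 2 * (k * Lᶜ.card) := by
    have hsp : ∀ A : Finset V, EE G A univ = EE G A L + EE G A Lᶜ := by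
      intro A
      unfold EE
      rw [← Finset.sum_add_distrib]
      exact Finset.sum_congr rfl (fun v _ => (Finset.sum_add_sum_compl L _).symm)
    have h1 : EE G univ univ = EE G L univ + EE G Lᶜ univ := by
      unfold EE
      rw [Finset.sum_add_sum_compl L]
    have h2 := hsp L
    have h3 := hsp Lᶜ
    have h4 := EE_comm (G := G) L Lᶜ
    have h5 : EE G Lᶜ L = (k : ℝ) * Lᶜ.card := by
      rw [EE_eq]
      have : ∀ r ∈ Lᶜ, dg G L r = (k : ℝ) := by
        intro r hr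
        rw [dg_card, hfullj r (mem_compl.1 hr)]
      rw [Finset.sum_congr rfl this, Finset.sum_const, nsmul_eq_mul]
      ring
    have h6 : EE G L L = (k : ℝ) * (k - 1) := by
      rw [EE_eq]
      have : ∀ a ∈ L, dg G L a = (k : ℝ) - 1 := by
        intro a ha
        unfold dg
        rw [← Finset.add_sum_erase L _ ha, ad_self, zero_add,
          Finset.sum_congr rfl (fun b hb => ad_of G a b (hcl a ha b (Finset.mem_erase.1 hb).2
            (Finset.mem_erase.1 hb).1.symm)), Finset.sum_const, nsmul_eq_mul, mul_one,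
          Finset.card_erase_of_mem ha, hL, Nat.cast_sub (by omega)]
        simp
      rw [Finset.sum_congr rfl this, Finset.sum_const, nsmul_eq_mul, hL]
    have h7 : EE G univ univ = 2 * (m : ℝ) := by rw [EE_univ_eq, hG]
    linarith
  have htpos : 1 ≤ Lᶜ.card := by
    by_contra hcon
    have h0 : Lᶜ.card = 0 := by omega
    rw [h0] at hm'
    rw [← hKdef] at hm'
    push_cast at hm'
    have h1 : 0 ≤ K ^ 2 := sq_nonneg _
    nlinarith
  refine ⟨Lᶜ.card, htpos, ?_, iso_split G k L hL hcl hRR hfull⟩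
  have hkq : (k : ℚ) ≠ 0 := by
    have : 0 < k := by omega
    exact_mod_cast this.ne'
  have hmq : (2 * m : ℚ) = k * (k - 1) + 2 * (k * Lᶜ.card) := by exact_mod_cast hm'
  have : (m : ℚ) = k * (k - 1) / 2 + k * Lᶜ.card := by linarith
  rw [this]
  field_simp
  ring

end Pool.Agent.H35.Wh.WJ
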